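import Mathlib

/-!
# A nonprincipal prime ideal on `ℕ` is not analytic

We prove the special case needed: an ideal on `ℕ` which is a countable union of families
`{A | ∃ c ∈ ℝ^j, ∀ i ∈ A, c ∈ S i}` with `S i` a countable union of compact sets cannot be
prime and contain the finite sets.
-/

namespace Pool.Agent.H581R2

open Set Topology

section reg

variable {X : Type*} [TopologicalSpace X]

/-- union of the open sets in which `P` is meagre -/
def Osm (P : Set X) : Set X := ⋃₀ {U | IsOpen U ∧ IsMeagre (P ∩ U)}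

/-- a regular open set in which `P` is everywhere non-meagre -/
def Rg (P : Set X) : Set X := interior (Osm P)ᶜ

lemma isOpen_Osm (P : Set X) : IsOpen (Osm P) := isOpen_sUnion fun _ h => h.1

lemma isOpen_Rg (P : Set X) : IsOpen (Rg P) := isOpen_interior

lemma meagre_inter_Osm [SecondCountableTopology X] (P : Set X) : IsMeagre (P ∩ Osm P) := by
  have h1 : P ∩ Osm P ⊆ ⋃ U ∈ {U ∈ TopologicalSpace.countableBasis X | IsMeagre (P ∩ U)},
      P ∩ U := by
    rintro x ⟨hxP, V, ⟨hV, hm⟩, hxV⟩
    obtain ⟨U, hU, hxU, hUV⟩ :=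
      (TopologicalSpace.isBasis_countableBasis X).exists_subset_of_mem_open hxV hV
    simp only [mem_iUnion]
    exact ⟨U, ⟨hU, hm.mono (inter_subset_inter_right _ hUV)⟩, hxP, hxU⟩
  refine IsMeagre.mono h1 (isMeagre_biUnion ?_ fun U hU => hU.2)
  exact (TopologicalSpace.countable_countableBasis X).mono fun U hU => hU.1

lemma frontier_meagre {V : Set X} (hV : IsOpen V) : IsMeagre (closure V \ V) := by
  apply IsNowhereDense.isMeagre
  have h : closure V \ V = frontier V := by
    rw [frontier, hV.interior_eq]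
  rw [h]
  rw [isClosed_frontier.isNowhereDense_iff]
  exact interior_frontier hV.isClosed_compl |> fun h => by rwa [frontier_compl] at h

lemma meagre_diff_Rg [SecondCountableTopology X] (P : Set X) : IsMeagre (P \ Rg P) := by
  have h1 : P \ Rg P ⊆ (P ∩ Osm P) ∪ (closure (Osm P) \ Osm P) := by
    rintro x ⟨hxP, hx⟩
    by_cases h : x ∈ Osm P
    · exact Or.inl ⟨hxP, h⟩
    · right
      refine ⟨?_, h⟩
      rw [Rg, interior_compl, mem_compl_iff, not_not] at hx
      exact hx
  exact IsMeagre.mono h1 ((meagre_inter_Osm P).union (frontier_meagre (isOpen_Osm P)))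

lemma not_meagre_of_subset_Rg {P U : Set X} (hU : IsOpen U) (hne : U.Nonempty) (hR : U ⊆ Rg P) :
    ¬ IsMeagre (P ∩ U) := by
  intro h
  obtain ⟨x, hx⟩ := hne
  have h1 : x ∈ Osm P := ⟨U, ⟨hU, h⟩, hx⟩
  exact interior_subset (hR hx) h1

lemma Rg_subset_closure (P : Set X) : Rg P ⊆ closure P := by
  intro x hx
  rw [mem_closure_iff]
  intro U hU hxU
  have := not_meagre_of_subset_Rg (hU.inter (isOpen_Rg P)) ⟨x, hxU, hx⟩ inter_subset_right
  obtain ⟨y, hy⟩ := nonempty_of_not_isMeagre this
  exact ⟨y, hy.2.1, hy.1⟩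

lemma meagre_Rg_diff [SecondCountableTopology X] (P : Set X) (Q : ℕ → Set X)
    (h : P ⊆ ⋃ k, Q k) : IsMeagre (Rg P \ ⋃ k, Rg (Q k)) := by
  set V : Set X := ⋃ k, Rg (Q k) with hV
  have hVo : IsOpen V := isOpen_iUnion fun k => isOpen_Rg _
  have hW : Rg P ⊆ closure V := by
    by_contra hne
    have hne' : (Rg P ∩ (closure V)ᶜ).Nonempty := by
      rw [not_subset] at hne
      obtain ⟨x, h1, h2⟩ := hne
      exact ⟨x, h1, h2⟩
    refine not_meagre_of_subset_Rg ((isOpen_Rg P).inter isClosed_closure.isOpen_compl) hne'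
      inter_subset_left ?_
    have h1 : P ∩ (Rg P ∩ (closure V)ᶜ) ⊆ ⋃ k, (Q k \ Rg (Q k)) := by
      rintro x ⟨hxP, _, hxV⟩
      obtain ⟨k, hk⟩ := mem_iUnion.1 (h hxP)
      refine mem_iUnion.2 ⟨k, hk, fun hx => hxV (subset_closure ?_)⟩
      exact mem_iUnion.2 ⟨k, hx⟩
    exact IsMeagre.mono h1 (isMeagre_iUnion fun k => meagre_diff_Rg _)
  exact IsMeagre.mono (sdiff_subset_sdiff_left hW) (frontier_meagre hVo)

end reg

/-- the family of subsets of `ℕ` solved by one parameter -/
def Fam {j : ℕ} (K : ℕ → ℕ → Set (Fin j → ℝ)) : Set (ℕ → Bool) :=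
  {x | ∃ c, ∀ i, x i = true → ∃ k, c ∈ K i k}

/-- with the first choices prescribed -/
def FamP {j : ℕ} (K : ℕ → ℕ → Set (Fin j → ℝ)) (s : List ℕ) : Set (ℕ → Bool) :=
  {x | ∃ (c : Fin j → ℝ) (z : ℕ → ℕ), (∀ i < s.length, z i = s.getD i 0) ∧
    ∀ i, x i = true → c ∈ K i (z i)}

lemma famP_nil {j : ℕ} (K : ℕ → ℕ → Set (Fin j → ℝ)) : FamP K [] = Fam K := by
  ext x
  constructor
  · rintro ⟨c, z, _, h⟩
    exact ⟨c, fun i hi => ⟨z i, h i hi⟩⟩
  · rintro ⟨c, h⟩
    choose! z hz using h
    exact ⟨c, z, by simp, hz⟩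

lemma famP_step {j : ℕ} (K : ℕ → ℕ → Set (Fin j → ℝ)) (s : List ℕ) :
    FamP K s ⊆ ⋃ k, FamP K (s ++ [k]) := by
  rintro x ⟨c, z, hz, h⟩
  refine mem_iUnion.2 ⟨z s.length, c, z, fun i hi => ?_, h⟩
  rw [List.length_append, List.length_singleton] at hi
  rcases Nat.lt_succ_iff_lt_or_eq.1 hi with h1 | h1
  · rw [hz i h1, List.getD_append _ _ _ _ h1]
  · subst h1
    simp

/-- the families have the Baire property -/
lemma fam_baire {j : ℕ} (K : ℕ → ℕ → Set (Fin j → ℝ)) (hK : ∀ i k, IsCompact (K i k))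
    (h : ¬ IsMeagre (Fam K)) : ∃ U : Set (ℕ → Bool), IsOpen U ∧ U.Nonempty ∧
      IsMeagre (U \ Fam K) := by
  refine ⟨Rg (FamP K []), isOpen_Rg _, ?_, ?_⟩
  · by_contra hne
    rw [not_nonempty_iff_eq_empty] at hne
    have := meagre_diff_Rg (FamP K [])
    rw [hne, sdiff_empty, famP_nil] at this
    exact h this
  · set M : Set (ℕ → Bool) := ⋃ s : List ℕ, Rg (FamP K s) \ ⋃ k, Rg (FamP K (s ++ [k])) with hM
    have hMm : IsMeagre M := isMeagre_iUnion fun s => meagre_Rg_diff _ _ (famP_step K s)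
    refine IsMeagre.mono ?_ hMm
    rintro x ⟨hx, hxF⟩
    by_contra hxM
    apply hxF
    -- build the branch
    have step : ∀ s : List ℕ, x ∈ Rg (FamP K s) → ∃ k, x ∈ Rg (FamP K (s ++ [k])) := by
      intro s hs
      by_contra hno
      apply hxM
      refine mem_iUnion.2 ⟨s, hs, fun h1 => hno ?_⟩
      exact mem_iUnion.1 h1
    choose! f hf using step
    let sq : ℕ → List ℕ := fun n => Nat.rec [] (fun _ s => s ++ [f s]) n
    have hsq : ∀ n, sq (n + 1) = sq n ++ [f (sq n)] := fun n => rfl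
    have hlen : ∀ n, (sq n).length = n := by
      intro n
      induction n with
      | zero => rfl
      | succ n ih => rw [hsq]; simp [ih]
    have hmem : ∀ n, x ∈ Rg (FamP K (sq n)) := by
      intro n
      induction n with
      | zero => exact hx
      | succ n ih => rw [hsq]; exact hf _ ih
    let y : ℕ → ℕ := fun n => f (sq n)
    have hy : ∀ n, ∀ i < n, (sq n).getD i 0 = y i := by
      intro n
      induction n with
      | zero => intro i hi; exact absurd hi (Nat.not_lt_zero _)
      | succ n ih =>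
        intro i hi
        rw [hsq]
        rcases Nat.lt_succ_iff_lt_or_eq.1 hi with h1 | h1
        · rw [List.getD_append _ _ _ _ (by rw [hlen]; exact h1)]
          exact ih i h1
        · subst h1
          have : (sq i ++ [f (sq i)]).getD i 0 = (sq i ++ [f (sq i)]).getD (sq i).length 0 := by
            rw [hlen]
          rw [this]
          simp [y]
    -- finite intersections are nonempty
    have hfin : ∀ n, ∃ c : Fin j → ℝ, ∀ i < n, x i = true → c ∈ K i (y i) := by
      intro n
      have h1 := Rg_subset_closure _ (hmem n)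
      rw [mem_closure_iff] at h1
      have hopen : IsOpen {x' : ℕ → Bool | ∀ i ∈ Finset.range n, x' i = x i} := by
        have : {x' : ℕ → Bool | ∀ i ∈ Finset.range n, x' i = x i} =
            ⋂ i ∈ Finset.range n, (fun x' : ℕ → Bool => x' i) ⁻¹' {x i} := by
          ext x'; simp
        rw [this]
        exact isOpen_biInter_finset fun i _ =>
          (isOpen_discrete _).preimage (continuous_apply i)
      obtain ⟨x', hx'1, c, z, hz, hc⟩ := h1 _ hopen (by simp)
      refine ⟨c, fun i hi hxi => ?_⟩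
      have h2 : x' i = x i := hx'1 i (Finset.mem_range.2 hi)
      have h3 := hc i (h2.trans hxi)
      rw [hz i (by rw [hlen]; exact hi), hy n i hi] at h3
      exact h3
    by_cases hex : ∃ i, x i = true
    · obtain ⟨i0, hi0⟩ := hex
      have key := IsCompact.nonempty_iInter_of_sequence_nonempty_isCompact_isClosed
        (fun n => ⋂ i ∈ {i | i < n + (i0 + 1) ∧ x i = true}, K i (y i))
        (fun n => by
          refine biInter_subset_biInter_left fun i hi => ?_
          exact ⟨lt_of_lt_of_le hi.1 (by omega), hi.2⟩)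
        (fun n => by
          obtain ⟨c, hc⟩ := hfin (n + (i0 + 1))
          exact ⟨c, mem_iInter₂.2 fun i hi => hc i hi.1 hi.2⟩)
        (by
          refine (hK i0 (y i0)).of_isClosed_subset
            (isClosed_biInter fun i _ => (hK i (y i)).isClosed) ?_
          exact biInter_subset_of_mem ⟨by omega, hi0⟩)
        (fun n => isClosed_biInter fun i _ => (hK i (y i)).isClosed)
      obtain ⟨c, hc⟩ := key
      rw [mem_iInter] at hc
      refine ⟨c, fun i hi => ⟨y i, ?_⟩⟩
      have := hc (i + 1)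
      rw [mem_iInter₂] at this
      exact this i ⟨by omega, hi⟩
    · push Not at hex
      exact ⟨0, fun i hi => absurd hi (hex i)⟩

/-- flip the bits from position `n` on -/
def flip (n : ℕ) (x : ℕ → Bool) : ℕ → Bool := fun i => if i < n then x i else !x i

lemma flip_flip (n : ℕ) (x : ℕ → Bool) : flip n (flip n x) = x := by
  funext i
  by_cases h : i < n <;> simp [flip, h]

lemma continuous_flip (n : ℕ) : Continuous (flip n) := by
  refine continuous_pi fun i => ?_
  by_cases h : i < n
  · simp only [flip, h, if_true]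
    exact continuous_apply i
  · simp only [flip, h, if_false]
    exact (continuous_of_discreteTopology (f := fun b : Bool => !b)).comp (continuous_apply i)

/-- the homeomorphism `flip n` -/
def flipH (n : ℕ) : (ℕ → Bool) ≃ₜ (ℕ → Bool) where
  toFun := flip n
  invFun := flip n
  left_inv := flip_flip n
  right_inv := flip_flip n
  continuous_toFun := continuous_flip n
  continuous_invFun := continuous_flip n

/-- There is no prime ideal on `ℕ` containing the finite sets and of the analytic form below. -/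
theorem no_prime (𝒦 : Set (Set ℕ))
    (hsub : ∀ A B : Set ℕ, A ⊆ B → B ∈ 𝒦 → A ∈ 𝒦)
    (hun : ∀ A B : Set ℕ, A ∈ 𝒦 → B ∈ 𝒦 → A ∪ B ∈ 𝒦)
    (hfin : ∀ A : Set ℕ, A.Finite → A ∈ 𝒦)
    (huniv : (univ : Set ℕ) ∉ 𝒦)
    (hprime : ∀ A : Set ℕ, A ∈ 𝒦 ∨ Aᶜ ∈ 𝒦)
    {L : Type} [Countable L] (j : L → ℕ) (K : ∀ l, ℕ → ℕ → Set (Fin (j l) → ℝ))
    (hK : ∀ l i k, IsCompact (K l i k))
    (hrep : ∀ A : Set ℕ, A ∈ 𝒦 ↔ ∃ l, ∃ c, ∀ i ∈ A, ∃ k, c ∈ K l i k) : False := by
  classical
  let st : (ℕ → Bool) → Set ℕ := fun x => {i | x i = true}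
  let T : Set (ℕ → Bool) := {x | st x ∈ 𝒦}
  have hT : T = ⋃ l, Fam (K l) := by
    ext x
    rw [mem_iUnion]
    exact hrep (st x)
  -- complement up to a finite set
  have hflip : ∀ n x, flip n x ∈ T ↔ x ∉ T := by
    intro n x
    have hfinite : {i : ℕ | i < n}.Finite := Set.finite_lt_nat n
    have e1 : st (flip n x) ⊆ (st x)ᶜ ∪ {i | i < n} := by
      intro i hi
      by_cases h : i < n
      · exact Or.inr h
      · left
        intro hx
        have hx' : x i = true := hx
        have hi' : flip n x i = true := hi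
        simp [flip, h, hx'] at hi'
    have e2 : (st x)ᶜ ⊆ st (flip n x) ∪ {i | i < n} := by
      intro i hi
      by_cases h : i < n
      · exact Or.inr h
      · left
        have hi' : ¬ x i = true := hi
        show flip n x i = true
        simp [flip, h, hi']
    constructor
    · intro h hx
      apply huniv
      have h1 : (st x)ᶜ ∈ 𝒦 := hsub _ _ e2 (hun _ _ h (hfin _ hfinite))
      have := hun _ _ hx h1
      rwa [union_compl_self] at this
    · intro h
      have h1 : (st x)ᶜ ∈ 𝒦 := (hprime (st x)).resolve_left h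
      exact hsub _ _ e1 (hun _ _ h1 (hfin _ hfinite))
  have hpre : ∀ n, flipH n ⁻¹' T = Tᶜ := by
    intro n
    ext x
    exact hflip n x
  have hTn : ¬ IsMeagre T := by
    intro h
    have h1 : IsMeagre (flipH 0 ⁻¹' T) :=
      h.preimage_of_isOpenMap (flipH 0).continuous (flipH 0).isOpenMap
    rw [hpre] at h1
    have h2 := h.union h1
    rw [union_compl_self] at h2
    exact not_isMeagre_of_isOpen isOpen_univ ⟨fun _ => true, trivial⟩ h2
  obtain ⟨l, hl⟩ : ∃ l, ¬ IsMeagre (Fam (K l)) := by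
    by_contra hno
    push Not at hno
    exact hTn (hT ▸ isMeagre_iUnion hno)
  obtain ⟨U, hUo, ⟨x0, hx0⟩, hUm⟩ := fam_baire (K l) (hK l) hl
  have hUT : IsMeagre (U \ T) := by
    refine hUm.mono ?_
    rintro x ⟨hx, hxT⟩
    refine ⟨hx, fun hF => hxT ?_⟩
    rw [hT]
    exact mem_iUnion.2 ⟨l, hF⟩
  -- a cylinder
  obtain ⟨n, hn⟩ : ∃ n, {x : ℕ → Bool | ∀ i < n, x i = x0 i} ⊆ U := by
    rw [isOpen_pi_iff] at hUo
    obtain ⟨I, u, hu, hsubU⟩ := hUo x0 hx0
    refine ⟨I.sup id + 1, fun x hx => hsubU fun i hi => ?_⟩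
    rw [hx i (Nat.lt_succ_of_le (Finset.le_sup (f := id) hi))]
    exact (hu i hi).2
  set V : Set (ℕ → Bool) := {x : ℕ → Bool | ∀ i < n, x i = x0 i} with hV
  have hVo : IsOpen V := by
    have : V = ⋂ i ∈ Finset.range n, (fun x' : ℕ → Bool => x' i) ⁻¹' {x0 i} := by
      ext x'; simp [hV]
    rw [this]
    exact isOpen_biInter_finset fun i _ => (isOpen_discrete _).preimage (continuous_apply i)
  have hVT : IsMeagre (V \ T) := hUT.mono (sdiff_subset_sdiff_left hn)
  have h1 : IsMeagre (flipH n ⁻¹' (V \ T)) :=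
    hVT.preimage_of_isOpenMap (flipH n).continuous (flipH n).isOpenMap
  have h2 : V ⊆ (V \ T) ∪ flipH n ⁻¹' (V \ T) := by
    intro x hx
    by_cases hxT : x ∈ T
    · right
      refine ⟨fun i hi => ?_, fun h => (hflip n x).1 h hxT⟩
      show flip n x i = x0 i
      simp only [flip, hi, if_true]
      exact hx i hi
    · exact Or.inl ⟨hx, hxT⟩
  exact not_isMeagre_of_isOpen hVo ⟨x0, fun _ _ => rfl⟩ (IsMeagre.mono h2 (hVT.union h1))

end Pool.Agent.H581R2
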