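import Pool.Agent.H581R2.Model

/-!
# Basic facts on runs
-/

namespace Pool.Agent.H581R2

open Classical

variable {Λ Λ' : Type}

/-- operands bounded by `s` -/
def Act.Bd (s : ℕ) : Act → Prop
  | .const r i => r < s ∧ i < s
  | .add r a b => r < s ∧ a < s ∧ b < s
  | .sub r a b => r < s ∧ a < s ∧ b < s
  | .mul r a b => r < s ∧ a < s ∧ b < s
  | .div r a b => r < s ∧ a < s ∧ b < s
  | .load r i => r < s ∧ i < s
  | .store i r => i < s ∧ r < s
  | .zero i => i < s
  | .inc i => i < s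

/-- operands bounded by `s` -/
def Node.Bd (s : ℕ) : Node Λ → Prop
  | .act a _ => a.Bd s
  | .branch r _ _ => r < s
  | .halt _ => True

lemma Act.Bd.mono {s s' : ℕ} (h : s ≤ s') {a : Act} (ha : a.Bd s) : a.Bd s' := by
  cases a <;> simp only [Act.Bd] at ha ⊢ <;> omega

lemma Node.Bd.mono {s s' : ℕ} (h : s ≤ s') {a : Node Λ} (ha : a.Bd s) : a.Bd s' := by
  cases a with
  | act a l => exact Act.Bd.mono h ha
  | branch r y n => exact lt_of_lt_of_le ha h
  | halt b => trivial

/-- change of labels -/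
def Node.map (f : Λ → Λ') : Node Λ → Node Λ'
  | .act a l => .act a (f l)
  | .branch r y n => .branch r (f y) (f n)
  | .halt b => .halt b

lemma Node.Bd.map {s : ℕ} {a : Node Λ} (ha : a.Bd s) (f : Λ → Λ') : (a.map f).Bd s := by
  cases a <;> exact ha

lemma run_map (c : List ℝ) {nd : Λ → Node Λ} {nd' : Λ' → Node Λ'} (f : Λ → Λ')
    (h : ∀ l, nd' (f l) = (nd l).map f) (t : ℕ) (l : Λ) (s : St) :
    run c nd' t (f l) s = run c nd t l s := by
  induction t generalizing l s with
  | zero => rfl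
  | succ t ih =>
    rw [run, run, h]
    cases nd l with
    | act a l' => exact ih _ _
    | branch r y n =>
      simp only [Node.map]
      rw [← apply_ite f]
      exact ih _ _
    | halt b => rfl

lemma run_mono (c : List ℝ) (nd : Λ → Node Λ) {t : ℕ} {l : Λ} {s : St} {r : Bool × St}
    (h : run c nd t l s = some r) (k : ℕ) : run c nd (t + k) l s = some r := by
  induction t generalizing l s with
  | zero => simp [run] at h
  | succ t ih =>
    rw [show t + 1 + k = (t + k) + 1 by omega, run]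
    rw [run] at h
    cases hl : nd l with
    | act a l' => rw [hl] at h; exact ih h
    | branch r y n => rw [hl] at h; exact ih h
    | halt b => rw [hl] at h; exact h

lemma run_mono' (c : List ℝ) (nd : Λ → Node Λ) {t t' : ℕ} {l : Λ} {s : St} {r : Bool × St}
    (h : run c nd t l s = some r) (htt : t ≤ t') : run c nd t' l s = some r := by
  obtain ⟨k, rfl⟩ := Nat.exists_eq_add_of_le htt
  exact run_mono c nd h k

/-- `Reach c nd k l s l' s'`: from `(l, s)` the run passes through `(l', s')` after at most `k`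
steps -/
def Reach (c : List ℝ) (nd : Λ → Node Λ) (k : ℕ) (l : Λ) (s : St) (l' : Λ) (s' : St) : Prop :=
  ∃ k' ≤ k, ∀ t, run c nd (k' + t) l s = run c nd t l' s'

lemma Reach.refl (c : List ℝ) (nd : Λ → Node Λ) (l : Λ) (s : St) : Reach c nd 0 l s l s :=
  ⟨0, le_rfl, fun t => by rw [Nat.zero_add]⟩

lemma Reach.trans {c : List ℝ} {nd : Λ → Node Λ} {k1 k2 : ℕ} {l1 l2 l3 : Λ} {s1 s2 s3 : St}
    (h1 : Reach c nd k1 l1 s1 l2 s2) (h2 : Reach c nd k2 l2 s2 l3 s3) :
    Reach c nd (k1 + k2) l1 s1 l3 s3 := by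
  obtain ⟨a, ha, ha'⟩ := h1
  obtain ⟨b, hb, hb'⟩ := h2
  refine ⟨a + b, by omega, fun t => ?_⟩
  rw [Nat.add_assoc, ha', hb']

lemma Reach.mono {c : List ℝ} {nd : Λ → Node Λ} {k1 k2 : ℕ} {l1 l2 : Λ} {s1 s2 : St}
    (h1 : Reach c nd k1 l1 s1 l2 s2) (h : k1 ≤ k2) : Reach c nd k2 l1 s1 l2 s2 := by
  obtain ⟨a, ha, ha'⟩ := h1
  exact ⟨a, by omega, ha'⟩

lemma Reach.act {c : List ℝ} {nd : Λ → Node Λ} {l l' : Λ} {a : Act} (h : nd l = .act a l')
    (s : St) : Reach c nd 1 l s l' (a.run c s) := by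
  refine ⟨1, le_rfl, fun t => ?_⟩
  rw [Nat.add_comm, run, h]

lemma Reach.yes {c : List ℝ} {nd : Λ → Node Λ} {l y n : Λ} {r : ℕ} (h : nd l = .branch r y n)
    {s : St} (hs : 0 ≤ s.reg r) : Reach c nd 1 l s y s := by
  refine ⟨1, le_rfl, fun t => ?_⟩
  rw [Nat.add_comm, run, h]
  simp only [if_pos hs]

lemma Reach.no {c : List ℝ} {nd : Λ → Node Λ} {l y n : Λ} {r : ℕ} (h : nd l = .branch r y n)
    {s : St} (hs : s.reg r < 0) : Reach c nd 1 l s n s := by
  refine ⟨1, le_rfl, fun t => ?_⟩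
  rw [Nat.add_comm, run, h]
  simp only [if_neg (not_le.2 hs)]

lemma Reach.halts {c : List ℝ} {nd : Λ → Node Λ} {k : ℕ} {l l' : Λ} {s s' : St} {b : Bool}
    (h : Reach c nd k l s l' s') (hl : nd l' = .halt b) :
    run c nd (k + 1) l s = some (b, s') := by
  obtain ⟨a, ha, ha'⟩ := h
  have : run c nd (a + 1) l s = some (b, s') := by
    rw [ha', run, hl]
  exact run_mono' c nd this (by omega)

lemma Reach.run_some {c : List ℝ} {nd : Λ → Node Λ} {k t : ℕ} {l l' : Λ} {s s' : St}
    {r : Bool × St} (h : Reach c nd k l s l' s') (hl : run c nd t l' s' = some r) :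
    run c nd (k + t) l s = some r := by
  obtain ⟨a, ha, ha'⟩ := h
  have : run c nd (a + t) l s = some r := by
    rw [ha', hl]
  exact run_mono' c nd this (by omega)

/-- programs over a finite set of labels can be written over `Fin (N + 1)` with start `0` -/
lemma exists_fin_prog [Finite Λ] (nd : Λ → Node Λ) (l0 : Λ) {N : ℕ} (hN : Nat.card Λ ≤ N + 1) :
    ∃ nd' : Fin (N + 1) → Node (Fin (N + 1)),
      (∀ s, (∀ l, (nd l).Bd s) → ∀ l, (nd' l).Bd s) ∧
      ∀ c t st, run c nd' t 0 st = run c nd t l0 st := by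
  have hcard : 0 < Nat.card Λ := Nat.card_pos_iff.2 ⟨⟨l0⟩, inferInstance⟩
  obtain ⟨e0⟩ : Nonempty (Λ ≃ Fin (Nat.card Λ)) := ⟨Finite.equivFin Λ⟩
  let g0 : Λ → Fin (N + 1) := fun l => Fin.castLE hN (e0 l)
  have hg0 : Function.Injective g0 := fun a b h => e0.injective (Fin.castLE_injective hN h)
  let g : Λ → Fin (N + 1) := fun l => Equiv.swap (g0 l0) 0 (g0 l)
  have hg : Function.Injective g := fun a b h => hg0 ((Equiv.swap (g0 l0) 0).injective h)
  have hgl0 : g l0 = 0 := Equiv.swap_apply_left _ _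
  let nd' : Fin (N + 1) → Node (Fin (N + 1)) := fun i =>
    if h : ∃ l, g l = i then (nd h.choose).map g else .halt true
  have hnd' : ∀ l, nd' (g l) = (nd l).map g := by
    intro l
    have h : ∃ l', g l' = g l := ⟨l, rfl⟩
    have h2 : h.choose = l := hg h.choose_spec
    simp only [nd', dif_pos h, h2]
  refine ⟨nd', ?_, ?_⟩
  · intro s hs l
    by_cases h : ∃ l', g l' = l
    · simp only [nd', dif_pos h]
      exact (hs _).map g
    · simp only [nd', dif_neg h]
      trivial
  · intro c t st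
    rw [← hgl0]
    exact run_map c g hnd' t l0 st

end Pool.Agent.H581R2
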