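import Pool.Agent.H581R2.Tame

/-!
# Programs deciding semialgebraic problems in a fixed dimension
-/

namespace Pool.Agent.H581R2

open Classical

/-- straight line runs -/
noncomputable def runL (C : List ℝ) (w : List Act) (S : St) : St :=
  w.foldl (fun S a => a.run C S) S

lemma runL_nil (C : List ℝ) (S : St) : runL C [] S = S := rfl

lemma runL_cons (C : List ℝ) (a : Act) (w : List Act) (S : St) :
    runL C (a :: w) S = runL C w (a.run C S) := rfl

lemma runL_append (C : List ℝ) (w1 w2 : List Act) (S : St) :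
    runL C (w1 ++ w2) S = runL C w2 (runL C w1 S) := by
  simp [runL, List.foldl_append]

/-- `SD s C D P`: some program decides `P x` from all contents `S` with `D x S` -/
def SD {α : Type} (s : ℕ) (C : List ℝ) (D : α → St → Prop) (P : α → Prop) : Prop :=
  ∃ (Λ : Type) (_ : Finite Λ) (nd : Λ → Node Λ) (l0 : Λ) (t : ℕ), (∀ l, (nd l).Bd s) ∧
    ∀ x S, D x S → ∃ st, run C nd t l0 S = some (decide (P x), st)

section SD

variable {α : Type} {s : ℕ} {C : List ℝ}

lemma SD.mono {D D' : α → St → Prop} {P : α → Prop} (h : SD s C D' P)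
    (hD : ∀ x S, D x S → D' x S) : SD s C D P := by
  obtain ⟨Λ, hΛ, nd, l0, t, h1, h2⟩ := h
  exact ⟨Λ, hΛ, nd, l0, t, h1, fun x S hx => h2 x S (hD x S hx)⟩

lemma SD.const {D : α → St → Prop} {P : α → Prop} (b : Prop) (h : ∀ x S, D x S → (P x ↔ b)) :
    SD s C D P := by
  refine ⟨Unit, inferInstance, fun _ => .halt (decide b), (), 1, fun _ => trivial, ?_⟩
  intro x S hx
  refine ⟨S, ?_⟩
  rw [run]
  simp [h x S hx]

lemma SD.act1 {D D' : α → St → Prop} {P : α → Prop} (h : SD s C D' P) (a : Act) (ha : a.Bd s)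
    (hD : ∀ x S, D x S → D' x (a.run C S)) : SD s C D P := by
  obtain ⟨Λ, hΛ, nd, l0, t, h1, h2⟩ := h
  refine ⟨Option Λ, inferInstance, fun l => match l with
    | none => .act a (some l0)
    | some l => (nd l).map some, none, t + 1, ?_, ?_⟩
  · rintro (_ | l)
    · exact ha
    · exact (h1 l).map _
  · intro x S hx
    obtain ⟨st, hst⟩ := h2 x _ (hD x S hx)
    refine ⟨st, ?_⟩
    rw [run]
    exact (run_map C some (fun l => rfl) t l0 _).trans hst

lemma SD.acts {P : α → Prop} (w : List Act) (hw : ∀ a ∈ w, a.Bd s) :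
    ∀ {D D' : α → St → Prop}, SD s C D' P → (∀ x S, D x S → D' x (runL C w S)) →
    SD s C D P := by
  induction w with
  | nil => exact fun h hD => h.mono hD
  | cons a w ih =>
    intro D D' h hD
    have h1 : SD s C (fun x S => D' x (runL C w S)) P :=
      ih (fun b hb => hw b (by simp [hb])) h fun x S hx => hx
    exact h1.act1 a (hw a (by simp)) hD

lemma SD.cases {D : α → St → Prop} {P : α → Prop} (r : ℕ) (hr : r < s)
    (h1 : SD s C (fun x S => D x S ∧ 0 ≤ S.reg r) P)
    (h2 : SD s C (fun x S => D x S ∧ S.reg r < 0) P) : SD s C D P := by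
  obtain ⟨Λ1, hΛ1, nd1, l1, t1, h11, h12⟩ := h1
  obtain ⟨Λ2, hΛ2, nd2, l2, t2, h21, h22⟩ := h2
  refine ⟨Option (Λ1 ⊕ Λ2), inferInstance, fun l => match l with
    | none => .branch r (some (Sum.inl l1)) (some (Sum.inr l2))
    | some (Sum.inl l) => (nd1 l).map (fun l => some (Sum.inl l))
    | some (Sum.inr l) => (nd2 l).map (fun l => some (Sum.inr l)), none, max t1 t2 + 1, ?_, ?_⟩
  · rintro (_ | l | l)
    · exact hr
    · exact (h11 l).map _
    · exact (h21 l).map _
  · intro x S hx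
    by_cases h : 0 ≤ S.reg r
    · obtain ⟨st, hst⟩ := h12 x S ⟨hx, h⟩
      refine ⟨st, ?_⟩
      rw [run]
      simp only [if_pos h]
      exact (run_map C (fun l => some (Sum.inl l)) (fun l => rfl) _ l1 S).trans
        (run_mono' _ _ hst (le_max_left _ _))
    · obtain ⟨st, hst⟩ := h22 x S ⟨hx, not_le.1 h⟩
      refine ⟨st, ?_⟩
      rw [run]
      simp only [if_neg h]
      exact (run_map C (fun l => some (Sum.inr l)) (fun l => rfl) _ l2 S).trans
        (run_mono' _ _ hst (le_max_right _ _))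

end SD

/-- load `reg r := mem a` -/
def lda (r a : ℕ) : List Act := Act.zero 0 :: (List.replicate a (Act.inc 0) ++ [Act.load r 0])

/-- store `mem a := reg r` -/
def sta (a r : ℕ) : List Act := Act.zero 0 :: (List.replicate a (Act.inc 0) ++ [Act.store 0 r])

lemma runL_incs (C : List ℝ) (a : ℕ) : ∀ S : St, runL C (List.replicate a (Act.inc 0)) S =
    ⟨S.reg, Function.update S.idx 0 (S.idx 0 + a), S.mem⟩ := by
  induction a with
  | zero =>
    intro S
    rw [List.replicate_zero, runL_nil, Nat.add_zero, Function.update_eq_self]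
  | succ a ih =>
    intro S
    rw [List.replicate_succ, runL_cons, ih]
    simp only [Act.run, Function.update_self, Function.update_idem]
    rw [show S.idx 0 + 1 + a = S.idx 0 + (a + 1) by omega]

lemma lda_reg (C : List ℝ) (r a : ℕ) (S : St) :
    (runL C (lda r a) S).reg = Function.update S.reg r (S.mem a) := by
  rw [lda, runL_cons, runL_append, runL_incs]
  simp [Act.run, runL]

lemma lda_mem (C : List ℝ) (r a : ℕ) (S : St) : (runL C (lda r a) S).mem = S.mem := by
  rw [lda, runL_cons, runL_append, runL_incs]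
  simp [Act.run, runL]

lemma sta_mem (C : List ℝ) (r a : ℕ) (S : St) :
    (runL C (sta a r) S).mem = Function.update S.mem a (S.reg r) := by
  rw [sta, runL_cons, runL_append, runL_incs]
  simp [Act.run, runL]

lemma lda_bd {s : ℕ} (r a : ℕ) (hr : r < s) : ∀ x ∈ lda r a, x.Bd s := by
  intro x hx
  simp only [lda, List.mem_cons, List.mem_append, List.mem_replicate, List.not_mem_nil,
    or_false] at hx
  rcases hx with rfl | ⟨_, rfl⟩ | rfl
  · exact (Nat.zero_le r).trans_lt hr
  · exact (Nat.zero_le r).trans_lt hr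
  · exact ⟨hr, (Nat.zero_le r).trans_lt hr⟩

lemma sta_bd {s : ℕ} (a r : ℕ) (hr : r < s) : ∀ x ∈ sta a r, x.Bd s := by
  intro x hx
  simp only [sta, List.mem_cons, List.mem_append, List.mem_replicate, List.not_mem_nil,
    or_false] at hx
  rcases hx with rfl | ⟨_, rfl⟩ | rfl
  · exact (Nat.zero_le r).trans_lt hr
  · exact (Nat.zero_le r).trans_lt hr
  · exact ⟨(Nat.zero_le r).trans_lt hr, hr⟩

/-- functions computable by straight line programs from the input in the array -/
def Calc (s : ℕ) (C : List ℝ) (m : ℕ) (f : (Fin m → ℝ) → ℝ) : Prop :=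
  ∀ k : ℕ, ∃ w : List Act, (∀ a ∈ w, a.Bd s) ∧ ∀ (S : St) (x : Fin m → ℝ),
    (∀ i : Fin m, S.mem i = x i) → (runL C w S).mem (m + k) = f x ∧
      ∀ i < m + k, (runL C w S).mem i = S.mem i

section Calc

variable {s m : ℕ} {C : List ℝ}

lemma Calc.cst (i : ℕ) (hi : i < s) : Calc s C m (fun _ => C.getD i 0) := by
  intro k
  have hs : 0 < s := by omega
  refine ⟨Act.const 0 i :: sta (m + k) 0, ?_, fun S x _ => ?_⟩
  · intro a ha
    rcases List.mem_cons.1 ha with rfl | ha
    · exact ⟨hs, hi⟩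
    · exact sta_bd _ _ hs a ha
  · rw [runL_cons, sta_mem]
    refine ⟨by simp [Act.run], fun i hi => ?_⟩
    rw [Function.update_of_ne (by omega)]
    rfl

lemma Calc.coord (hs : 0 < s) (i : Fin m) : Calc s C m (fun x => x i) := by
  intro k
  refine ⟨lda 0 i ++ sta (m + k) 0, ?_, fun S x hx => ?_⟩
  · intro a ha
    rcases List.mem_append.1 ha with ha | ha
    · exact lda_bd _ _ hs a ha
    · exact sta_bd _ _ hs a ha
  · rw [runL_append, sta_mem, lda_mem, lda_reg]
    refine ⟨by simp [hx i], fun j hj => ?_⟩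
    rw [Function.update_of_ne (by omega)]

lemma Calc.binop {f g : (Fin m → ℝ) → ℝ} (hs : 1 < s) (hf : Calc s C m f) (hg : Calc s C m g)
    (o : Act) (op : ℝ → ℝ → ℝ) (ho : o.Bd s)
    (hop : ∀ S : St, (o.run C S).reg 0 = op (S.reg 0) (S.reg 1) ∧ (o.run C S).mem = S.mem) :
    Calc s C m (fun x => op (f x) (g x)) := by
  intro k
  obtain ⟨w1, hw1, h1⟩ := hf k
  obtain ⟨w2, hw2, h2⟩ := hg (k + 1)
  refine ⟨w1 ++ (w2 ++ (lda 0 (m + k) ++ (lda 1 (m + (k + 1)) ++ (o :: sta (m + k) 0)))), ?_,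
    fun S x hx => ?_⟩
  · intro a ha
    simp only [List.mem_append, List.mem_cons] at ha
    rcases ha with ha | ha | ha | ha | rfl | ha
    · exact hw1 a ha
    · exact hw2 a ha
    · exact lda_bd _ _ (by omega) a ha
    · exact lda_bd _ _ (by omega) a ha
    · exact ho
    · exact sta_bd _ _ (by omega) a ha
  · rw [runL_append, runL_append, runL_append, runL_append, runL_cons]
    set S1 := runL C w1 S with hS1
    obtain ⟨e1, e2⟩ := h1 S x hx
    rw [← hS1] at e1 e2
    have hx1 : ∀ i : Fin m, S1.mem i = x i := fun i => by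
      rw [e2 i (by have := i.2; omega)]; exact hx i
    set S2 := runL C w2 S1 with hS2
    obtain ⟨e3, e4⟩ := h2 S1 x hx1
    rw [← hS2] at e3 e4
    set S3 := runL C (lda 0 (m + k)) S2 with hS3
    have e5 : S3.mem = S2.mem := lda_mem _ _ _ _
    have e6 : S3.reg = Function.update S2.reg 0 (S2.mem (m + k)) := lda_reg _ _ _ _
    set S4 := runL C (lda 1 (m + (k + 1))) S3 with hS4
    have e7 : S4.mem = S3.mem := lda_mem _ _ _ _
    have e8 : S4.reg = Function.update S3.reg 1 (S3.mem (m + (k + 1))) := lda_reg _ _ _ _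
    rw [sta_mem, (hop S4).1, (hop S4).2]
    constructor
    · rw [Function.update_self, e8, Function.update_self,
        Function.update_of_ne (by omega : (0 : ℕ) ≠ 1), e6, Function.update_self, e5, e3,
        e4 _ (by omega), e1]
    · intro i hi
      rw [Function.update_of_ne (by omega), e7, e5, e4 i (by omega), e2 i hi]

lemma Calc.add {f g : (Fin m → ℝ) → ℝ} (hs : 1 < s) (hf : Calc s C m f) (hg : Calc s C m g) :
    Calc s C m (fun x => f x + g x) :=
  Calc.binop hs hf hg (.add 0 0 1) (· + ·) ⟨by omega, by omega, by omega⟩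
    fun S => ⟨by simp [Act.run], rfl⟩

lemma Calc.sub {f g : (Fin m → ℝ) → ℝ} (hs : 1 < s) (hf : Calc s C m f) (hg : Calc s C m g) :
    Calc s C m (fun x => f x - g x) :=
  Calc.binop hs hf hg (.sub 0 0 1) (· - ·) ⟨by omega, by omega, by omega⟩
    fun S => ⟨by simp [Act.run], rfl⟩

lemma Calc.mul {f g : (Fin m → ℝ) → ℝ} (hs : 1 < s) (hf : Calc s C m f) (hg : Calc s C m g) :
    Calc s C m (fun x => f x * g x) :=
  Calc.binop hs hf hg (.mul 0 0 1) (· * ·) ⟨by omega, by omega, by omega⟩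
    fun S => ⟨by simp [Act.run], rfl⟩

lemma Calc.div {f g : (Fin m → ℝ) → ℝ} (hs : 1 < s) (hf : Calc s C m f) (hg : Calc s C m g) :
    Calc s C m (fun x => f x / g x) :=
  Calc.binop hs hf hg (.div 0 0 1) (· / ·) ⟨by omega, by omega, by omega⟩
    fun S => ⟨by simp [Act.run], rfl⟩

lemma Calc.nat (hs : 1 < s) (h1 : Calc s C m (fun _ => 1)) (n : ℕ) :
    Calc s C m (fun _ => (n : ℝ)) := by
  induction n with
  | zero =>
    have := h1.sub hs h1
    simpa using this
  | succ n ih =>
    have := ih.add hs h1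
    simpa using this

lemma Calc.rat (hs : 1 < s) (h1 : Calc s C m (fun _ => 1)) (q : ℚ) :
    Calc s C m (fun _ => (q : ℝ)) := by
  have hint : ∀ z : ℤ, Calc s C m (fun _ => (z : ℝ)) := by
    intro z
    cases z with
    | ofNat n => simpa using Calc.nat hs h1 n
    | negSucc n =>
      have := ((Calc.nat hs h1 0).sub hs (Calc.nat hs h1 (n + 1)))
      refine cast (congrArg _ ?_) this
      funext _
      push_cast
      ring
  have := (hint q.num).div hs (Calc.nat hs h1 q.den)
  refine cast (congrArg _ ?_) this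
  funext _
  exact (Rat.cast_def q).symm

/-- polynomials in the constants and the input -/
lemma Calc.poly {s' : ℕ} {w0 : Fin s' → ℝ} (hs : 1 < s) (h1 : Calc s C m (fun _ => 1))
    (hw : ∀ i, Calc s C m (fun _ => w0 i)) (q : MvPolynomial (Fin s' ⊕ Fin m) ℚ) :
    Calc s C m (fun x => MvPolynomial.aeval (Sum.elim w0 x) q) := by
  induction q using MvPolynomial.induction_on with
  | C a => simpa using Calc.rat hs h1 a
  | add p q hp hq =>
    simp only [map_add]
    exact hp.add hs hq
  | mul_X p i hp =>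
    simp only [map_mul, MvPolynomial.aeval_X]
    rcases i with i | i
    · exact hp.mul hs (hw i)
    · exact hp.mul hs (Calc.coord (by omega) i)

end Calc

/-- the input is in the array -/
def D0 (m : ℕ) (x : Fin m → ℝ) (S : St) : Prop := ∀ i : Fin m, S.mem i = x i

lemma SD.by_sign {s m : ℕ} {C : List ℝ} {P : (Fin m → ℝ) → Prop} {A : (Fin m → ℝ) → Prop}
    {f : (Fin m → ℝ) → ℝ} (hs : 1 < s) (hf : Calc s C m f)
    (h1 : SD s C (fun x S => D0 m x S ∧ A x ∧ 0 ≤ f x) P)
    (h2 : SD s C (fun x S => D0 m x S ∧ A x ∧ f x < 0) P) :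
    SD s C (fun x S => D0 m x S ∧ A x) P := by
  obtain ⟨w, hw, hwf⟩ := hf 0
  have h3 : SD s C (fun x S => (D0 m x S ∧ A x) ∧ S.reg 0 = f x) P := by
    refine SD.cases 0 (by omega) (h1.mono ?_) (h2.mono ?_)
    · rintro x S ⟨⟨⟨h4, h5⟩, h6⟩, h7⟩
      exact ⟨h4, h5, h6 ▸ h7⟩
    · rintro x S ⟨⟨⟨h4, h5⟩, h6⟩, h7⟩
      exact ⟨h4, h5, h6 ▸ h7⟩
  refine SD.acts (w ++ lda 0 (m + 0)) ?_ h3 ?_
  · intro a ha
    rcases List.mem_append.1 ha with ha | ha
    · exact hw a ha
    · exact lda_bd _ _ (by omega) a ha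
  · rintro x S ⟨h4, h5⟩
    obtain ⟨h6, h7⟩ := hwf S x h4
    rw [runL_append]
    refine ⟨⟨fun i => ?_, h5⟩, ?_⟩
    · rw [lda_mem, h7 i (by have := i.2; omega)]
      exact h4 i
    · rw [lda_reg, Function.update_self, h6]

/-- semialgebraic problems in fixed dimension -/
theorem brute {X : List ℝ → Prop} {s' : ℕ} {w0 : Fin s' → ℝ} (hX : Tame X s' w0) {s : ℕ}
    {C : List ℝ} (hs : 1 < s) (h1 : ∃ i < s, C.getD i 0 = 1)
    (hw : ∀ i : Fin s', ∃ j < s, C.getD j 0 = w0 i) {m : ℕ} (hm : 1 ≤ m) :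
    SD s C (D0 m) (fun x => X (List.ofFn x)) := by
  obtain ⟨p, hp, hXp⟩ := hX m hm
  obtain ⟨Q, hQ⟩ := SA.iff hp
  have c1 : Calc s C m (fun _ => 1) := by
    obtain ⟨i, hi, h⟩ := h1
    rw [← h]
    exact Calc.cst i hi
  have cw : ∀ i, Calc s C m (fun _ => w0 i) := by
    intro i
    obtain ⟨j, hj, h⟩ := hw i
    rw [← h]
    exact Calc.cst j hj
  let F : MvPolynomial (Fin s' ⊕ Fin m) ℚ → (Fin m → ℝ) → ℝ := fun q x =>
    MvPolynomial.aeval (Sum.elim w0 x) q
  have key : ∀ (L : List (MvPolynomial (Fin s' ⊕ Fin m) ℚ)) (A : (Fin m → ℝ) → Prop),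
      (∀ x y, A x → A y → (∀ q ∈ L, SignType.sign (F q x) = SignType.sign (F q y)) →
        (X (List.ofFn x) ↔ X (List.ofFn y))) →
      SD s C (fun x S => D0 m x S ∧ A x) (fun x => X (List.ofFn x)) := by
    intro L
    induction L with
    | nil =>
      intro A hA
      refine SD.const (∃ y, A y ∧ X (List.ofFn y)) ?_
      rintro x S ⟨_, hx⟩
      constructor
      · exact fun h => ⟨x, hx, h⟩
      · rintro ⟨y, hy, h⟩
        exact (hA y x hy hx (by simp)).1 h
    | cons q L ih =>
      intro A hA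
      have hpoly : Calc s C m (F q) := Calc.poly hs c1 cw q
      have hneg : Calc s C m (fun x => 0 - F q x) := by
        have := (Calc.nat hs c1 0).sub hs hpoly
        simpa using this
      have hsub : ∀ (σ : SignType) (A' : (Fin m → ℝ) → Prop),
          (∀ x, A' x → A x ∧ SignType.sign (F q x) = σ) →
          SD s C (fun x S => D0 m x S ∧ A' x) (fun x => X (List.ofFn x)) := by
        intro σ A' hA'
        refine ih A' fun x y hx hy hxy => hA x y (hA' x hx).1 (hA' y hy).1 ?_
        intro q' hq'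
        rcases List.mem_cons.1 hq' with rfl | hq'
        · rw [(hA' x hx).2, (hA' y hy).2]
        · exact hxy q' hq'
      refine SD.by_sign hs hpoly (SD.by_sign hs hneg (hsub 0 _ ?_) (hsub 1 _ ?_)) (hsub (-1) _ ?_)
      · rintro x ⟨⟨h2, h3⟩, h4⟩
        refine ⟨h2, sign_eq_zero_iff.2 (le_antisymm ?_ h3)⟩
        linarith
      · rintro x ⟨⟨h2, h3⟩, h4⟩
        refine ⟨h2, sign_eq_one_iff.2 ?_⟩
        linarith
      · rintro x ⟨h2, h3⟩
        exact ⟨h2, sign_eq_neg_one_iff.2 h3⟩
  refine (key Q.toList (fun _ => True) ?_).mono fun x S h => ⟨h, trivial⟩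
  intro x y _ _ hxy
  rw [hXp, hXp]
  exact hQ _ _ fun q hq => hxy q (Finset.mem_toList.2 hq)

end Pool.Agent.H581R2
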