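import Pool.Agent.H581R2.Brute

/-!
# Composition of a reduction with a table of programs for small lengths
-/

namespace Pool.Agent.H581R2

open Classical

/-- as `SD`, with bounds on the number of nodes and on the time -/
def SDn {α : Type} (s : ℕ) (C : List ℝ) (D : α → St → Prop) (P : α → Prop) (N t : ℕ) : Prop :=
  ∃ (Λ : Type) (_ : Finite Λ) (nd : Λ → Node Λ) (l0 : Λ), Nat.card Λ ≤ N ∧ (∀ l, (nd l).Bd s) ∧
    ∀ x S, D x S → ∃ st, run C nd t l0 S = some (decide (P x), st)

section SDn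

variable {α : Type} {s : ℕ} {C : List ℝ}

lemma SD.toSDn {D : α → St → Prop} {P : α → Prop} (h : SD s C D P) :
    ∃ N t, SDn s C D P N t := by
  obtain ⟨Λ, hΛ, nd, l0, t, h1, h2⟩ := h
  exact ⟨Nat.card Λ, t, Λ, hΛ, nd, l0, le_rfl, h1, h2⟩

lemma SDn.mono {D D' : α → St → Prop} {P P' : α → Prop} {N t N' t' : ℕ}
    (h : SDn s C D' P' N t) (hD : ∀ x S, D x S → D' x S) (hP : ∀ x S, D x S → (P x ↔ P' x))
    (hN : N ≤ N') (ht : t ≤ t') : SDn s C D P N' t' := by
  obtain ⟨Λ, hΛ, nd, l0, h0, h1, h2⟩ := h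
  refine ⟨Λ, hΛ, nd, l0, h0.trans hN, h1, fun x S hx => ?_⟩
  obtain ⟨st, hst⟩ := h2 x S (hD x S hx)
  refine ⟨st, ?_⟩
  have : decide (P x) = decide (P' x) := by
    simp [hP x S hx]
  rw [this]
  exact run_mono' _ _ hst ht

lemma SDn.bd_mono {s' : ℕ} {D : α → St → Prop} {P : α → Prop} {N t : ℕ}
    (h : SDn s C D P N t) (hs : s ≤ s') : SDn s' C D P N t := by
  obtain ⟨Λ, hΛ, nd, l0, h0, h1, h2⟩ := h
  exact ⟨Λ, hΛ, nd, l0, h0, fun l => (h1 l).mono hs, h2⟩

lemma SDn.const {D : α → St → Prop} {P : α → Prop} (b : Prop) (h : ∀ x S, D x S → (P x ↔ b)) :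
    SDn s C D P 1 1 := by
  refine ⟨Unit, inferInstance, fun _ => .halt (decide b), (), by simp, fun _ => trivial, ?_⟩
  intro x S hx
  refine ⟨S, ?_⟩
  rw [run]
  simp [h x S hx]

lemma SDn.act1 {D D' : α → St → Prop} {P : α → Prop} {N t : ℕ} (h : SDn s C D' P N t) (a : Act)
    (ha : a.Bd s) (hD : ∀ x S, D x S → D' x (a.run C S)) : SDn s C D P (N + 1) (t + 1) := by
  obtain ⟨Λ, hΛ, nd, l0, h0, h1, h2⟩ := h
  refine ⟨Option Λ, inferInstance, fun l => match l with
    | none => .act a (some l0)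
    | some l => (nd l).map some, none, ?_, ?_, ?_⟩
  · rw [Finite.card_option]
    omega
  · rintro (_ | l)
    · exact ha
    · exact (h1 l).map _
  · intro x S hx
    obtain ⟨st, hst⟩ := h2 x _ (hD x S hx)
    refine ⟨st, ?_⟩
    rw [run]
    exact (run_map C some (fun l => rfl) t l0 _).trans hst

lemma SDn.cases {D : α → St → Prop} {P : α → Prop} {N1 N2 t1 t2 : ℕ} (r : ℕ) (hr : r < s)
    (h1 : SDn s C (fun x S => D x S ∧ 0 ≤ S.reg r) P N1 t1)
    (h2 : SDn s C (fun x S => D x S ∧ S.reg r < 0) P N2 t2) :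
    SDn s C D P (N1 + N2 + 1) (max t1 t2 + 1) := by
  obtain ⟨Λ1, hΛ1, nd1, l1, h10, h11, h12⟩ := h1
  obtain ⟨Λ2, hΛ2, nd2, l2, h20, h21, h22⟩ := h2
  refine ⟨Option (Λ1 ⊕ Λ2), inferInstance, fun l => match l with
    | none => .branch r (some (Sum.inl l1)) (some (Sum.inr l2))
    | some (Sum.inl l) => (nd1 l).map (fun l => some (Sum.inl l))
    | some (Sum.inr l) => (nd2 l).map (fun l => some (Sum.inr l)), none, ?_, ?_, ?_⟩
  · rw [Finite.card_option, Nat.card_sum]
    omega
  · rintro (_ | l | l)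
    · exact hr
    · exact (h11 l).map _
    · exact (h21 l).map _
  · intro x S hx
    by_cases h : 0 ≤ S.reg r
    · obtain ⟨st, hst⟩ := h12 x S ⟨hx, h⟩
      refine ⟨st, ?_⟩
      rw [run]
      simp only [if_pos h]
      exact (run_map C (fun l => some (Sum.inl l)) (fun l => rfl) _ l1 S).trans
        (run_mono' _ _ hst (le_max_left _ _))
    · obtain ⟨st, hst⟩ := h22 x S ⟨hx, not_le.1 h⟩
      refine ⟨st, ?_⟩
      rw [run]
      simp only [if_neg h]
      exact (run_map C (fun l => some (Sum.inr l)) (fun l => rfl) _ l2 S).trans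
        (run_mono' _ _ hst (le_max_right _ _))

/-- first run a program, then (with `a` in between) a second one -/
lemma SDn.seq {Λ1 : Type} [Finite Λ1] {nd1 : Λ1 → Node Λ1} {l1 : Λ1} {D D' : α → St → Prop}
    {P : α → Prop} {N t t1 : ℕ} (h : SDn s C D' P N t) (a : Act) (ha : a.Bd s)
    (hbd : ∀ l, (nd1 l).Bd s)
    (h1 : ∀ x S, D x S → ∃ b st, run C nd1 t1 l1 S = some (b, st) ∧ D' x (a.run C st)) :
    SDn s C D P (Nat.card Λ1 + N) (t1 + t) := by
  obtain ⟨Λ2, hΛ2, nd2, l2, h20, h21, h22⟩ := h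
  let ndc : Λ1 ⊕ Λ2 → Node (Λ1 ⊕ Λ2) := fun l => match l with
    | Sum.inl l => match nd1 l with
      | .halt _ => .act a (Sum.inr l2)
      | .act x l' => .act x (Sum.inl l')
      | .branch r y n => .branch r (Sum.inl y) (Sum.inl n)
    | Sum.inr l => (nd2 l).map Sum.inr
  have hrun : ∀ (t1 : ℕ) (l : Λ1) (S : St) (b : Bool) (st : St) (r : Bool × St),
      run C nd1 t1 l S = some (b, st) → run C nd2 t l2 (a.run C st) = some r →
      run C ndc (t1 + t) (Sum.inl l) S = some r := by
    intro t1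
    induction t1 with
    | zero => intro l S b st r h; simp [run] at h
    | succ t1 ih =>
      intro l S b st r h h'
      rw [show t1 + 1 + t = (t1 + t) + 1 by omega, run]
      rw [run] at h
      cases hl : nd1 l with
      | halt b' =>
        rw [hl] at h
        simp only [Option.some.injEq, Prod.mk.injEq] at h
        obtain ⟨rfl, rfl⟩ := h
        simp only [ndc, hl]
        have := (run_map C Sum.inr (nd' := ndc) (fun l => rfl) t l2 (a.run C S)).trans h'
        exact run_mono' _ _ this (by omega)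
      | act x l' =>
        rw [hl] at h
        simp only [ndc, hl]
        exact ih l' _ b st r h h'
      | branch k y n =>
        rw [hl] at h
        simp only [ndc, hl]
        rw [← apply_ite Sum.inl]
        exact ih _ _ b st r h h'
  refine ⟨Λ1 ⊕ Λ2, inferInstance, ndc, Sum.inl l1, ?_, ?_, ?_⟩
  · rw [Nat.card_sum]
    omega
  · rintro (l | l)
    · have := hbd l
      cases hl : nd1 l with
      | halt b' => simp only [ndc, hl]; exact ha
      | act x l' => simp only [ndc, hl]; rw [hl] at this; exact this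
      | branch k y n => simp only [ndc, hl]; rw [hl] at this; exact this
    · exact (h21 l).map _
  · intro x S hx
    obtain ⟨b, st, h3, h4⟩ := h1 x S hx
    obtain ⟨st', h5⟩ := h22 x _ h4
    exact ⟨st', hrun t1 l1 S b st _ h3 h5⟩

end SDn

/-- shift of the indices of the constants -/
def Act.sh (k : ℕ) : Act → Act
  | .const r i => .const r (i + k)
  | a => a

/-- shift of the indices of the constants -/
def Node.sh {Λ : Type} (k : ℕ) : Node Λ → Node Λ
  | .act a l => .act (a.sh k) l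
  | n => n

lemma Act.sh_bd {s k : ℕ} {a : Act} (h : a.Bd s) : (a.sh k).Bd (s + k) := by
  cases a <;> simp only [Act.Bd, Act.sh] at h ⊢ <;> omega

lemma Node.sh_bd {Λ : Type} {s k : ℕ} {a : Node Λ} (h : a.Bd s) : (a.sh k).Bd (s + k) := by
  cases a with
  | act a l => exact Act.sh_bd h
  | branch r y n => exact lt_of_lt_of_le (show r < s from h) (Nat.le_add_right s k)
  | halt b => trivial

lemma Act.sh_run {s k : ℕ} {a : Act} (h : a.Bd s) {c c' : List ℝ}
    (hc : ∀ i < s, c'.getD (i + k) 0 = c.getD i 0) (S : St) : (a.sh k).run c' S = a.run c S := by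
  cases a with
  | const r i => simp only [Act.sh, Act.run, hc i h.2]
  | _ => rfl

lemma run_sh {Λ : Type} {s k : ℕ} {nd : Λ → Node Λ} (h : ∀ l, (nd l).Bd s) {c c' : List ℝ}
    (hc : ∀ i < s, c'.getD (i + k) 0 = c.getD i 0) (t : ℕ) : ∀ (l : Λ) (S : St),
      run c' (fun l => (nd l).sh k) t l S = run c nd t l S := by
  induction t with
  | zero => exact fun _ _ => rfl
  | succ t ih =>
    intro l S
    rw [run, run]
    have := h l
    cases hl : nd l with
    | act a l' =>
      rw [hl] at this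
      simp only [Node.sh]
      rw [Act.sh_run this hc]
      exact ih _ _
    | branch r y n =>
      simp only [Node.sh]
      exact ih _ _
    | halt b => rfl

lemma act_sh_zero (a : Act) : a.sh 0 = a := by
  cases a <;> rfl

lemma node_sh_zero {Λ : Type} (a : Node Λ) : a.sh 0 = a := by
  cases a with
  | act a l => simp [Node.sh, act_sh_zero]
  | _ => rfl

/-- only the constants with small indices matter -/
lemma run_consts {Λ : Type} {s : ℕ} {nd : Λ → Node Λ} (h : ∀ l, (nd l).Bd s) {c c' : List ℝ}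
    (hc : ∀ i < s, c'.getD i 0 = c.getD i 0) (t : ℕ) (l : Λ) (S : St) :
    run c' nd t l S = run c nd t l S := by
  have := run_sh (k := 0) h hc t l S
  simpa [node_sh_zero] using this

lemma SDn.sh {α : Type} {s k : ℕ} {c c' : List ℝ} {D : α → St → Prop} {P : α → Prop} {N t : ℕ}
    (h : SDn s c D P N t) (hc : ∀ i < s, c'.getD (i + k) 0 = c.getD i 0) :
    SDn (s + k) c' D P N t := by
  obtain ⟨Λ, hΛ, nd, l0, h0, h1, h2⟩ := h
  refine ⟨Λ, hΛ, fun l => (nd l).sh k, l0, h0, fun l => Node.sh_bd (h1 l), fun x S hx => ?_⟩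
  obtain ⟨st, hst⟩ := h2 x S hx
  exact ⟨st, by rw [run_sh h1 hc]; exact hst⟩

lemma Act.exists_bd (a : Act) : ∃ s, a.Bd s := by
  cases a with
  | const r i => exact ⟨r + i + 1, by simp only [Act.Bd]; omega⟩
  | add r a b => exact ⟨r + a + b + 1, by simp only [Act.Bd]; omega⟩
  | sub r a b => exact ⟨r + a + b + 1, by simp only [Act.Bd]; omega⟩
  | mul r a b => exact ⟨r + a + b + 1, by simp only [Act.Bd]; omega⟩
  | div r a b => exact ⟨r + a + b + 1, by simp only [Act.Bd]; omega⟩
  | load r i => exact ⟨r + i + 1, by simp only [Act.Bd]; omega⟩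
  | store r i => exact ⟨r + i + 1, by simp only [Act.Bd]; omega⟩
  | zero i => exact ⟨i + 1, by simp only [Act.Bd]; omega⟩
  | inc i => exact ⟨i + 1, by simp only [Act.Bd]; omega⟩

lemma Node.exists_bd {Λ : Type} (a : Node Λ) : ∃ s, a.Bd s := by
  cases a with
  | act a l => exact a.exists_bd
  | branch r y n => exact ⟨r + 1, Nat.lt_succ_self r⟩
  | halt b => exact ⟨0, trivial⟩

lemma exists_bd_all {Λ : Type} [Finite Λ] (nd : Λ → Node Λ) : ∃ s, ∀ l, (nd l).Bd s := by
  have := Fintype.ofFinite Λ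
  choose s hs using fun l => (nd l).exists_bd
  exact ⟨Finset.univ.sup s, fun l => (hs l).mono (Finset.le_sup (Finset.mem_univ l))⟩

lemma SDn.comap {α β : Type} {s : ℕ} {C : List ℝ} {D' : β → St → Prop} {P' : β → Prop}
    {N t : ℕ} (h : SDn s C D' P' N t) {D : α → St → Prop} {P : α → Prop} (g : α → β)
    (hD : ∀ x S, D x S → D' (g x) S) (hP : ∀ x S, D x S → (P x ↔ P' (g x))) :
    SDn s C D P N t := by
  obtain ⟨Λ, hΛ, nd, l0, h0, h1, h2⟩ := h
  refine ⟨Λ, hΛ, nd, l0, h0, h1, fun x S hx => ?_⟩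
  obtain ⟨st, hst⟩ := h2 (g x) S (hD x S hx)
  refine ⟨st, ?_⟩
  have : decide (P x) = decide (P' (g x)) := by
    simp [hP x S hx]
  rw [this]
  exact hst

/-- contents waiting for the dispatcher -/
def DK {α : Type} (y : α → List ℝ) (k : ℕ) (x : α) (S : St) : Prop :=
  S.reg 0 = ((y x).length : ℝ) - k ∧ k ≤ (y x).length ∧ S.reg 1 = 1 ∧
    ∀ i < (y x).length, S.mem i = (y x).getD i 0

/-- look up the length, then use the table of programs -/
lemma dispatch {α : Type} {s : ℕ} {C : List ℝ} (hs : 1 < s) (y : α → List ℝ) (X : List ℝ → Prop)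
    (E : Set ℕ) (K : ℕ) (Bn Bt : ℕ → ℕ)
    (hB : ∀ m, 1 ≤ m → m < K → SDn s C (D0 m) (fun x => X (List.ofFn x)) (Bn m) (Bt m)) :
    ∀ j k, k + j = K → SDn s C (DK y k)
      (fun x => (y x).length ∈ E ∧ (y x).length < K ∧ 1 ≤ (y x).length ∧ X (y x))
      (1 + ∑ m ∈ Finset.Ico k K, (Bn m + 3)) (1 + ∑ m ∈ Finset.Ico k K, (Bt m + 3)) := by
  intro j
  induction j with
  | zero =>
    intro k hk
    refine (SDn.const (s := s) (C := C) (D := DK y k) False ?_).mono (fun x S h => h)
      (fun x S h => Iff.rfl) (by omega) (by omega)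
    rintro x S ⟨_, h2, _, _⟩
    simp only [iff_false]
    rintro ⟨_, h3, _⟩
    omega
  | succ j ih =>
    intro k hk
    have ih' := ih (k + 1) (by omega)
    -- the case where the length is `k`
    have hB' : SDn s C (fun x S => (y x).length = k ∧ ∀ i < (y x).length, S.mem i = (y x).getD i 0)
        (fun x => (y x).length ∈ E ∧ (y x).length < K ∧ 1 ≤ (y x).length ∧ X (y x))
        (Bn k + 1) (Bt k + 1) := by
      by_cases hk1 : 1 ≤ k ∧ k ∈ E
      · refine ((hB k hk1.1 (by omega)).comap (fun x => fun i : Fin k => (y x).getD i 0)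
          (fun x S h i => ?_) (fun x S h => ?_)).mono (fun x S h => h) (fun x S h => Iff.rfl)
          (by omega) (by omega)
        · exact h.2 i (by rw [h.1]; exact i.2)
        · have e : (List.ofFn fun i : Fin k => (y x).getD i 0) = y x := by
            apply List.ext_get
            · simp [h.1]
            · intro i h1 h2
              simp [h2]
          rw [e, h.1]
          constructor
          · exact fun h' => h'.2.2.2
          · exact fun h' => ⟨hk1.2, by omega, hk1.1, h'⟩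
      · refine (SDn.const (s := s) (C := C) False ?_).mono (fun x S h => h)
          (fun x S h => Iff.rfl) (by omega) (by omega)
        rintro x S ⟨h1, _⟩
        simp only [iff_false]
        rintro ⟨h2, _, h3, _⟩
        rw [h1] at h2 h3
        exact hk1 ⟨h3, h2⟩
    have hcases : SDn s C (fun x S => S.reg 0 = ((y x).length : ℝ) - k - 1 ∧ k ≤ (y x).length ∧
        S.reg 1 = 1 ∧ ∀ i < (y x).length, S.mem i = (y x).getD i 0)
        (fun x => (y x).length ∈ E ∧ (y x).length < K ∧ 1 ≤ (y x).length ∧ X (y x))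
        ((1 + ∑ m ∈ Finset.Ico (k + 1) K, (Bn m + 3)) + (Bn k + 1) + 1)
        (max (1 + ∑ m ∈ Finset.Ico (k + 1) K, (Bt m + 3)) (Bt k + 1) + 1) := by
      refine SDn.cases 0 (by omega) (ih'.mono ?_ (fun x S h => Iff.rfl) le_rfl le_rfl)
        (hB'.mono ?_ (fun x S h => Iff.rfl) le_rfl le_rfl)
      · rintro x S ⟨⟨h1, h2, h3, h4⟩, h5⟩
        refine ⟨by rw [h1]; push_cast; ring, ?_, h3, h4⟩
        rw [h1] at h5
        have : ((k + 1 : ℕ) : ℝ) ≤ ((y x).length : ℝ) := by push_cast; linarith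
        exact_mod_cast this
      · rintro x S ⟨⟨h1, h2, h3, h4⟩, h5⟩
        refine ⟨?_, h4⟩
        rw [h1] at h5
        have : ((y x).length : ℝ) < ((k + 1 : ℕ) : ℝ) := by push_cast; linarith
        have := Nat.cast_lt.1 this
        omega
    have hact := hcases.act1 (D := DK y k) (.sub 0 0 1) ⟨by omega, by omega, by omega⟩ (by
      rintro x S ⟨h1, h2, h3, h4⟩
      refine ⟨?_, h2, ?_, h4⟩
      · simp [Act.run, h1, h3]
      · simp [Act.run, h3])
    refine hact.mono (fun x S h => h) (fun x S h => Iff.rfl) ?_ ?_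
    · rw [Finset.sum_eq_sum_Ico_succ_bot (show k < K by omega)]
      omega
    · rw [Finset.sum_eq_sum_Ico_succ_bot (show k < K by omega)]
      omega

/-- numbers of nodes become `Sol` -/
lemma SDn.toSol {X : List ℝ → Prop} {s n p N t : ℕ} {c : List ℝ}
    (h : SDn s c (fun (x : Fin n → ℝ) S => S = initSt (List.ofFn x))
      (fun x => X (List.ofFn x)) N t) (hN : N + 1 ≤ (n + 2) ^ p) (ht : t ≤ (n + 2) ^ p) :
    Sol X s p n c := by
  obtain ⟨Λ, hΛ, nd, l0, h0, h1, h2⟩ := h
  obtain ⟨nd', h3, h4⟩ := exists_fin_prog nd l0 (N := N) (by omega)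
  refine ⟨N, nd', hN, h3 s h1, fun x hx => ?_⟩
  subst hx
  obtain ⟨st, hst⟩ := h2 x.get _ rfl
  simp only [List.ofFn_get] at hst
  exact ⟨st, by rw [h4]; exact run_mono' _ _ hst ht⟩

lemma D0_init {n : ℕ} (x : Fin n → ℝ) : D0 n x (initSt (List.ofFn x)) := by
  intro i
  simp [initSt]

end Pool.Agent.H581R2
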