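import Pool.Agent.H581R2.Interp

/-!
# Nonuniform families of programs of polynomial size are run by one machine
-/

namespace Pool.Agent.H581R2

open Classical

/-- `Sol X s p n c`: some program with at most `(n+2)^p` nodes, operands `< s` and constants `c`
decides `X` on inputs of length `n` within `(n+2)^p` steps. -/
def Sol (X : List ℝ → Prop) (s p n : ℕ) (c : List ℝ) : Prop :=
  ∃ (N : ℕ) (nd : Fin (N + 1) → Node (Fin (N + 1))), N + 1 ≤ (n + 2) ^ p ∧
    (∀ l, (nd l).Bd s) ∧ ∀ x : List ℝ, x.length = n →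
      ∃ st, run c nd ((n + 2) ^ p) 0 (initSt x) = some (decide (X x), st)

lemma poly_bound (p : Polynomial ℕ) : ∃ k : ℕ, ∀ n, p.eval n ≤ (n + 2) ^ k := by
  induction p using Polynomial.induction_on' with
  | add p q hp hq =>
    obtain ⟨a, ha⟩ := hp
    obtain ⟨b, hb⟩ := hq
    refine ⟨max a b + 1, fun n => ?_⟩
    rw [Polynomial.eval_add, pow_succ]
    have h1 := (ha n).trans (Nat.pow_le_pow_right (by omega) (le_max_left a b))
    have h2 := (hb n).trans (Nat.pow_le_pow_right (by omega) (le_max_right a b))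
    nlinarith [Nat.zero_le n, Nat.zero_le ((n + 2) ^ max a b)]
  | monomial i c =>
    refine ⟨c + i, fun n => ?_⟩
    rw [Polynomial.eval_monomial, pow_add]
    refine Nat.mul_le_mul ?_ (Nat.pow_le_pow_left (by omega) i)
    calc c ≤ 2 ^ c := Nat.lt_two_pow_self.le
      _ ≤ (n + 2) ^ c := Nat.pow_le_pow_left (by omega) c

lemma body_length_le (a : Node ℕ) (m : ℕ) (h : ∀ (x : Act) l, a = .act x l → l ≤ m)
    (h2 : ∀ r y n, a = .branch r y n → y ≤ m ∧ n ≤ m) : (body a).length ≤ 2 * m + 3 := by
  cases a with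
  | act x l =>
    have := h x l rfl
    simp only [body, List.length_cons, List.length_append, List.length_replicate, List.length_nil]
    omega
  | branch r y n =>
    have := h2 r y n rfl
    simp only [body, List.length_cons, List.length_append, List.length_replicate, List.length_nil]
    omega
  | halt b => simp [body]

/-- **Families.** -/
theorem family_machine (X : List ℝ → Prop) (s p : ℕ) (c : List ℝ)
    (h : ∀ n, 1 ≤ n → Sol X s p n c) :
    ∃ (M : Machine) (q : Polynomial ℕ), ∀ x : List ℝ, x ≠ [] →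
      ∃ st, M.outcome (q.eval x.length) x = some (decide (X x), st) := by
  have h' : ∀ n, ∃ (N : ℕ) (nd : Fin (N + 1) → Node (Fin (N + 1))), 1 ≤ n →
      (N + 1 ≤ (n + 2) ^ p ∧ (∀ l, (nd l).Bd s) ∧ ∀ x : List ℝ, x.length = n →
      ∃ st, run c nd ((n + 2) ^ p) 0 (initSt x) = some (decide (X x), st)) := by
    intro n
    by_cases hn : 1 ≤ n
    · obtain ⟨N, nd, h1⟩ := h n hn
      exact ⟨N, nd, fun _ => h1⟩
    · exact ⟨0, fun _ => .halt false, fun h => absurd h hn⟩
  choose N nd hnd using h'
  have hN := fun n hn => (hnd n hn).1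
  have hbd := fun n hn => (hnd n hn).2.1
  have hrun := fun n hn => (hnd n hn).2.2
  -- the infinite program
  let f : ∀ n, Fin (N n + 1) → ℕ := fun n l => Nat.pair n l.1
  let P : ℕ → Node ℕ := fun l =>
    if hl : 1 ≤ (Nat.unpair l).1 ∧ (Nat.unpair l).2 < N (Nat.unpair l).1 + 1 then
      (nd (Nat.unpair l).1 ⟨(Nat.unpair l).2, hl.2⟩).map (f (Nat.unpair l).1)
    else .halt false
  have hPf : ∀ n, 1 ≤ n → ∀ l : Fin (N n + 1), P (f n l) = (nd n l).map (f n) := by
    intro n hn l
    have h1 : Nat.unpair (f n l) = (n, l.1) := Nat.unpair_pair _ _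
    have h2 : 1 ≤ (Nat.unpair (f n l)).1 ∧
        (Nat.unpair (f n l)).2 < N (Nat.unpair (f n l)).1 + 1 := by
      rw [h1]; exact ⟨hn, l.2⟩
    have h3 : ∀ (pr : ℕ × ℕ) (hpr : pr = (n, l.1)) (h4 : 1 ≤ pr.1 ∧ pr.2 < N pr.1 + 1),
        (nd pr.1 ⟨pr.2, h4.2⟩).map (f pr.1) = (nd n l).map (f n) := by
      rintro pr rfl h4
      rfl
    simp only [P]
    rw [dif_pos h2]
    exact h3 _ h1 h2
  have hPbd : ∀ l, (P l).Bd (max s 1) := by
    intro l
    simp only [P]
    split_ifs with hl
    · exact ((hbd _ hl.1 _).mono (le_max_left _ _)).map _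
    · trivial
  obtain ⟨M, C0, hM⟩ := interp (b := max s 1) (lt_of_lt_of_le zero_lt_one (le_max_right _ _))
    c P hPbd
  -- bounds
  let Tp : Polynomial ℕ := ((Polynomial.X + 2) ^ p + Polynomial.X + 1) ^ 2
  have hT : ∀ m, Tp.eval m = ((m + 2) ^ p + m + 1) ^ 2 := by
    intro m
    simp [Tp]
  have hTmono : ∀ {a b : ℕ}, a ≤ b → Tp.eval a ≤ Tp.eval b := by
    intro a b hab
    rw [hT, hT]
    gcongr
  have hfT : ∀ n, 1 ≤ n → ∀ l : Fin (N n + 1), f n l ≤ Tp.eval n := by
    intro n hn l
    have h1 : Nat.pair n l.1 < (max n l.1 + 1) ^ 2 := Nat.pair_lt_max_add_one_sq n l.1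
    have h2 : max n l.1 + 1 ≤ (n + 2) ^ p + n + 1 := by
      have := hN n hn
      have := l.2
      omega
    rw [hT]
    exact (h1.trans_le (Nat.pow_le_pow_left h2 2)).le
  have hbody : ∀ i, (body (P i)).length + 1 ≤ 2 * Tp.eval i + 4 := by
    intro i
    have : (body (P i)).length ≤ 2 * Tp.eval i + 3 := by
      by_cases hl : 1 ≤ (Nat.unpair i).1 ∧ (Nat.unpair i).2 < N (Nat.unpair i).1 + 1
      · have hPi : P i = (nd (Nat.unpair i).1 ⟨(Nat.unpair i).2, hl.2⟩).map
          (f (Nat.unpair i).1) := by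
          simp only [P]; rw [dif_pos hl]
        have hle : Tp.eval (Nat.unpair i).1 ≤ Tp.eval i := hTmono (Nat.unpair_left_le i)
        apply body_length_le
        · intro x l hx
          rw [hPi] at hx
          cases hnd : nd (Nat.unpair i).1 ⟨(Nat.unpair i).2, hl.2⟩ with
          | act a l' =>
            rw [hnd] at hx
            simp only [Node.map, Node.act.injEq] at hx
            rw [← hx.2]
            exact (hfT _ hl.1 l').trans hle
          | branch r y n => rw [hnd] at hx; simp [Node.map] at hx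
          | halt b => rw [hnd] at hx; simp [Node.map] at hx
        · intro r y n hx
          rw [hPi] at hx
          cases hnd : nd (Nat.unpair i).1 ⟨(Nat.unpair i).2, hl.2⟩ with
          | act a l' => rw [hnd] at hx; simp [Node.map] at hx
          | branch r' y' n' =>
            rw [hnd] at hx
            simp only [Node.map, Node.branch.injEq] at hx
            rw [← hx.2.1, ← hx.2.2]
            exact ⟨(hfT _ hl.1 y').trans hle, (hfT _ hl.1 n').trans hle⟩
          | halt b => rw [hnd] at hx; simp [Node.map] at hx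
      · have hPi : P i = .halt false := by
          simp only [P]; rw [dif_neg hl]
        rw [hPi]
        simp [body]
    omega
  let Wp : Polynomial ℕ := Polynomial.C C0 * ((Tp + 1) * (2 * Tp.comp Tp + 4))
  have hW : ∀ n, Wp.eval n = C0 * ((Tp.eval n + 1) * (2 * Tp.eval (Tp.eval n) + 4)) := by
    intro n
    simp [Wp, Polynomial.eval_comp]
  refine ⟨M, 6 + (Polynomial.X + 2) ^ p * Wp, fun x hx => ?_⟩
  set n := x.length with hn
  have hn1 : 1 ≤ n := by
    rw [hn]
    exact List.length_pos_iff.2 hx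
  obtain ⟨st, hst⟩ := hrun n hn1 x rfl
  have hstart : n * n + n = f n 0 := by
    simp only [f]
    rw [Nat.pair]
    simp
  have hq : (6 + (Polynomial.X + 2) ^ p * Wp : Polynomial ℕ).eval n =
      6 + (n + 2) ^ p * Wp.eval n := by
    simp
  rw [hq]
  refine hM x (Set.range (f n)) (Wp.eval n) ((n + 2) ^ p) ?_ ?_ ?_ ?_ (decide (X x)) st ?_
  · rintro l ⟨l', rfl⟩
    rw [hW]
    refine Nat.mul_le_mul_left _ ?_
    have h1 := hfT n hn1 l'
    calc ∑ i ∈ Finset.range (f n l' + 1), ((body (P i)).length + 1)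
        ≤ ∑ i ∈ Finset.range (f n l' + 1), (2 * Tp.eval (Tp.eval n) + 4) := by
          refine Finset.sum_le_sum fun i hi => (hbody i).trans ?_
          have : i ≤ Tp.eval n := by
            have := Finset.mem_range.1 hi
            omega
          have := hTmono this
          omega
      _ = (f n l' + 1) * (2 * Tp.eval (Tp.eval n) + 4) := by
          rw [Finset.sum_const, Finset.card_range, smul_eq_mul]
      _ ≤ _ := Nat.mul_le_mul_right _ (by omega)
  · rintro l ⟨l', rfl⟩ a k hk
    rw [hPf n hn1] at hk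
    cases hnd : nd n l' with
    | act a' l'' =>
      rw [hnd] at hk
      simp only [Node.map, Node.act.injEq] at hk
      rw [← hk.2]
      exact ⟨l'', rfl⟩
    | branch r y m => rw [hnd] at hk; simp [Node.map] at hk
    | halt b => rw [hnd] at hk; simp [Node.map] at hk
  · rintro l ⟨l', rfl⟩ r y m hk
    rw [hPf n hn1] at hk
    cases hnd : nd n l' with
    | act a' l'' => rw [hnd] at hk; simp [Node.map] at hk
    | branch r' y' m' =>
      rw [hnd] at hk
      simp only [Node.map, Node.branch.injEq] at hk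
      rw [← hk.2.1, ← hk.2.2]
      exact ⟨⟨y', rfl⟩, ⟨m', rfl⟩⟩
    | halt b => rw [hnd] at hk; simp [Node.map] at hk
  · rw [← hn, hstart]
    exact ⟨0, rfl⟩
  · rw [← hn, hstart, run_map c (f n) (hPf n hn1)]
    exact hst

end Pool.Agent.H581R2
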