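import Pool.Agent.H581R2.Main

/-!
# The ideal of the sets of blocks on which a problem is easy
-/

namespace Pool.Agent.H581R2

open Classical

/-- the blocks of input lengths: block `i` is `[blk H i, blk H (i + 1))` -/
def blk (H : ℕ → ℕ) : ℕ → ℕ
  | 0 => 1
  | i + 1 => (blk H i + 2) ^ (blk H i + 2) + H (blk H i) + 1

lemma blk_lt (H : ℕ → ℕ) (i : ℕ) : blk H i < blk H (i + 1) := by
  have h1 : blk H i + 2 ≤ (blk H i + 2) ^ (blk H i + 2) := Nat.le_self_pow (by omega) _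
  rw [blk]
  omega

lemma blk_mono (H : ℕ → ℕ) : StrictMono (blk H) := strictMono_nat_of_lt_succ (blk_lt H)

lemma lt_blk (H : ℕ → ℕ) (i : ℕ) : i + 1 ≤ blk H i := by
  induction i with
  | zero => simp [blk]
  | succ i ih =>
    have := blk_lt H i
    omega

lemma exists_blk (H : ℕ → ℕ) {n : ℕ} (hn : 1 ≤ n) : ∃ i, blk H i ≤ n ∧ n < blk H (i + 1) := by
  have hex : ∃ i, n < blk H i := ⟨n, by have := lt_blk H n; omega⟩
  have h1 := Nat.find_spec hex
  have h0 : Nat.find hex ≠ 0 := by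
    intro h
    rw [h] at h1
    simp only [blk] at h1
    omega
  obtain ⟨i, hi⟩ := Nat.exists_eq_succ_of_ne_zero h0
  refine ⟨i, ?_, ?_⟩
  · have := Nat.find_min hex (m := i) (by omega)
    omega
  · rw [hi] at h1
    exact h1

lemma blk_unique (H : ℕ → ℕ) {n i j : ℕ} (h1 : blk H i ≤ n) (h2 : n < blk H (j + 1)) : i ≤ j := by
  have : blk H i < blk H (j + 1) := lt_of_le_of_lt h1 h2
  have := (blk_mono H).lt_iff_lt.1 this
  omega

/-- the sets of blocks on which `X` is solved by programs of polynomial size with fixed real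
constants -/
def JJ (X : List ℝ → Prop) (b : ℕ → ℕ) : Set (Set ℕ) :=
  {A | ∃ (s p : ℕ) (c : Fin s → ℝ), ∀ i ∈ A, ∀ n, b i ≤ n → n < b (i + 1) →
    Sol X s p n (List.ofFn c)}

section JJ

variable {X : List ℝ → Prop} {b : ℕ → ℕ}

lemma JJ_sub {A B : Set ℕ} (h : A ⊆ B) (hB : B ∈ JJ X b) : A ∈ JJ X b := by
  obtain ⟨s, p, c, hc⟩ := hB
  exact ⟨s, p, c, fun i hi => hc i (h hi)⟩

lemma append_left_getD {s1 s2 : ℕ} (c1 : Fin s1 → ℝ) (c2 : Fin s2 → ℝ) (i : ℕ) (hi : i < s1) :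
    (List.ofFn (Fin.append c1 c2)).getD (i + 0) 0 = (List.ofFn c1).getD i 0 := by
  rw [Nat.add_zero, getD_ofFn _ i (by omega), getD_ofFn _ i hi]
  exact Fin.append_left c1 c2 ⟨i, hi⟩

lemma append_right_getD {s1 s2 : ℕ} (c1 : Fin s1 → ℝ) (c2 : Fin s2 → ℝ) (i : ℕ) (hi : i < s2) :
    (List.ofFn (Fin.append c1 c2)).getD (i + s1) 0 = (List.ofFn c2).getD i 0 := by
  rw [getD_ofFn _ (i + s1) (by omega), getD_ofFn _ i hi]
  have h := Fin.append_right c1 c2 ⟨i, hi⟩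
  rw [← h]
  congr 1
  apply Fin.ext
  simp only [Fin.natAdd]
  omega

lemma JJ_union {A B : Set ℕ} (hA : A ∈ JJ X b) (hB : B ∈ JJ X b) : A ∪ B ∈ JJ X b := by
  obtain ⟨s1, p1, c1, h1⟩ := hA
  obtain ⟨s2, p2, c2, h2⟩ := hB
  refine ⟨s1 + s2, max p1 p2, Fin.append c1 c2, fun i hi n hn hn' => ?_⟩
  rcases hi with hi | hi
  · exact (h1 i hi n hn hn').shift (k := 0) (append_left_getD c1 c2) (by omega) (le_max_left _ _)
  · exact (h2 i hi n hn hn').shift (k := s1) (append_right_getD c1 c2) (by omega)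
      (le_max_right _ _)

lemma JJ_empty : (∅ : Set ℕ) ∈ JJ X b := ⟨0, 0, Fin.elim0, fun _ hi => hi.elim⟩

lemma JJ_fin (hb : ∀ i, 1 ≤ b i) {s0 : ℕ} {c0 : Fin s0 → ℝ}
    (h : ∀ n, 1 ≤ n → ∃ k, Sol X s0 k n (List.ofFn c0)) {A : Set ℕ} (hA : A.Finite) :
    A ∈ JJ X b := by
  induction A, hA using Set.Finite.induction_on with
  | empty => exact JJ_empty
  | @insert i A _ _ ih =>
    rw [Set.insert_eq]
    refine JJ_union ?_ ih
    have : ∀ n, ∃ k, 1 ≤ n → Sol X s0 k n (List.ofFn c0) := by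
      intro n
      by_cases hn : 1 ≤ n
      · obtain ⟨k, hk⟩ := h n hn
        exact ⟨k, fun _ => hk⟩
      · exact ⟨0, fun h => absurd h hn⟩
    choose k hk using this
    refine ⟨s0, (Finset.Ico (b i) (b (i + 1))).sup k, c0, ?_⟩
    rintro i' hi' n hn hn'
    rw [Set.mem_singleton_iff] at hi'
    subst hi'
    exact (hk n ((hb _).trans hn)).shift (k := 0) (fun _ _ => rfl) le_rfl
      (Finset.le_sup (Finset.mem_Ico.2 ⟨hn, hn'⟩))

end JJ

lemma JJ_univ {X : Set RInf} {H : ℕ → ℕ} (h : Set.univ ∈ JJ (prd X) (blk H)) : X ∈ PR := by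
  obtain ⟨s, p, c, hc⟩ := h
  refine PR_of_sol (s := s) (p := p) (c := List.ofFn c) fun n hn => ?_
  obtain ⟨i, h1, h2⟩ := exists_blk H hn
  exact hc i trivial n h1 h2

/-- analytic representation of the ideal -/
lemma JJ_rep {X : List ℝ → Prop} {s' : ℕ} {w0 : Fin s' → ℝ} (hX : Tame X s' w0) {b : ℕ → ℕ}
    (hb : ∀ i, 1 ≤ b i) : ∃ K : ∀ l : ℕ × ℕ, ℕ → ℕ → Set (Fin l.1 → ℝ),
      (∀ l i k, IsCompact (K l i k)) ∧
      ∀ A, A ∈ JJ X b ↔ ∃ l, ∃ c, ∀ i ∈ A, ∃ k, c ∈ K l i k := by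
  have h : ∀ (l : ℕ × ℕ) (i : ℕ), ∃ K : ℕ → Set (Fin l.1 → ℝ), (∀ k, IsCompact (K k)) ∧
      ∀ c, (∀ n, b i ≤ n → n < b (i + 1) → Sol X l.1 l.2 n (List.ofFn c)) ↔ ∃ k, c ∈ K k := by
    intro l i
    have h1 : Fs (⋂ n ∈ Finset.Ico (b i) (b (i + 1)),
        {c : Fin l.1 → ℝ | Sol X l.1 l.2 n (List.ofFn c)}) := by
      refine Fs.biInter_finset _ fun n hn => fs_sol hX _ _ _ ?_
      rw [Finset.mem_Ico] at hn
      exact (hb i).trans hn.1
    obtain ⟨K, hK, hK'⟩ := h1.compacts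
    refine ⟨K, hK, fun c => ?_⟩
    rw [← hK' c]
    simp only [Finset.mem_Ico, Set.mem_iInter, Set.mem_ofPred_eq, and_imp]
  choose K hK hK' using h
  refine ⟨K, hK, fun A => ?_⟩
  constructor
  · rintro ⟨s, p, c, hc⟩
    exact ⟨(s, p), c, fun i hi => (hK' (s, p) i c).1 (hc i hi)⟩
  · rintro ⟨⟨s, p⟩, c, hc⟩
    exact ⟨s, p, c, fun i hi => (hK' (s, p) i c).2 (hc i hi)⟩

/-- the ideal cannot be almost prime -/
theorem JJ_contra {X : Set RInf} (hXP : X ∉ PR) {s' : ℕ} {w0 : Fin s' → ℝ}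
    (hX : Tame (prd X) s' w0) {H : ℕ → ℕ} {s0 : ℕ} {c0 : Fin s0 → ℝ}
    (hfin : ∀ n, 1 ≤ n → ∃ k, Sol (prd X) s0 k n (List.ofFn c0))
    (h : ∀ A : Set ℕ, A ∈ JJ (prd X) (blk H) ∨
      {i | i - 1 ∉ A ∧ i ∉ A ∧ i + 1 ∉ A} ∈ JJ (prd X) (blk H)) : False := by
  have hb : ∀ i, 1 ≤ blk H i := fun i => by have := lt_blk H i; omega
  have huniv : (Set.univ : Set ℕ) ∉ JJ (prd X) (blk H) := fun h' => hXP (JJ_univ h')
  obtain ⟨r, hr, hr'⟩ : ∃ r < 3, (fun i => 3 * i + r) '' Set.univ ∉ JJ (prd X) (blk H) := by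
    by_contra hcon
    push Not at hcon
    apply huniv
    refine JJ_sub ?_ (JJ_union (hcon 0 (by omega)) (JJ_union (hcon 1 (by omega))
      (hcon 2 (by omega))))
    intro i _
    have h3 : i % 3 = 0 ∨ i % 3 = 1 ∨ i % 3 = 2 := by omega
    rcases h3 with h3 | h3 | h3
    · left; exact ⟨i / 3, trivial, by simp only; omega⟩
    · right; left; exact ⟨i / 3, trivial, by simp only; omega⟩
    · right; right; exact ⟨i / 3, trivial, by simp only; omega⟩
  obtain ⟨K, hK, hK'⟩ := JJ_rep hX hb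
  refine no_prime {A | (fun i => 3 * i + r) '' A ∈ JJ (prd X) (blk H)} ?_ ?_ ?_ hr' ?_
    (L := ℕ × ℕ) (fun l => l.1) (fun l i k => K l (3 * i + r) k) (fun l i k => hK l _ k) ?_
  · intro A B hAB hB
    exact JJ_sub (Set.image_mono hAB) hB
  · intro A B hA hB
    simp only [Set.mem_ofPred_eq] at hA hB ⊢
    rw [Set.image_union]
    exact JJ_union hA hB
  · intro A hA
    exact JJ_fin hb hfin (hA.image _)
  · intro A
    rcases h ((fun i => 3 * i + r) '' A) with h1 | h1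
    · exact Or.inl h1
    · right
      refine JJ_sub ?_ h1
      rintro _ ⟨a, ha, rfl⟩
      refine ⟨?_, ?_, ?_⟩
      · rintro ⟨a', ha', h2⟩
        simp only at h2
        have : a' = a := by omega
        subst this
        exact ha ha'
      · rintro ⟨a', ha', h2⟩
        simp only at h2
        have : a' = a := by omega
        subst this
        exact ha ha'
      · rintro ⟨a', ha', h2⟩
        simp only at h2
        omega
  · intro A
    simp only [Set.mem_ofPred_eq]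
    rw [hK']
    simp only [Set.forall_mem_image]

end Pool.Agent.H581R2
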