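import Pool.Agent.H581R2.Universal

/-!
# Existence of the universal machine for a given infinite program
-/

namespace Pool.Agent.H581R2

open Classical Set

/-- existence of streams by compactness -/
lemma exists_stream_fin (m : ℕ) : ∀ (f : ℕ → ℝ → ℝ),
    (∀ l t, 0 ≤ t → t ≤ 1 / 2 → 0 ≤ f l t ∧ f l t ≤ 1 / 2) →
    ∃ u : ℕ → ℝ, (∀ l < m, u l = f l (u (l + 1))) ∧ ∀ l, 0 ≤ u l ∧ u l ≤ 1 / 2 := by
  induction m with
  | zero => exact fun f _ => ⟨fun _ => 0, by simp, fun l => by norm_num⟩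
  | succ m ih =>
    intro f hr
    obtain ⟨u, h1, h2⟩ := ih (fun l => f (l + 1)) (fun l => hr (l + 1))
    refine ⟨fun l => Nat.casesOn l (f 0 (u 0)) u, ?_, ?_⟩
    · intro l hl
      cases l with
      | zero => rfl
      | succ l => exact h1 l (by omega)
    · intro l
      cases l with
      | zero => exact hr 0 _ (h2 0).1 (h2 0).2
      | succ l => exact h2 l

lemma exists_stream (f : ℕ → ℝ → ℝ) (hf : ∀ l, Continuous (f l))
    (hr : ∀ l t, 0 ≤ t → t ≤ 1 / 2 → 0 ≤ f l t ∧ f l t ≤ 1 / 2) :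
    ∃ u : ℕ → ℝ, (∀ l, u l = f l (u (l + 1))) ∧ ∀ l, 0 ≤ u l ∧ u l ≤ 1 / 2 := by
  have hK : IsCompact (Set.pi univ fun _ : ℕ => Icc (0 : ℝ) (1 / 2)) :=
    isCompact_univ_pi fun _ => isCompact_Icc
  have hcl : ∀ m, IsClosed {u : ℕ → ℝ | ∀ l < m, u l = f l (u (l + 1))} := by
    intro m
    have : {u : ℕ → ℝ | ∀ l < m, u l = f l (u (l + 1))} =
        ⋂ l ∈ {l | l < m}, {u : ℕ → ℝ | u l = f l (u (l + 1))} := by
      ext u; simp
    rw [this]
    exact isClosed_biInter fun l _ => isClosed_eq (continuous_apply l)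
      ((hf l).comp (continuous_apply (l + 1)))
  have key := IsCompact.nonempty_iInter_of_sequence_nonempty_isCompact_isClosed
    (fun m => (Set.pi univ fun _ : ℕ => Icc (0 : ℝ) (1 / 2)) ∩
      {u : ℕ → ℝ | ∀ l < m, u l = f l (u (l + 1))})
    (fun m => inter_subset_inter_right _ fun u hu l hl => hu l (by omega))
    (fun m => by
      obtain ⟨u, h1, h2⟩ := exists_stream_fin m f hr
      exact ⟨u, fun l _ => h2 l, h1⟩)
    (hK.inter_right (hcl 0)) (fun m => hK.isClosed.inter (hcl m))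
  obtain ⟨u, hu⟩ := key
  rw [mem_iInter] at hu
  exact ⟨u, fun l => (hu (l + 1)).2 l (by omega), fun l => (hu 0).1 l trivial⟩

lemma continuous_valL (cd : Op → ℕ) (B : ℝ) (w : List Op) : Continuous (valL cd B w) := by
  induction w with
  | nil => exact continuous_id
  | cons o w ih =>
    have : valL cd B (o :: w) = fun t => ((cd o : ℝ) + valL cd B w t) / B := rfl
    rw [this]
    exact (continuous_const.add ih).div_const B

lemma finite_acts (s : ℕ) : {a : Act | a.Bd s}.Finite := by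
  have h2 : (Set.Iio s ×ˢ Set.Iio s : Set (ℕ × ℕ)).Finite := (finite_Iio s).prod (finite_Iio s)
  have h3 : (Set.Iio s ×ˢ (Set.Iio s ×ˢ Set.Iio s) : Set (ℕ × ℕ × ℕ)).Finite :=
    (finite_Iio s).prod h2
  refine ((h2.image fun p => Act.const p.1 p.2).union <|
    (h3.image fun p => Act.add p.1 p.2.1 p.2.2).union <|
    (h3.image fun p => Act.sub p.1 p.2.1 p.2.2).union <|
    (h3.image fun p => Act.mul p.1 p.2.1 p.2.2).union <|
    (h3.image fun p => Act.div p.1 p.2.1 p.2.2).union <|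
    (h2.image fun p => Act.load p.1 p.2).union <|
    (h2.image fun p => Act.store p.1 p.2).union <|
    ((finite_Iio s).image fun p => Act.zero p).union <|
    ((finite_Iio s).image fun p => Act.inc p)).subset ?_
  intro a ha
  cases a with
  | const r i => exact Or.inl ⟨(r, i), ha, rfl⟩
  | add r x y => exact Or.inr (Or.inl ⟨(r, x, y), ha, rfl⟩)
  | sub r x y => exact Or.inr (Or.inr (Or.inl ⟨(r, x, y), ha, rfl⟩))
  | mul r x y => exact Or.inr (Or.inr (Or.inr (Or.inl ⟨(r, x, y), ha, rfl⟩)))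
  | div r x y => exact Or.inr (Or.inr (Or.inr (Or.inr (Or.inl ⟨(r, x, y), ha, rfl⟩))))
  | load r i => exact Or.inr (Or.inr (Or.inr (Or.inr (Or.inr (Or.inl ⟨(r, i), ha, rfl⟩)))))
  | store i r =>
    exact Or.inr (Or.inr (Or.inr (Or.inr (Or.inr (Or.inr (Or.inl ⟨(i, r), ha, rfl⟩))))))
  | zero i =>
    exact Or.inr (Or.inr (Or.inr (Or.inr (Or.inr (Or.inr (Or.inr (Or.inl ⟨i, ha, rfl⟩)))))))
  | inc i =>
    exact Or.inr (Or.inr (Or.inr (Or.inr (Or.inr (Or.inr (Or.inr (Or.inr ⟨i, ha, rfl⟩)))))))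

lemma finite_ops (s : ℕ) : {o : Op | o.Bd s}.Finite := by
  refine ((Set.toFinite {Op.next, Op.incT, Op.rstT, Op.goto}).union <|
    ((finite_Iio s).image Op.jmp).union <|
    (finite_univ.image Op.halt).union ((finite_acts s).image Op.act)).subset ?_
  intro o ho
  cases o with
  | next => exact Or.inl (by simp)
  | incT => exact Or.inl (by simp)
  | rstT => exact Or.inl (by simp)
  | goto => exact Or.inl (by simp)
  | jmp r => exact Or.inr (Or.inl ⟨r, ho, rfl⟩)
  | halt b => exact Or.inr (Or.inr (Or.inl ⟨b, trivial, rfl⟩))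
  | act a => exact Or.inr (Or.inr (Or.inr ⟨a, ho, rfl⟩))

lemma exists_ops (s : ℕ) : ∃ (ops : List Op) (cd : Op → ℕ),
    ∀ op : Op, op.Bd s → ∃ h : cd op < ops.length, ops[cd op] = op := by
  let ops := (finite_ops s).toFinset.toList
  have hmem : ∀ op : Op, op.Bd s → op ∈ ops := fun op hop => by
    simp only [ops, Finset.mem_toList, Set.Finite.mem_toFinset]
    exact hop
  have : ∀ op : Op, ∃ k : ℕ, op.Bd s → ∃ h : k < ops.length, ops[k] = op := by
    intro op
    by_cases h : op.Bd s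
    · obtain ⟨n, hn, h2⟩ := List.mem_iff_getElem.1 (hmem op h)
      exact ⟨n, fun _ => ⟨hn, h2⟩⟩
    · exact ⟨0, fun h' => absurd h' h⟩
  choose cd hcd using this
  exact ⟨ops, cd, hcd⟩

lemma ini_chain {b : ℕ} (hb : 0 < b) {ops : List Op} {B u0 : ℝ} {C : List ℝ}
    (hC0 : C.getD b 0 = u0) (hC1 : C.getD (b + 1) 0 = 1) (hC2 : C.getD (b + 2) 0 = B)
    (x : List ℝ) :
    ∃ σ, RC b B (initSt x) u0 ((x.length * x.length + x.length : ℕ) : ℝ) 0 σ ∧
      Reach C (unode b ops) 6 (.ini 0) (initSt x) .main σ := by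
  have n0 : unode b ops (UL.ini 0) = .act (.const b b) (UL.ini 1) := rfl
  have n1 : unode b ops (UL.ini 1) = .act (.const (b + 1) (b + 1)) (UL.ini 2) := rfl
  have n2 : unode b ops (UL.ini 2) = .act (.const (b + 2) (b + 2)) (UL.ini 3) := rfl
  have n3 : unode b ops (UL.ini 3) = .act (.mul (b + 3) 0 0) (UL.ini 4) := rfl
  have n4 : unode b ops (UL.ini 4) = .act (.add (b + 3) (b + 3) 0) (UL.ini 5) := rfl
  have n5 : unode b ops (UL.ini 5) = .act (.sub (b + 4) (b + 1) (b + 1)) UL.main := rfl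
  have e0 := Reach.act (c := C) n0 (initSt x)
  have e1 := e0.trans (Reach.act (c := C) n1 _)
  have e2 := e1.trans (Reach.act (c := C) n2 _)
  have e3 := e2.trans (Reach.act (c := C) n3 _)
  have e4 := e3.trans (Reach.act (c := C) n4 _)
  have e5 := e4.trans (Reach.act (c := C) n5 _)
  refine ⟨_, ?_, e5⟩
  have h0 : (0 : ℕ) ≠ b := by omega
  have h0' : b ≠ 0 := by omega
  refine ⟨?_, rfl, rfl, ?_, ?_, ?_, ?_, ?_⟩
  · intro r hr
    have h1 : r ≠ b := by omega
    have h2 : r ≠ b + 1 := by omega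
    have h3 : r ≠ b + 2 := by omega
    have h4 : r ≠ b + 3 := by omega
    have h5 : r ≠ b + 4 := by omega
    simp [Act.run, Function.update_apply, h1, h2, h3, h4, h5]
  · simpa [Act.run, Function.update_apply] using hC0
  · simpa [Act.run, Function.update_apply] using hC1
  · simpa [Act.run, Function.update_apply] using hC2
  · simp [Act.run, initSt, h0]
  · simp [Act.run, Function.update_apply]

/-- **Interpreter.**  Every infinite program with bounded operands can be executed by a machine. -/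
theorem interp {b : ℕ} (hb : 0 < b) (c : List ℝ) (P : ℕ → Node ℕ) (hP : ∀ l, (P l).Bd b) :
    ∃ (M : Machine) (C0 : ℕ), ∀ (x : List ℝ) (G : Set ℕ) (W t : ℕ),
      (∀ l ∈ G, C0 * ∑ i ∈ Finset.range (l + 1), ((body (P i)).length + 1) ≤ W) →
      (∀ l ∈ G, ∀ a l', P l = .act a l' → l' ∈ G) →
      (∀ l ∈ G, ∀ r y n, P l = .branch r y n → y ∈ G ∧ n ∈ G) →
      x.length * x.length + x.length ∈ G →
      ∀ a S', run c P t (x.length * x.length + x.length) (initSt x) = some (a, S') →
        ∃ σ', M.outcome (6 + t * W) x = some (a, σ') := by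
  obtain ⟨ops, cd, hcd⟩ := exists_ops b
  set B : ℝ := 2 * (ops.length : ℝ) + 2 with hB
  -- the stream
  have hU0 : ∀ (C : List ℝ) (u0 : ℝ), (∀ i < b, C.getD i 0 = c.getD i 0) → C.getD b 0 = u0 →
      UH b ops B C c cd u0 := fun C u0 h1 h2 => ⟨hB, h1, h2, hcd⟩
  have hpre : UH b ops B ((List.range b).map (fun i => c.getD i 0) ++ [0]) c cd 0 := by
    refine hU0 _ _ ?_ ?_
    · intro i hi
      rw [List.getD_append _ _ _ _ (by simpa using hi)]
      simp [List.getD, hi]
    · simp
  obtain ⟨u, hu1, hu2⟩ := exists_stream (fun l => valL cd B (Op.next :: body (P l)))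
    (fun l => continuous_valL _ _ _) (fun l t h0 h1 => valL_range hpre _ (by
      intro o ho
      rcases List.mem_cons.1 ho with rfl | ho
      · trivial
      · exact body_bd (hP l) o ho) h0 h1)
  have hu : Stream b cd B P u := ⟨hu1, fun l => (hu2 l).1, fun l => (hu2 l).2, hP⟩
  set C : List ℝ := (List.range b).map (fun i => c.getD i 0) ++ [u 0, 1, B] with hC
  have hlen : ((List.range b).map (fun i => c.getD i 0)).length = b := by simp
  have hCi : ∀ i < b, C.getD i 0 = c.getD i 0 := by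
    intro i hi
    rw [hC, List.getD_append _ _ _ _ (by simpa using hi)]
    simp [List.getD, hi]
  have hC0 : C.getD b 0 = u 0 := by
    rw [hC, List.getD_append_right _ _ _ _ (by rw [hlen]), hlen]
    simp
  have hC1 : C.getD (b + 1) 0 = 1 := by
    rw [hC, List.getD_append_right _ _ _ _ (by rw [hlen]; omega), hlen]
    simp
  have hC2 : C.getD (b + 2) 0 = B := by
    rw [hC, List.getD_append_right _ _ _ _ (by rw [hlen]; omega), hlen]
    simp
  have hU : UH b ops B C c cd (u 0) := hU0 C (u 0) hCi hC0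
  -- the machine
  have hcard : Nat.card (UL ops.length) ≤ Nat.card (UL ops.length) + 1 := by omega
  obtain ⟨nd', _, hnd'⟩ := exists_fin_prog (unode b ops) (.ini 0) hcard
  refine ⟨⟨Nat.card (UL ops.length) + 1, nd', 0, C⟩, 2 * CO ops, ?_⟩
  intro x G W t hW hGa hGb hx a S' hrun
  obtain ⟨σ, hσ, hreach⟩ := ini_chain hb (ops := ops) hC0 hC1 hC2 x
  have hcost : ∀ l ∈ G, cost ops P l ≤ W := by
    intro l hl
    refine le_trans ?_ (hW l hl)
    unfold cost
    have h1 : (body (P l)).length + 1 ≤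
        ∑ i ∈ Finset.range (l + 1), ((body (P i)).length + 1) :=
      Finset.single_le_sum (f := fun i => (body (P i)).length + 1) (fun i _ => Nat.zero_le _)
        (Finset.mem_range.2 (Nat.lt_succ_self l))
    have h2 := Nat.mul_le_mul_left (CO ops) h1
    rw [show 2 * CO ops * ∑ i ∈ Finset.range (l + 1), ((body (P i)).length + 1) =
      CO ops * ∑ i ∈ Finset.range (l + 1), ((body (P i)).length + 1) +
      CO ops * ∑ i ∈ Finset.range (l + 1), ((body (P i)).length + 1) by ring]
    omega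
  obtain ⟨σ', h'⟩ := sim hU hu rfl G W hcost hGa hGb t _ (initSt x) σ a S' hx hσ hrun
  refine ⟨σ', ?_⟩
  show run C nd' _ 0 (initSt x) = _
  rw [hnd']
  exact hreach.run_some h'

end Pool.Agent.H581R2
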