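import Pool.Agent.H581R2.Ideal

/-!
# Ladner's theorem for machines over the real numbers
-/

namespace Pool.Agent.H581R2

open Classical

lemma NPR_tame {X : Set RInf} (hX : X ∈ NPR) : ∃ (s' : ℕ) (w0 : Fin s' → ℝ), Tame (prd X) s' w0 := by
  obtain ⟨V, p, q, hhalt, hV⟩ := hX
  refine ⟨_, _, tame_of_verifier (prd X) V.node V.start V.consts (fun n => q.eval n)
    (fun n => p.eval n) fun x hx => ?_⟩
  rw [show prd X x ↔ (⟨x, hx⟩ : RInf) ∈ X from prd_iff X ⟨x, hx⟩]
  exact hV ⟨x, hx⟩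

/-- a table of programs for all lengths -/
lemma exists_table {X : List ℝ → Prop} {s' : ℕ} {w0 : Fin s' → ℝ} (hX : Tame X s' w0) :
    ∃ (s0 : ℕ) (c0 : Fin s0 → ℝ) (i1 : Fin s0) (Bn Bt : ℕ → ℕ), 1 < s0 ∧ c0 i1 = 1 ∧
      ∀ m, 1 ≤ m → SDn s0 (List.ofFn c0) (D0 m) (fun x => X (List.ofFn x)) (Bn m) (Bt m) := by
  let c0 : Fin (s' + 2) → ℝ := Fin.append w0 (fun _ => 1)
  have hB : ∀ m, ∃ N t, 1 ≤ m → SDn (s' + 2) (List.ofFn c0) (D0 m)
      (fun x => X (List.ofFn x)) N t := by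
    intro m
    by_cases hm : 1 ≤ m
    · obtain ⟨N, t, h⟩ := (brute (s := s' + 2) (C := List.ofFn c0) hX (by omega)
        ⟨s', by omega, by
          rw [getD_ofFn c0 s' (by omega)]
          exact Fin.append_right w0 (fun _ : Fin 2 => (1 : ℝ)) 0⟩
        (fun i => ⟨i, by omega, by
          rw [getD_ofFn c0 i (by omega)]
          exact Fin.append_left w0 (fun _ : Fin 2 => (1 : ℝ)) i⟩) hm).toSDn
      exact ⟨N, t, fun _ => h⟩
    · exact ⟨0, 0, fun h => absurd h hm⟩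
  choose Bn Bt hB using hB
  exact ⟨s' + 2, c0, Fin.natAdd s' 0, Bn, Bt, by omega,
    Fin.append_right w0 (fun _ : Fin 2 => (1 : ℝ)) 0, hB⟩

lemma le_pow_self (n k : ℕ) : k ≤ (n + 2) ^ k := by
  calc k ≤ 2 ^ k := Nat.lt_two_pow_self.le
    _ ≤ (n + 2) ^ k := Nat.pow_le_pow_left (by omega) k

lemma table_sol {X : List ℝ → Prop} {s0 : ℕ} {C : List ℝ} {Bn Bt : ℕ → ℕ}
    (h : ∀ m, 1 ≤ m → SDn s0 C (D0 m) (fun x => X (List.ofFn x)) (Bn m) (Bt m)) (n : ℕ)
    (hn : 1 ≤ n) : ∃ k, Sol X s0 k n C := by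
  refine ⟨Bn n + Bt n + 1, SDn.toSol ((h n hn).mono (fun x S hS => ?_) (fun x S _ => Iff.rfl)
    le_rfl le_rfl) ?_ ?_⟩
  · subst hS
    exact D0_init x
  · have := le_pow_self n (Bn n + Bt n + 1)
    omega
  · have := le_pow_self n (Bn n + Bt n + 1)
    omega

/-- the cost function of the table -/
def cst (Bn Bt : ℕ → ℕ) (K : ℕ) : ℕ := ∑ m ∈ Finset.Ico 0 K, (Bn m + Bt m + 3)

/-- the first case: the restricted problem is easy -/
lemma caseP {X L : Set RInf} {H : ℕ → ℕ} {A : Set ℕ}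
    (hL : ∀ x : RInf, x ∈ L ↔ (x ∈ X ∧
      x.1.length ∈ {n | ∃ i ∈ A, blk H i ≤ n ∧ n < blk H (i + 1)}))
    (h : L ∈ PR) : A ∈ JJ (prd X) (blk H) := by
  obtain ⟨M, p, hM⟩ := h
  obtain ⟨s, hs⟩ := exists_bd_all M.node
  obtain ⟨k, hk⟩ := poly_bound (p + Polynomial.C (M.size + 1))
  obtain ⟨nd', h1, h2⟩ := exists_fin_prog M.node M.start (N := M.size) (by simp)
  refine ⟨s, k, fun i => M.consts.getD i 0, fun i hi n hn hn' => ?_⟩
  have hkn := hk n
  rw [Polynomial.eval_add, Polynomial.eval_C] at hkn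
  refine ⟨M.size, nd', by omega, h1 s hs, fun x hx => ?_⟩
  have hxne : x ≠ [] := by
    rintro rfl
    have := lt_blk H i
    simp at hx
    omega
  obtain ⟨st, hst⟩ := hM ⟨x, hxne⟩
  have hst' : run M.consts M.node (p.eval x.length) M.start (initSt x) = some (_, st) := hst
  have hdec : decide ((⟨x, hxne⟩ : RInf) ∈ L) = decide (prd X x) := by
    refine decide_eq_decide.2 ?_
    rw [show prd X x ↔ (⟨x, hxne⟩ : RInf) ∈ X from prd_iff X ⟨x, hxne⟩, hL]
    constructor
    · exact fun h => h.1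
    · exact fun h => ⟨h, i, hi, by simpa [hx] using hn, by simpa [hx] using hn'⟩
  rw [hdec] at hst'
  refine ⟨st, ?_⟩
  rw [h2, run_consts hs (c := M.consts)]
  · refine run_mono' _ _ hst' ?_
    rw [hx]
    omega
  · intro i hi
    rw [getD_ofFn _ i hi]

/-- the second case: `X` is reducible to the restricted problem -/
lemma caseR {X : Set RInf} {s0 : ℕ} {c0 : Fin s0 → ℝ} (i1 : Fin s0) {Bn Bt : ℕ → ℕ}
    (hs0 : 1 < s0) (hi1 : c0 i1 = 1)
    (hB : ∀ m, 1 ≤ m →
      SDn s0 (List.ofFn c0) (D0 m) (fun x => prd X (List.ofFn x)) (Bn m) (Bt m))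
    {A : Set ℕ} (h : Reduces X {x : RInf | x ∈ X ∧ x.1.length ∈
      {n | ∃ i ∈ A, blk (cst Bn Bt) i ≤ n ∧ n < blk (cst Bn Bt) (i + 1)}}) :
    {i | i - 1 ∉ A ∧ i ∉ A ∧ i + 1 ∉ A} ∈ JJ (prd X) (blk (cst Bn Bt)) := by
  set H := cst Bn Bt with hH
  set E : Set ℕ := {n | ∃ i ∈ A, blk H i ≤ n ∧ n < blk H (i + 1)} with hE
  have hb : ∀ i, 1 ≤ blk H i := fun i => by have := lt_blk H i; omega
  obtain ⟨f, ⟨M, p, hM⟩, hf⟩ := h
  obtain ⟨k, hk⟩ := poly_bound p
  obtain ⟨k', hk'⟩ := poly_bound (p + Polynomial.X + Polynomial.C (M.size + 2))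
  obtain ⟨sM, hsM⟩ := exists_bd_all M.node
  have hdecomp : {i | i - 1 ∉ A ∧ i ∉ A ∧ i + 1 ∉ A} ⊆ {i | i < k + 1} ∪
      {i | k + 1 ≤ i ∧ i - 1 ∉ A ∧ i ∉ A ∧ i + 1 ∉ A} := by
    intro i hi
    by_cases h : i < k + 1
    · exact Or.inl h
    · exact Or.inr ⟨by omega, hi⟩
  refine JJ_sub hdecomp (JJ_union (JJ_fin hb (fun n hn => table_sol hB n hn)
    (Set.finite_lt_nat _)) ?_)
  let cM : Fin sM → ℝ := fun i => M.consts.getD i 0
  have hcM : ∀ i < sM, (List.ofFn (Fin.append cM c0)).getD i 0 = M.consts.getD i 0 := by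
    intro i hi
    have := append_left_getD cM c0 i hi
    rw [Nat.add_zero] at this
    rw [this, getD_ofFn _ i hi]
  have hc0 := append_right_getD cM c0
  refine ⟨sM + s0, k', Fin.append cM c0, ?_⟩
  rintro i ⟨hik, hi1', hi2', hi3'⟩ n hn hn'
  set C := List.ofFn (Fin.append cM c0) with hC
  let K := blk H (i - 1)
  -- the dispatcher
  have hdis := dispatch (α := Fin n → ℝ) (s := sM + s0) (C := C) (by omega)
    (fun x => if h : List.ofFn x ≠ [] then (f ⟨List.ofFn x, h⟩).1 else []) (prd X) E K Bn Bt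
    (fun m hm _ => by
      have := (hB m hm).sh (k := sM) (c' := C) hc0
      rwa [Nat.add_comm] at this) K 0 (by omega)
  have hne : ∀ x : Fin n → ℝ, List.ofFn x ≠ [] := by
    intro x h
    have h1 := congrArg List.length h
    simp only [List.length_ofFn, List.length_nil] at h1
    have := hb i
    omega
  -- composition with the reduction
  have hseq := SDn.seq (Λ1 := Fin M.size) (nd1 := M.node) (l1 := M.start)
    (D := fun (x : Fin n → ℝ) S => S = initSt (List.ofFn x)) (t1 := p.eval n) hdis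
    (.const 1 (i1.1 + sM)) ⟨by omega, by omega⟩ (fun l => (hsM l).mono (by omega)) (by
      rintro x S rfl
      have hMx := hM ⟨List.ofFn x, hne x⟩
      obtain ⟨hlen, b, st, hst, hreg, hmem⟩ := hMx
      refine ⟨b, st, ?_, ?_⟩
      · rw [run_consts hsM hcM]
        have : run M.consts M.node (p.eval (List.ofFn x).length) M.start
          (initSt (List.ofFn x)) = some (b, st) := hst
        rwa [List.length_ofFn] at this
      · refine ⟨?_, Nat.zero_le _, ?_, ?_⟩
        · simp only [Act.run, dif_pos (hne x)]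
          rw [Function.update_of_ne (by norm_num), hreg]
          simp
        · simp only [Act.run]
          rw [Function.update_self, hc0 _ i1.2, getD_ofFn _ _ i1.2]
          exact hi1
        · simp only [Act.run, dif_pos (hne x)]
          exact hmem)
  have hfin := SDn.mono hseq (D := fun (x : Fin n → ℝ) S => S = initSt (List.ofFn x))
    (P := fun x => prd X (List.ofFn x)) (fun x S h => h) (by
      rintro x S -
      simp only [dif_pos (hne x)]
      have hMx := (hM ⟨List.ofFn x, hne x⟩).1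
      have hlen : (f ⟨List.ofFn x, hne x⟩).1.length ≤ p.eval n := by
        simpa using hMx
      have hpos : 1 ≤ (f ⟨List.ofFn x, hne x⟩).1.length :=
        List.length_pos_iff.2 (f ⟨List.ofFn x, hne x⟩).2
      rw [show prd X (List.ofFn x) ↔ (⟨List.ofFn x, hne x⟩ : RInf) ∈ X from
        prd_iff X ⟨List.ofFn x, hne x⟩, hf, prd_iff]
      constructor
      · rintro ⟨h1, h2⟩
        refine ⟨h2, ?_, hpos, h1⟩
        obtain ⟨j, hj, hj1, hj2⟩ := h2
        -- the output is not too long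
        have hbig : p.eval n < blk H (i + 1 + 1) := by
          have h3 : blk H (i + 1 + 1) = (blk H (i + 1) + 2) ^ (blk H (i + 1) + 2) +
            H (blk H (i + 1)) + 1 := rfl
          have h4 : (n + 2) ^ k ≤ (blk H (i + 1) + 2) ^ (blk H (i + 1) + 2) := by
            refine (Nat.pow_le_pow_left (by omega) k).trans (Nat.pow_le_pow_right (by omega) ?_)
            have := lt_blk H (i + 1)
            omega
          have := hk n
          omega
        have h5 : j ≤ i + 1 := blk_unique H (n := (f ⟨List.ofFn x, hne x⟩).1.length) hj1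
          (by omega)
        have h6 : j ≠ i - 1 := fun h => hi1' (h ▸ hj)
        have h7 : j ≠ i := fun h => hi2' (h ▸ hj)
        have h8 : j ≠ i + 1 := fun h => hi3' (h ▸ hj)
        have h9 : j + 1 ≤ i - 1 := by omega
        exact lt_of_lt_of_le hj2 ((blk_mono H).monotone h9)
      · rintro ⟨h1, _, _, h2⟩
        exact ⟨h2, h1⟩) le_rfl le_rfl
  have hKn : H K + K + 1 ≤ n + K := by
    have h1 : blk H i = (blk H (i - 1) + 2) ^ (blk H (i - 1) + 2) + H (blk H (i - 1)) + 1 := by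
      obtain ⟨i', rfl⟩ := Nat.exists_eq_succ_of_ne_zero (show i ≠ 0 by omega)
      rfl
    have h2 : H K = H (blk H (i - 1)) := rfl
    omega
  have hsumn : ∑ m ∈ Finset.Ico 0 K, (Bn m + 3) ≤ H K :=
    Finset.sum_le_sum fun m _ => by omega
  have hsumt : ∑ m ∈ Finset.Ico 0 K, (Bt m + 3) ≤ H K :=
    Finset.sum_le_sum fun m _ => by omega
  have hk'n := hk' n
  rw [Polynomial.eval_add, Polynomial.eval_add, Polynomial.eval_X, Polynomial.eval_C] at hk'n
  refine SDn.toSol hfin ?_ ?_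
  · rw [Nat.card_eq_fintype_card, Fintype.card_fin]
    omega
  · omega

/-- **Ladner's theorem over the real numbers.**  If `P ≠ NP` over `ℝ`, then some problem in
`NP` is neither in `P` nor `NP`-complete. -/
theorem ladner (h : PR ≠ NPR) : ∃ L ∈ NPR, L ∉ PR ∧ ¬ NPRComplete L := by
  by_contra hcon
  push Not at hcon
  obtain ⟨X, hX, hXP⟩ : ∃ X ∈ NPR, X ∉ PR := by
    by_contra h'
    push Not at h'
    exact h (Set.Subset.antisymm PR_subset_NPR h')
  obtain ⟨s', w0, hT⟩ := NPR_tame hX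
  obtain ⟨s0, c0, i1, Bn, Bt, hs0, hi1, hB⟩ := exists_table hT
  refine JJ_contra hXP hT (H := cst Bn Bt) (fun n hn => table_sol hB n hn) fun A => ?_
  have hL := restrict_NPR hX {n | ∃ i ∈ A, blk (cst Bn Bt) i ≤ n ∧ n < blk (cst Bn Bt) (i + 1)}
  by_cases hLP : {x : RInf | x ∈ X ∧ x.1.length ∈
      {n | ∃ i ∈ A, blk (cst Bn Bt) i ≤ n ∧ n < blk (cst Bn Bt) (i + 1)}} ∈ PR
  · exact Or.inl (caseP (fun x => Iff.rfl) hLP)
  · exact Or.inr (caseR i1 hs0 hi1 hB ((hcon _ hL hLP).2 X hX))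

end Pool.Agent.H581R2
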