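import Pool.Agent.H581R2.Compose
import Pool.Agent.H581R2.Baire

/-!
# Ladner's theorem for machines over the real numbers
-/

namespace Pool.Agent.H581R2

open Classical

lemma Sol.shift {X : List ℝ → Prop} {s p n k s' p' : ℕ} {c c' : List ℝ} (h : Sol X s p n c)
    (hc : ∀ i < s, c'.getD (i + k) 0 = c.getD i 0) (hs : s + k ≤ s') (hp : p ≤ p') :
    Sol X s' p' n c' := by
  obtain ⟨N, nd, h1, h2, h3⟩ := h
  have hpow : (n + 2) ^ p ≤ (n + 2) ^ p' := Nat.pow_le_pow_right (by omega) hp
  refine ⟨N, fun l => (nd l).sh k, h1.trans hpow, fun l => (Node.sh_bd (h2 l)).mono hs,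
    fun x hx => ?_⟩
  obtain ⟨st, hst⟩ := h3 x hx
  refine ⟨st, run_mono' _ _ ?_ hpow⟩
  rw [run_sh h2 hc]
  exact hst

lemma getD_ofFn {s : ℕ} (c : Fin s → ℝ) (i : ℕ) (hi : i < s) :
    (List.ofFn c).getD i 0 = c ⟨i, hi⟩ := by
  simp [List.getD, hi]

/-- the problem as a predicate on lists -/
def prd (X : Set RInf) (x : List ℝ) : Prop := ∃ h : x ≠ [], (⟨x, h⟩ : RInf) ∈ X

lemma prd_iff (X : Set RInf) (x : RInf) : prd X x.1 ↔ x ∈ X :=
  ⟨fun h => h.2, fun h => ⟨x.2, h⟩⟩

lemma PR_of_sol {X : Set RInf} {s p : ℕ} {c : List ℝ} (h : ∀ n, 1 ≤ n → Sol (prd X) s p n c) :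
    X ∈ PR := by
  obtain ⟨M, q, hM⟩ := family_machine (prd X) s p c h
  refine ⟨M, q, fun x => ?_⟩
  obtain ⟨st, hst⟩ := hM x.1 x.2
  refine ⟨st, ?_⟩
  rw [hst]
  simp [prd_iff]

lemma PR_subset_NPR : PR ⊆ NPR := by
  rintro L ⟨M, p, hM⟩
  refine ⟨M, p, 0, fun z => ?_, fun x => ?_⟩
  · obtain ⟨s, hs⟩ := hM z
    exact ⟨_, s, hs⟩
  · obtain ⟨s, hs⟩ := hM x
    constructor
    · intro hx
      refine ⟨[], by simp, s, ?_⟩
      rw [List.append_nil, hs]
      simp [hx]
    · rintro ⟨y, hy, s', hs'⟩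
      have : y = [] := by simpa using hy
      subst this
      rw [List.append_nil, hs] at hs'
      simp only [Option.some.injEq, Prod.mk.injEq, decide_eq_true_eq] at hs'
      exact hs'.1

lemma add_eval_injective (q : Polynomial ℕ) {a b : ℕ} (h : a + q.eval a = b + q.eval b) :
    a = b := by
  have hmono : ∀ {a b : ℕ}, a ≤ b → q.eval a ≤ q.eval b := by
    intro a b hab
    induction q using Polynomial.induction_on' with
    | add p q hp hq =>
      rw [Polynomial.eval_add, Polynomial.eval_add]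
      by_cases h1 : a = b
      · subst h1; exact le_rfl
      · exact add_le_add (by
          rw [Polynomial.eval_eq_sum, Polynomial.eval_eq_sum]
          exact Finset.sum_le_sum fun i _ => Nat.mul_le_mul_left _ (Nat.pow_le_pow_left hab i)) (by
          rw [Polynomial.eval_eq_sum, Polynomial.eval_eq_sum]
          exact Finset.sum_le_sum fun i _ => Nat.mul_le_mul_left _ (Nat.pow_le_pow_left hab i))
    | monomial i c =>
      rw [Polynomial.eval_monomial, Polynomial.eval_monomial]
      exact Nat.mul_le_mul_left _ (Nat.pow_le_pow_left hab i)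
  rcases lt_trichotomy a b with h1 | h1 | h1
  · have := hmono h1.le; omega
  · exact h1
  · have := hmono h1.le; omega

/-- restriction of an `NP` problem to an arbitrary set of input lengths -/
lemma restrict_NPR {X : Set RInf} (hX : X ∈ NPR) (E : Set ℕ) :
    {x : RInf | x ∈ X ∧ x.1.length ∈ E} ∈ NPR := by
  obtain ⟨V, p, q, hhalt, hV⟩ := hX
  let Y : List ℝ → Prop := fun z => ∃ n, 1 ≤ n ∧ n ∈ E ∧ n + q.eval n = z.length ∧
    ∃ s, V.outcome (p.eval z.length) z = some (true, s)
  obtain ⟨s, hs⟩ := exists_bd_all V.node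
  obtain ⟨k, hk⟩ := poly_bound (p + Polynomial.C (V.size + 1))
  have hSol : ∀ N, 1 ≤ N → Sol Y s k N V.consts := by
    intro N hN
    have hkN := hk N
    rw [Polynomial.eval_add, Polynomial.eval_C] at hkN
    by_cases hex : ∃ n, 1 ≤ n ∧ n ∈ E ∧ n + q.eval n = N
    · obtain ⟨nd', h1, h2⟩ := exists_fin_prog V.node V.start (N := V.size) (by simp)
      refine ⟨V.size, nd', by omega, h1 s hs, fun x hx => ?_⟩
      have hxne : x ≠ [] := by
        rintro rfl
        simp at hx
        omega
      obtain ⟨b, st, hst⟩ := hhalt ⟨x, hxne⟩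
      have hst' : V.outcome (p.eval x.length) x = some (b, st) := hst
      have hYb : decide (Y x) = b := by
        obtain ⟨n, h3, h4, h5⟩ := hex
        cases b with
        | true => exact decide_eq_true ⟨n, h3, h4, by rw [hx, h5], st, hst'⟩
        | false =>
          refine decide_eq_false ?_
          rintro ⟨n', _, _, _, s', hs'⟩
          rw [hst'] at hs'
          simp at hs'
      refine ⟨st, ?_⟩
      rw [h2, hYb]
      refine run_mono' _ _ hst' ?_
      rw [hx]
      omega
    · refine ⟨0, fun _ => .halt false, by omega, fun _ => trivial, fun x hx => ⟨initSt x, ?_⟩⟩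
      have hYb : decide (Y x) = false := by
        refine decide_eq_false ?_
        rintro ⟨n', h1, h2, h3, _⟩
        exact hex ⟨n', h1, h2, by rw [h3, hx]⟩
      rw [hYb]
      have h1 : run V.consts (fun _ : Fin (0 + 1) => Node.halt false) 1 0 (initSt x) =
          some (false, initSt x) := rfl
      exact run_mono' _ _ h1 (Nat.one_le_pow _ _ (by omega))
  obtain ⟨M, qM, hM⟩ := family_machine Y s k V.consts hSol
  refine ⟨M, qM, q, fun z => ?_, fun x => ?_⟩
  · obtain ⟨st, hst⟩ := hM z.1 z.2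
    exact ⟨_, st, hst⟩
  · have hne : ∀ y : List ℝ, x.1 ++ y ≠ [] := fun y h => x.2 (List.append_eq_nil_iff.1 h).1
    have hlen : 1 ≤ x.1.length := List.length_pos_iff.2 x.2
    constructor
    · rintro ⟨hx, hE⟩
      obtain ⟨y, hy, st, hst⟩ := (hV x).1 hx
      refine ⟨y, hy, ?_⟩
      obtain ⟨st', hst'⟩ := hM (x.1 ++ y) (hne y)
      refine ⟨st', ?_⟩
      rw [hst']
      have : Y (x.1 ++ y) := ⟨x.1.length, hlen, hE, by rw [List.length_append, hy], st, hst⟩
      simp [this]
    · rintro ⟨y, hy, st, hst⟩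
      obtain ⟨st', hst'⟩ := hM (x.1 ++ y) (hne y)
      rw [hst'] at hst
      simp only [Option.some.injEq, Prod.mk.injEq, decide_eq_true_eq] at hst
      obtain ⟨⟨n, h1, h2, h3, s', hs'⟩, _⟩ := hst
      rw [List.length_append, hy] at h3
      have h4 : n = x.1.length := add_eval_injective q h3
      subst h4
      exact ⟨(hV x).2 ⟨y, hy, s', hs'⟩, h2⟩

end Pool.Agent.H581R2
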