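import Mathlib

/-!
# Blum–Shub–Smale machines over the real field

Definitions only: machines, running time, the classes `P` and `NP` over `ℝ`, many-one
reductions computable in polynomial time, and completeness.
-/

namespace Pool.Agent.H581R2

open Classical

/-- `ℝ^∞ = ⊔_{n ≥ 1} ℝ^n`: the nonempty finite lists of real numbers.  The size of an input is
its length. -/
abbrev RInf : Type := {x : List ℝ // x ≠ []}

/-- The elementary operations of a machine.  A machine has real registers `reg 0, reg 1, …`
(every program mentions finitely many of them), index registers `idx 0, idx 1, …` holding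
natural numbers (again finitely many per program) and one array `mem 0, mem 1, …` of real
numbers, accessible through the index registers. -/
inductive Act : Type
  /-- `reg r := ` the `i`-th real constant of the machine -/
  | const (r i : ℕ)
  /-- `reg r := reg a + reg b` -/
  | add (r a b : ℕ)
  /-- `reg r := reg a - reg b` -/
  | sub (r a b : ℕ)
  /-- `reg r := reg a * reg b` -/
  | mul (r a b : ℕ)
  /-- `reg r := reg a / reg b` (with the convention `x / 0 = 0`) -/
  | div (r a b : ℕ)
  /-- `reg r := mem (idx i)` -/
  | load (r i : ℕ)
  /-- `mem (idx i) := reg r` -/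
  | store (i r : ℕ)
  /-- `idx i := 0` -/
  | zero (i : ℕ)
  /-- `idx i := idx i + 1` -/
  | inc (i : ℕ)

/-- The contents of the registers and of the array. -/
structure St : Type where
  /-- real registers -/
  reg : ℕ → ℝ
  /-- index registers -/
  idx : ℕ → ℕ
  /-- the array -/
  mem : ℕ → ℝ

/-- The effect of one elementary operation; `c` is the list of real constants of the machine. -/
noncomputable def Act.run (c : List ℝ) : Act → St → St
  | .const r i, s => ⟨Function.update s.reg r (c.getD i 0), s.idx, s.mem⟩
  | .add r a b, s => ⟨Function.update s.reg r (s.reg a + s.reg b), s.idx, s.mem⟩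
  | .sub r a b, s => ⟨Function.update s.reg r (s.reg a - s.reg b), s.idx, s.mem⟩
  | .mul r a b, s => ⟨Function.update s.reg r (s.reg a * s.reg b), s.idx, s.mem⟩
  | .div r a b, s => ⟨Function.update s.reg r (s.reg a / s.reg b), s.idx, s.mem⟩
  | .load r i, s => ⟨Function.update s.reg r (s.mem (s.idx i)), s.idx, s.mem⟩
  | .store i r, s => ⟨s.reg, s.idx, Function.update s.mem (s.idx i) (s.reg r)⟩
  | .zero i, s => ⟨s.reg, Function.update s.idx i 0, s.mem⟩
  | .inc i, s => ⟨s.reg, Function.update s.idx i (s.idx i + 1), s.mem⟩

/-- The nodes of the flow chart of a machine, with outgoing edges in `Λ`: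
computation nodes, branch nodes (test `reg r ≥ 0`) and halting nodes (`true` = accept). -/
inductive Node (Λ : Type) : Type
  | act (a : Act) (next : Λ)
  | branch (r : ℕ) (yes no : Λ)
  | halt (b : Bool)

/-- `run c nd t l s`: start at node `l` with contents `s` and traverse at most `t` nodes.
The value is `some (b, s')` if a halting node with answer `b` is reached (with contents `s'`)
among the first `t` nodes traversed, and `none` otherwise. -/
noncomputable def run {Λ : Type} (c : List ℝ) (nd : Λ → Node Λ) : ℕ → Λ → St → Option (Bool × St)
  | 0, _, _ => none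
  | t + 1, l, s =>
    match nd l with
    | .act a l' => run c nd t l' (a.run c s)
    | .branch r y n => run c nd t (if 0 ≤ s.reg r then y else n) s
    | .halt b => some (b, s)

/-- A machine over `ℝ`: a finite flow chart and finitely many real constants. -/
structure Machine : Type where
  /-- number of nodes -/
  size : ℕ
  /-- the flow chart -/
  node : Fin size → Node (Fin size)
  /-- the start node -/
  start : Fin size
  /-- the real constants -/
  consts : List ℝ

/-- The initial contents on input `x ∈ ℝ^n`: `reg 0 = n`, the array holds `x`, all the rest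
is `0`. -/
noncomputable def initSt (x : List ℝ) : St :=
  ⟨fun r => if r = 0 then (x.length : ℝ) else 0, fun _ => 0, fun i => x.getD i 0⟩

/-- The outcome of the machine `M` on input `x` after at most `t` nodes. -/
noncomputable def Machine.outcome (M : Machine) (t : ℕ) (x : List ℝ) : Option (Bool × St) :=
  run M.consts M.node t M.start (initSt x)

/-- The class `P_ℝ`: problems decided by some machine within a number of steps polynomial in the
input size. -/
def PR : Set (Set RInf) :=
  {L | ∃ (M : Machine) (p : Polynomial ℕ), ∀ x : RInf,
    ∃ s, M.outcome (p.eval x.1.length) x.1 = some (decide (x ∈ L), s)}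

/-- The class `NP_ℝ`: there are a polynomial time machine `M` and a polynomial `q` such that
`x ∈ L` iff there is `y ∈ ℝ^{q(|x|)}` such that `M` accepts `(x, y)`. -/
def NPR : Set (Set RInf) :=
  {L | ∃ (M : Machine) (p q : Polynomial ℕ),
    (∀ z : RInf, ∃ b s, M.outcome (p.eval z.1.length) z.1 = some (b, s)) ∧
    ∀ x : RInf, x ∈ L ↔ ∃ y : List ℝ, y.length = q.eval x.1.length ∧
      ∃ s, M.outcome (p.eval (x.1 ++ y).length) (x.1 ++ y) = some (true, s)}

/-- `f : ℝ^∞ → ℝ^∞` is computable in polynomial time: some machine halts on every input `x`
within polynomially many steps, with the length of `f x` in `reg 0` and the entries of `f x` in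
the array, and the length of `f x` is polynomially bounded. -/
def PolyComputable (f : RInf → RInf) : Prop :=
  ∃ (M : Machine) (p : Polynomial ℕ), ∀ x : RInf,
    (f x).1.length ≤ p.eval x.1.length ∧
    ∃ b s, M.outcome (p.eval x.1.length) x.1 = some (b, s) ∧
      s.reg 0 = ((f x).1.length : ℝ) ∧ ∀ i < (f x).1.length, s.mem i = (f x).1.getD i 0

/-- Polynomial time many-one reducibility. -/
def Reduces (A B : Set RInf) : Prop :=
  ∃ f : RInf → RInf, PolyComputable f ∧ ∀ x, x ∈ A ↔ f x ∈ B

/-- `NP_ℝ`-completeness. -/
def NPRComplete (L : Set RInf) : Prop :=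
  L ∈ NPR ∧ ∀ A ∈ NPR, Reduces A L

end Pool.Agent.H581R2
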