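import Pool.Agent.H581R2.Spec

/-!
# Elimination of one real quantifier (Tarski–Seidenberg)
-/

namespace Pool.Agent.H581R2

open Polynomial

/-- elimination of a quantifier bounded by an equation of degree `< d` -/
def H0 (d : ℕ) : Prop := ∀ (ι : Type) (F : UP ι), F.degree < d →
  ∀ p : (Option ι → ℝ) → Prop, SAP p →
  SAP (fun v : ι → ℝ => spec v F ≠ 0 ∧ ∃ t, (spec v F).eval t = 0 ∧ p (ext t v))

/-- the same, with a substitution of the parameters -/
def HH (d : ℕ) : Prop := ∀ (κ ι : Type) (φ : (κ → ℝ) → ι → ℝ), (∀ i, PF (fun w => φ w i)) →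
  ∀ F : UP ι, F.degree < d → ∀ p : (Option κ → ℝ) → Prop, SAP p →
  SAP (fun w => spec (φ w) F ≠ 0 ∧ ∃ t, (spec (φ w) F).eval t = 0 ∧ p (ext t w))

lemma HH_of_H0 {d : ℕ} (h : H0 d) : HH d := by
  intro κ ι φ hφ F hF p hp
  obtain ⟨G, hG, hs⟩ := exists_pull hφ F
  exact SAP.congr (h κ G (lt_of_le_of_lt hG hF) p hp) (fun w => by rw [hs])

lemma exists_rem {ι : Type} (F : UP ι) (d : ℕ) (hF : F.degree < ((d + 2 : ℕ) : WithBot ℕ)) :
    ∀ (N : ℕ) (g : UP ι), g.degree < (N : WithBot ℕ) → ∃ r : UP ι,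
      r.degree < ((d + 1 : ℕ) : WithBot ℕ) ∧
      ∀ (v : ι → ℝ) (t : ℝ), (spec v F).eval t = 0 →
        ∃ k : ℕ, ((spec v F).coeff (d + 1)) ^ (2 * k) * (spec v g).eval t =
          (spec v r).eval t := by
  intro N
  induction N with
  | zero =>
    intro g hg
    refine ⟨g, lt_of_lt_of_le hg (by exact_mod_cast Nat.zero_le _), fun v t _ => ⟨0, by simp⟩⟩
  | succ M ih =>
    intro g hg
    by_cases hM : M + 1 ≤ d + 1
    · exact ⟨g, lt_of_lt_of_le hg (by exact_mod_cast hM), fun v t _ => ⟨0, by simp⟩⟩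
    · have hM' : d + 1 ≤ M := by omega
      set a := F.coeff (d + 1) with ha
      set b := g.coeff M with hb
      set g2 : UP ι := C (a ^ 2) * g - C (a * b) * (X ^ (M - (d + 1)) * F) with hg2
      have hdeg : g2.degree < (M : WithBot ℕ) := by
        rw [Polynomial.degree_lt_iff_coeff_zero]
        intro m hm
        rw [hg2, Polynomial.coeff_sub, Polynomial.coeff_C_mul, Polynomial.coeff_C_mul,
          Polynomial.coeff_X_pow_mul', if_pos (by omega)]
        rcases Nat.eq_or_lt_of_le hm with h | h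
        · subst h
          rw [show M - (M - (d + 1)) = d + 1 by omega, ← ha, ← hb]
          ring
        · rw [Polynomial.coeff_eq_zero_of_degree_lt
            (lt_of_lt_of_le hg (by exact_mod_cast (show M + 1 ≤ m by omega))),
            Polynomial.coeff_eq_zero_of_degree_lt (lt_of_lt_of_le hF
              (by exact_mod_cast (show d + 2 ≤ m - (M - (d + 1)) by omega)))]
          simp
      obtain ⟨r, hr, hr2⟩ := ih g2 hdeg
      refine ⟨r, hr, fun v t h0 => ?_⟩
      obtain ⟨k, hk⟩ := hr2 v t h0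
      refine ⟨k + 1, ?_⟩
      rw [← hk]
      have : (spec v g2).eval t = ((spec v F).coeff (d + 1)) ^ 2 * (spec v g).eval t := by
        have h1 : spec v g2 = C (MvPolynomial.aeval v a ^ 2) * spec v g -
            C (MvPolynomial.aeval v a * MvPolynomial.aeval v b) *
              (X ^ (M - (d + 1)) * spec v F) := by
          simp [hg2, spec]
        rw [h1]
        simp only [eval_sub, eval_mul, eval_C, eval_pow, eval_X, h0, mul_zero, sub_zero]
        rw [spec_coeff]
      rw [this]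
      ring

lemma degree_lt_of_coeff {ι : Type} {F : UP ι} {d : ℕ} (hF : F.degree < ((d + 1 : ℕ) : WithBot ℕ))
    {m : ℕ} (hm : d + 1 ≤ m) : F.coeff m = 0 :=
  Polynomial.coeff_eq_zero_of_degree_lt (lt_of_lt_of_le hF (by exact_mod_cast hm))

section main

variable {ι : Type}

/-- no zeros of the family satisfying a condition -/
def NoRoot {κ : Type} (G : Finset (UP ι)) (φ : (κ → ℝ) → ι → ℝ) (p : (Option κ → ℝ) → Prop)
    (w : κ → ℝ) : Prop :=
  ∀ g ∈ G, ¬ (spec (φ w) g ≠ 0 ∧ ∃ c, (spec (φ w) g).eval c = 0 ∧ p (ext c w))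

lemma noRoot_iff {κ : Type} (G : Finset (UP ι)) (φ : (κ → ℝ) → ι → ℝ) (p : (Option κ → ℝ) → Prop)
    (w : κ → ℝ) : NoRoot G φ p w ↔ ∀ z ∈ zset G (φ w), ¬ p (ext z w) := by
  constructor
  · intro h z hz hp
    obtain ⟨g, hg, h1, h2⟩ := (mem_zset _ _ _).1 hz
    exact h g hg ⟨h1, z, h2, hp⟩
  · rintro h g hg ⟨h1, c, h2, hp⟩
    exact h c ((mem_zset _ _ _).2 ⟨g, hg, h1, h2⟩) hp

/-- some zero of the family satisfying a condition -/
def HasRoot {κ : Type} (G : Finset (UP ι)) (φ : (κ → ℝ) → ι → ℝ) (p : (Option κ → ℝ) → Prop)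
    (w : κ → ℝ) : Prop :=
  ∃ g ∈ G, (spec (φ w) g ≠ 0 ∧ ∃ c, (spec (φ w) g).eval c = 0 ∧ p (ext c w))

lemma hasRoot_iff {κ : Type} (G : Finset (UP ι)) (φ : (κ → ℝ) → ι → ℝ) (p : (Option κ → ℝ) → Prop)
    (w : κ → ℝ) : HasRoot G φ p w ↔ ∃ z ∈ zset G (φ w), p (ext z w) := by
  constructor
  · rintro ⟨g, hg, h1, c, h2, hp⟩
    exact ⟨c, (mem_zset _ _ _).2 ⟨g, hg, h1, h2⟩, hp⟩
  · rintro ⟨z, hz, hp⟩
    obtain ⟨g, hg, h1, h2⟩ := (mem_zset _ _ _).1 hz
    exact ⟨g, hg, h1, z, h2, hp⟩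

lemma SAP.hasRoot {d : ℕ} (h : HH d) {κ : Type} {G : Finset (UP ι)}
    (hG : ∀ g ∈ G, g.degree < (d : WithBot ℕ)) {φ : (κ → ℝ) → ι → ℝ}
    (hφ : ∀ i, PF (fun w => φ w i)) {p : (Option κ → ℝ) → Prop} (hp : SAP p) :
    SAP (HasRoot G φ p) :=
  SAP.exists_mem G fun g hg => h κ ι φ hφ g (hG g hg) p hp

lemma SAP.noRoot {d : ℕ} (h : HH d) {κ : Type} {G : Finset (UP ι)}
    (hG : ∀ g ∈ G, g.degree < (d : WithBot ℕ)) {φ : (κ → ℝ) → ι → ℝ}
    (hφ : ∀ i, PF (fun w => φ w i)) {p : (Option κ → ℝ) → Prop} (hp : SAP p) :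
    SAP (NoRoot G φ p) :=
  SAP.forall_mem G fun g hg => (h κ ι φ hφ g (hG g hg) p hp).not

/-- prescribed signs for a finite family at a point -/
def Sg {α : Type} (r : α → UP ι) (σ : α → SignType) (v : ι → ℝ) (t : ℝ) : Prop :=
  ∀ q, SignType.sign ((spec v (r q)).eval t) = σ q

lemma SAP.sg {α : Type} [Finite α] (r : α → UP ι) (σ : α → SignType) {κ : Type}
    {φ : (κ → ℝ) → ι → ℝ} (hφ : ∀ i, PF (fun w => φ w i)) {f : (κ → ℝ) → ℝ} (hf : PF f) :
    SAP (fun w => Sg r σ (φ w) (f w)) := by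
  have := Fintype.ofFinite α
  exact SAP.congr (SAP.forall_mem Finset.univ
    (p := fun q w => SignType.sign ((spec (φ w) (r q)).eval (f w)) = σ q)
    fun q _ => SAP.sign_eq (PF.spec_eval hφ (r q) hf) _) (fun w => by simp [Sg])

lemma Sg.transfer {α : Type} {r : α → UP ι} {σ : α → SignType} {G : Finset (UP ι)}
    (hr : ∀ q, r q ∈ G) {v : ι → ℝ} {I : Set ℝ} (hI : I.OrdConnected)
    (hno : ∀ z ∈ zset G v, z ∉ I) {x y : ℝ} (hx : x ∈ I) (hy : y ∈ I) (h : Sg r σ v x) :
    Sg r σ v y := by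
  intro q
  rw [← h q]
  by_cases h0 : spec v (r q) = 0
  · simp [h0]
  · exact sign_const _ hI (fun t ht h1 => hno t ((mem_zset _ _ _).2 ⟨r q, hr q, h0, h1⟩) ht) hy hx

lemma main_step {α : Type} [Finite α] (d : ℕ) (h : HH (d + 1)) (F : UP ι)
    (hF : F.degree < ((d + 2 : ℕ) : WithBot ℕ)) (r : α → UP ι)
    (hr : ∀ q, (r q).degree < ((d + 1 : ℕ) : WithBot ℕ)) (σ : α → SignType) :
    SAP (fun v : ι → ℝ => (spec v F).coeff (d + 1) ≠ 0 ∧
      ∃ t, (spec v F).eval t = 0 ∧ Sg r σ v t) := by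
  classical
  have := Fintype.ofFinite α
  set G : Finset (UP ι) := insert (derivative F) (Finset.univ.image r) with hG
  have hrG : ∀ q, r q ∈ G := fun q => by simp [hG]
  have hdG : derivative F ∈ G := by simp [hG]
  have hGdeg : ∀ g ∈ G, g.degree < ((d + 1 : ℕ) : WithBot ℕ) := by
    intro g hg
    rw [hG, Finset.mem_insert, Finset.mem_image] at hg
    rcases hg with rfl | ⟨q, _, rfl⟩
    · rw [Polynomial.degree_lt_iff_coeff_zero]
      intro m hm
      rw [Polynomial.coeff_derivative, degree_lt_of_coeff hF (by omega)]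
      simp
    · exact hr q
  -- substitutions
  let φ0 : (ι → ℝ) → ι → ℝ := fun v => v
  let φ1 : (Option ι → ℝ) → ι → ℝ := fun w i => w (some i)
  let φ2 : (Option (Option ι) → ℝ) → ι → ℝ := fun w i => w (some (some i))
  have h0 : ∀ i, PF (fun w => φ0 w i) := fun i => PF.coord i
  have h1 : ∀ i, PF (fun w => φ1 w i) := fun i => PF.coord (some i)
  have h2 : ∀ i, PF (fun w => φ2 w i) := fun i => PF.coord (some (some i))
  -- leading coefficient
  let lc : (ι → ℝ) → ℝ := fun v => (spec v F).coeff (d + 1)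
  -- the pieces
  let T1 : (ι → ℝ) → Prop := HasRoot G φ0 (fun w =>
    (spec (φ1 w) F).eval (w none) = 0 ∧ Sg r σ (φ1 w) (w none))
  let K1 : (ι → ℝ) → Prop := HasRoot G φ0 (HasRoot G φ1 (fun u =>
    u (some none) < u none ∧
    (spec (φ2 u) F).eval (u (some none)) * (spec (φ2 u) F).eval (u none) < 0 ∧
    NoRoot G φ2 (fun x => x (some (some none)) < x none ∧ x none < x (some none)) u ∧
    Sg r σ (φ2 u) ((u (some none) + u none) * ((1 / 2 : ℚ) : ℝ))))
  let K2 : (ι → ℝ) → Prop := HasRoot G φ0 (fun w =>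
    (spec (φ1 w) F).eval (w none) * lc (φ1 w) < 0 ∧
    NoRoot G φ1 (fun x => x (some none) < x none) w ∧
    Sg r σ (φ1 w) (w none + 1))
  let K3 : (ι → ℝ) → Prop := HasRoot G φ0 (fun w =>
    (spec (φ1 w) F).eval (w none) * ((((-1) ^ (d + 1) : ℚ) : ℝ) * lc (φ1 w)) < 0 ∧
    NoRoot G φ1 (fun x => x none < x (some none)) w ∧
    Sg r σ (φ1 w) (w none - 1))
  let K4 : (ι → ℝ) → Prop := fun v =>
    ((((-1) ^ (d + 1) : ℚ) : ℝ) * lc v) * lc v < 0 ∧
    NoRoot G φ0 (fun _ => True) v ∧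
    Sg r σ v 0
  have hlc : ∀ {κ : Type} {φ : (κ → ℝ) → ι → ℝ}, (∀ i, PF (fun w => φ w i)) →
      PF (fun w => lc (φ w)) := fun hφ => PF.spec_coeff hφ F (d + 1)
  have hT1 : SAP T1 := SAP.hasRoot h hGdeg h0
    ((SAP.eq_zero (PF.spec_eval h1 F (PF.coord none))).and (SAP.sg r σ h1 (PF.coord none)))
  have hK1 : SAP K1 := by
    refine SAP.hasRoot h hGdeg h0 (SAP.hasRoot h hGdeg h1 ?_)
    refine (SAP.lt (PF.coord _) (PF.coord _)).and ((SAP.lt ((PF.spec_eval h2 F (PF.coord _)).mul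
      (PF.spec_eval h2 F (PF.coord _))) PF.zero).and ((SAP.noRoot h hGdeg h2 ?_).and ?_))
    · exact (SAP.lt (PF.coord _) (PF.coord _)).and (SAP.lt (PF.coord _) (PF.coord _))
    · exact SAP.sg r σ h2 (((PF.coord _).add (PF.coord _)).mul (PF.const _))
  have hK2 : SAP K2 := by
    refine SAP.hasRoot h hGdeg h0 ?_
    refine (SAP.lt ((PF.spec_eval h1 F (PF.coord _)).mul (hlc h1)) PF.zero).and
      ((SAP.noRoot h hGdeg h1 (SAP.lt (PF.coord _) (PF.coord _))).and ?_)
    exact SAP.sg r σ h1 ((PF.coord _).add PF.one)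
  have hK3 : SAP K3 := by
    refine SAP.hasRoot h hGdeg h0 ?_
    refine (SAP.lt ((PF.spec_eval h1 F (PF.coord _)).mul ((PF.const _).mul (hlc h1)))
      PF.zero).and ((SAP.noRoot h hGdeg h1 (SAP.lt (PF.coord _) (PF.coord _))).and ?_)
    exact SAP.sg r σ h1 ((PF.coord _).sub PF.one)
  have hK4 : SAP K4 := by
    refine (SAP.lt (((PF.const _).mul (hlc h0)).mul (hlc h0)) PF.zero).and
      ((SAP.noRoot h hGdeg h0 (SAP.const True)).and ?_)
    exact SAP.sg r σ h0 PF.zero
  have hlc0 : SAP (fun v : ι → ℝ => lc v ≠ 0) := (SAP.eq_zero (hlc h0)).not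
  refine SAP.congr (hlc0.and (hT1.or (hK1.or (hK2.or (hK3.or hK4))))) fun v => ?_
  have e1 : ∀ (t : ℝ) (v : ι → ℝ), φ1 (ext t v) = v := fun t v => rfl
  have e2 : ∀ (s t : ℝ) (v : ι → ℝ), φ2 (ext s (ext t v)) = v := fun s t v => rfl
  refine and_congr_right fun hv => ?_
  -- facts on `P`
  set P := spec v F with hP
  have hdeg : P.natDegree = d + 1 := by
    refine Polynomial.natDegree_eq_of_le_of_coeff_ne_zero ?_ hv
    rw [Polynomial.natDegree_le_iff_coeff_eq_zero]
    intro N hN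
    rw [hP, spec_coeff, Polynomial.coeff_eq_zero_of_degree_lt (lt_of_lt_of_le hF
      (by exact_mod_cast (show d + 2 ≤ N by omega)))]
    simp
  have hlcP : P.leadingCoeff = lc v := by rw [Polynomial.leadingCoeff, hdeg]
  have hP0 : P ≠ 0 := by
    intro h0
    rw [h0] at hv
    simp at hv
  have hder0 : derivative P ≠ 0 := by
    intro h0
    have := Polynomial.derivative_eq_zero.1 h0
    omega
  have hZ : ∀ t, t ∉ zset G v → P.derivative.eval t ≠ 0 := by
    intro t ht h0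
    apply ht
    rw [mem_zset]
    refine ⟨derivative F, hdG, ?_, ?_⟩
    · rw [spec_derivative]; exact hder0
    · rw [spec_derivative]; exact h0
  have hsgn : (((-1) ^ (d + 1) : ℚ) : ℝ) * lc v = (-1) ^ P.natDegree * P.leadingCoeff := by
    rw [hdeg, hlcP]
    push_cast
    rfl
  constructor
  · rintro ⟨t, ht0, hsg⟩
    by_cases htZ : t ∈ zset G v
    · left
      exact (hasRoot_iff _ _ _ _).2 ⟨t, htZ, ht0, hsg⟩
    · right
      rcases root_cases P hP0 (zset G v) hZ htZ ht0 with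
        ⟨a, ha, b, hb, hat, htb, hgap, hneg⟩ | ⟨a, ha, hat, hgap, hneg⟩ |
        ⟨b, hb, htb, hgap, hneg⟩ | ⟨hgap, hneg⟩
      · left
        refine (hasRoot_iff _ _ _ _).2 ⟨a, ha, (hasRoot_iff _ _ _ _).2 ⟨b, hb, ?_, ?_, ?_, ?_⟩⟩
        · exact hat.trans htb
        · exact hneg
        · exact (noRoot_iff _ _ _ _).2 fun z hz => hgap z hz
        · refine Sg.transfer hrG (I := Set.Ioo a b) Set.ordConnected_Ioo
            (fun z hz hzI => hgap z hz hzI) ⟨hat, htb⟩ ?_ hsg
          show (a + b) * ((1 / 2 : ℚ) : ℝ) ∈ Set.Ioo a b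
          push_cast
          constructor <;> linarith
      · right; left
        refine (hasRoot_iff _ _ _ _).2 ⟨a, ha, ?_, ?_, ?_⟩
        · show P.eval a * lc v < 0
          rw [← hlcP]; exact hneg
        · exact (noRoot_iff _ _ _ _).2 fun z hz => hgap z hz
        · refine Sg.transfer hrG (I := Set.Ioi a) Set.ordConnected_Ioi
            (fun z hz hzI => hgap z hz hzI) hat ?_ hsg
          show a < a + 1
          linarith
      · right; right; left
        refine (hasRoot_iff _ _ _ _).2 ⟨b, hb, ?_, ?_, ?_⟩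
        · show P.eval b * ((((-1) ^ (d + 1) : ℚ) : ℝ) * lc v) < 0
          rw [hsgn]; exact hneg
        · exact (noRoot_iff _ _ _ _).2 fun z hz => hgap z hz
        · refine Sg.transfer hrG (I := Set.Iio b) Set.ordConnected_Iio
            (fun z hz hzI => hgap z hz hzI) htb ?_ hsg
          show b - 1 < b
          linarith
      · right; right; right
        refine ⟨?_, ?_, ?_⟩
        · rw [hsgn, ← hlcP]; exact hneg
        · exact (noRoot_iff _ _ _ _).2 fun z hz => absurd hz (hgap z)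
        · exact Sg.transfer hrG (I := Set.univ) Set.ordConnected_univ
            (fun z hz _ => hgap z hz) (Set.mem_univ _) (Set.mem_univ _) hsg
  · rintro (hT | hK | hK | hK | hK)
    · obtain ⟨z, _, hz0, hsg⟩ := (hasRoot_iff _ _ _ _).1 hT
      exact ⟨z, hz0, hsg⟩
    · obtain ⟨a, _, hK'⟩ := (hasRoot_iff _ _ _ _).1 hK
      obtain ⟨b, _, hab, hneg, hno, hsg⟩ := (hasRoot_iff _ _ _ _).1 hK'
      have hab' : a < b := hab
      obtain ⟨t, hat, htb, ht0⟩ := exists_root_between P hab' hneg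
      refine ⟨t, ht0, Sg.transfer hrG (I := Set.Ioo a b) Set.ordConnected_Ioo
        (fun z hz hzI => (noRoot_iff _ _ _ _).1 hno z hz hzI) ?_ ⟨hat, htb⟩ hsg⟩
      show (a + b) * ((1 / 2 : ℚ) : ℝ) ∈ Set.Ioo a b
      push_cast
      constructor <;> linarith
    · obtain ⟨a, _, hneg, hno, hsg⟩ := (hasRoot_iff _ _ _ _).1 hK
      have hneg' : P.eval a * P.leadingCoeff < 0 := by rw [hlcP]; exact hneg
      obtain ⟨t, hat, ht0⟩ := root_right P hP0 hneg'
      refine ⟨t, ht0, Sg.transfer hrG (I := Set.Ioi a) Set.ordConnected_Ioi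
        (fun z hz hzI => (noRoot_iff _ _ _ _).1 hno z hz hzI) ?_ hat hsg⟩
      show a < a + 1
      linarith
    · obtain ⟨b, _, hneg, hno, hsg⟩ := (hasRoot_iff _ _ _ _).1 hK
      have hneg' : P.eval b * ((-1) ^ P.natDegree * P.leadingCoeff) < 0 := by
        rw [← hsgn]; exact hneg
      obtain ⟨t, htb, ht0⟩ := root_left P hP0 hneg'
      refine ⟨t, ht0, Sg.transfer hrG (I := Set.Iio b) Set.ordConnected_Iio
        (fun z hz hzI => (noRoot_iff _ _ _ _).1 hno z hz hzI) ?_ htb hsg⟩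
      show b - 1 < b
      linarith
    · obtain ⟨hneg, hno, hsg⟩ := hK
      rw [hsgn, ← hlcP] at hneg
      obtain ⟨t, ht0⟩ := root_all P hP0 hneg
      exact ⟨t, ht0, Sg.transfer hrG (I := Set.univ) Set.ordConnected_univ
        (fun z hz _ => (noRoot_iff _ _ _ _).1 hno z hz trivial) (Set.mem_univ _)
        (Set.mem_univ _) hsg⟩

end main

lemma sign_even_mul (c x y : ℝ) (hc : c ≠ 0) (k : ℕ) (h : c ^ (2 * k) * x = y) :
    SignType.sign x = SignType.sign y := by
  have : 0 < c ^ (2 * k) := by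
    rw [pow_mul]
    exact pow_pos (by positivity) k
  rw [← h, sign_mul, sign_pos this, one_mul]

lemma H0_B {ι : Type} (d : ℕ) (h : HH (d + 1)) (F : UP ι)
    (hF : F.degree < ((d + 2 : ℕ) : WithBot ℕ)) (p : (Option ι → ℝ) → Prop) (hp : SAP p) :
    SAP (fun v : ι → ℝ => (spec v F).coeff (d + 1) ≠ 0 ∧
      ∃ t, (spec v F).eval t = 0 ∧ p (ext t v)) := by
  classical
  obtain ⟨Q, hQ⟩ := SA.iff hp
  choose Fq hFq using exists_univ (ι := ι)
  have hrem : ∀ q : MvPolynomial (Option ι) ℚ, ∃ r : UP ι,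
      r.degree < ((d + 1 : ℕ) : WithBot ℕ) ∧ ∀ (v : ι → ℝ) (t : ℝ), (spec v F).eval t = 0 →
        ∃ k : ℕ, ((spec v F).coeff (d + 1)) ^ (2 * k) * (spec v (Fq q)).eval t =
          (spec v r).eval t := fun q =>
    exists_rem F d hF ((Fq q).natDegree + 1) (Fq q)
      (lt_of_le_of_lt Polynomial.degree_le_natDegree (by exact_mod_cast Nat.lt_succ_self _))
  choose r hrdeg hr using hrem
  let α := {q // q ∈ Q}
  let rr : α → UP ι := fun q => r q.1
  let Good : (α → SignType) → Prop := fun σ => ∃ (v : ι → ℝ) (t : ℝ),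
    (spec v F).coeff (d + 1) ≠ 0 ∧ (spec v F).eval t = 0 ∧ Sg rr σ v t ∧ p (ext t v)
  have hsign : ∀ (v : ι → ℝ) (t : ℝ), (spec v F).coeff (d + 1) ≠ 0 → (spec v F).eval t = 0 →
      ∀ q, SignType.sign (MvPolynomial.aeval (ext t v) q) =
        SignType.sign ((spec v (r q)).eval t) := by
    intro v t hv ht q
    obtain ⟨k, hk⟩ := hr q v t ht
    rw [hFq q v t]
    exact sign_even_mul _ _ _ hv k hk
  refine SAP.congr (SAP.exists_fin (α := α → SignType)
    (p := fun σ v => Good σ ∧ ((spec v F).coeff (d + 1) ≠ 0 ∧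
      ∃ t, (spec v F).eval t = 0 ∧ Sg rr σ v t))
    fun σ => (SAP.const _).and (main_step d h F hF rr (fun q => hrdeg q.1) σ)) fun v => ?_
  constructor
  · rintro ⟨hv, t, ht, hpt⟩
    refine ⟨fun q => SignType.sign ((spec v (rr q)).eval t), ⟨v, t, hv, ht, fun q => rfl, hpt⟩,
      hv, t, ht, fun q => rfl⟩
  · rintro ⟨σ, ⟨w, s, hw, hs, hσ, hps⟩, hv, t, ht, hσ'⟩
    refine ⟨hv, t, ht, ?_⟩
    refine (hQ (ext s w) (ext t v) fun q hq => ?_).1 hps
    rw [hsign w s hw hs q, hsign v t hv ht q]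
    have h1 := hσ ⟨q, hq⟩
    have h2 := hσ' ⟨q, hq⟩
    exact h1.trans h2.symm

lemma H0_succ (d : ℕ) (h : HH (d + 1)) : H0 (d + 2) := by
  intro ι F hF p hp
  have hB := H0_B d h F hF p hp
  have hdegA : (F.erase (d + 1)).degree < ((d + 1 : ℕ) : WithBot ℕ) := by
    rw [Polynomial.degree_lt_iff_coeff_zero]
    intro m hm
    rw [Polynomial.coeff_erase]
    split_ifs with h1
    · rfl
    · exact Polynomial.coeff_eq_zero_of_degree_lt (lt_of_lt_of_le hF
        (by exact_mod_cast (show d + 2 ≤ m by omega)))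
  have hA := h ι ι (fun v => v) (fun i => PF.coord i) (F.erase (d + 1)) hdegA p hp
  have hlc : SAP (fun v : ι → ℝ => (spec v F).coeff (d + 1) = 0) :=
    SAP.eq_zero (PF.spec_coeff (φ := fun v => v) (fun i => PF.coord i) F (d + 1))
  refine SAP.congr ((hlc.and hA).or hB) fun v => ?_
  have herase : (spec v F).coeff (d + 1) = 0 → spec v (F.erase (d + 1)) = spec v F := by
    intro h0
    ext i
    rw [spec_coeff, spec_coeff, Polynomial.coeff_erase]
    split_ifs with h1
    · rw [h1, ← spec_coeff, h0, map_zero]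
    · rfl
  constructor
  · rintro ⟨hne, t, ht, hpt⟩
    by_cases h0 : (spec v F).coeff (d + 1) = 0
    · left
      refine ⟨h0, ?_⟩
      show spec v (F.erase (d + 1)) ≠ 0 ∧ ∃ t, (spec v (F.erase (d + 1))).eval t = 0 ∧ p (ext t v)
      rw [herase h0]
      exact ⟨hne, t, ht, hpt⟩
    · exact Or.inr ⟨h0, t, ht, hpt⟩
  · rintro (⟨h0, h1⟩ | ⟨h0, t, ht, hpt⟩)
    · have h1' : spec v (F.erase (d + 1)) ≠ 0 ∧
        ∃ t, (spec v (F.erase (d + 1))).eval t = 0 ∧ p (ext t v) := h1
      rwa [herase h0] at h1'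
    · refine ⟨fun hz => h0 ?_, t, ht, hpt⟩
      rw [hz]
      simp

theorem H0_all : ∀ d, H0 d
  | 0 => by
    intro ι F hF p _
    refine SAP.congr (SAP.const False) fun v => ?_
    have : F = 0 := by
      rw [← Polynomial.degree_eq_bot]
      have h1 : F.degree < 0 := by simpa using hF
      exact Polynomial.degree_eq_bot.2 (by
        by_contra hne
        exact absurd h1 (not_lt.2 (Polynomial.zero_le_degree_iff.2 hne)))
    subst this
    simp [spec]
  | 1 => by
    intro ι F hF p _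
    refine SAP.congr (SAP.const False) fun v => ?_
    have h1 : F = C (F.coeff 0) := by
      ext1 i
      rw [Polynomial.coeff_C]
      split_ifs with h2
      · rw [h2]
      · exact Polynomial.coeff_eq_zero_of_degree_lt (lt_of_lt_of_le hF
          (by exact_mod_cast (show 1 ≤ i by omega)))
    simp only [iff_false]
    rintro ⟨hne, t, ht, _⟩
    rw [h1] at hne ht
    simp only [spec, Polynomial.map_C, eval_C] at hne ht
    exact hne (by rw [ht, C_0])
  | d + 2 => H0_succ d (HH_of_H0 (H0_all (d + 1)))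

lemma ext_PF {ι κ : Type} {φ : (κ → ℝ) → ι → ℝ} (hφ : ∀ i, PF (fun w => φ w i))
    {f : (κ → ℝ) → ℝ} (hf : PF f) : ∀ o, PF (fun w => ext (f w) (φ w) o) := by
  intro o
  cases o with
  | none => exact hf
  | some i => exact hφ i

/-- **Tarski–Seidenberg**: projections of semialgebraic sets are semialgebraic. -/
theorem SAP.exists_real {ι : Type} {p : (Option ι → ℝ) → Prop} (hp : SAP p) :
    SAP (fun v : ι → ℝ => ∃ t, p (ext t v)) := by
  classical
  obtain ⟨Q, hQ⟩ := SA.iff hp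
  choose Fq hFq using exists_univ (ι := ι)
  set G : Finset (UP ι) := Q.image Fq with hG
  set D : ℕ := G.sup Polynomial.natDegree + 1 with hD
  have hGdeg : ∀ g ∈ G, g.degree < (D : WithBot ℕ) := by
    intro g hg
    refine lt_of_le_of_lt Polynomial.degree_le_natDegree ?_
    exact_mod_cast Nat.lt_succ_of_le (Finset.le_sup (f := Polynomial.natDegree) hg)
  have h : HH D := HH_of_H0 (H0_all D)
  let φ0 : (ι → ℝ) → ι → ℝ := fun v => v
  let φ1 : (Option ι → ℝ) → ι → ℝ := fun w i => w (some i)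
  let φ2 : (Option (Option ι) → ℝ) → ι → ℝ := fun w i => w (some (some i))
  have h0 : ∀ i, PF (fun w => φ0 w i) := fun i => PF.coord i
  have h1 : ∀ i, PF (fun w => φ1 w i) := fun i => PF.coord (some i)
  have h2 : ∀ i, PF (fun w => φ2 w i) := fun i => PF.coord (some (some i))
  let E1 : (ι → ℝ) → Prop := HasRoot G φ0 p
  let E2 : (ι → ℝ) → Prop := HasRoot G φ0 (HasRoot G φ1 (fun u =>
    p (ext ((u (some none) + u none) * ((1 / 2 : ℚ) : ℝ)) (φ2 u))))
  let E3 : (ι → ℝ) → Prop := HasRoot G φ0 (fun w => p (ext (w none + 1) (φ1 w)))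
  let E4 : (ι → ℝ) → Prop := HasRoot G φ0 (fun w => p (ext (w none - 1) (φ1 w)))
  let E5 : (ι → ℝ) → Prop := fun v => p (ext 0 v)
  have hE1 : SAP E1 := SAP.hasRoot h hGdeg h0 hp
  have hE2 : SAP E2 := SAP.hasRoot h hGdeg h0 (SAP.hasRoot h hGdeg h1
    (hp.preimage (ext_PF h2 (((PF.coord _).add (PF.coord _)).mul (PF.const _)))))
  have hE3 : SAP E3 := SAP.hasRoot h hGdeg h0
    (hp.preimage (ext_PF h1 ((PF.coord _).add PF.one)))
  have hE4 : SAP E4 := SAP.hasRoot h hGdeg h0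
    (hp.preimage (ext_PF h1 ((PF.coord _).sub PF.one)))
  have hE5 : SAP E5 := hp.preimage (ext_PF h0 PF.zero)
  refine SAP.congr (hE1.or (hE2.or (hE3.or (hE4.or hE5)))) fun v => ?_
  constructor
  · rintro ⟨t, hpt⟩
    have trans : ∀ (I : Set ℝ), I.OrdConnected → (∀ z ∈ zset G v, z ∉ I) → t ∈ I →
        ∀ s ∈ I, p (ext s v) := by
      intro I hI hno htI s hsI
      refine (hQ (ext t v) (ext s v) fun q hq => ?_).1 hpt
      rw [hFq q v t, hFq q v s]
      by_cases hz : spec v (Fq q) = 0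
      · simp [hz]
      · refine sign_const _ hI (fun x hx hx0 => hno x ?_ hx) htI hsI
        exact (mem_zset _ _ _).2 ⟨Fq q, Finset.mem_image_of_mem _ hq, hz, hx0⟩
    by_cases htZ : t ∈ zset G v
    · left
      exact (hasRoot_iff _ _ _ _).2 ⟨t, htZ, hpt⟩
    · right
      rcases comp_left (zset G v) t with ⟨a, ha, hat, hamax⟩ | hL <;>
      rcases comp_right (zset G v) t with ⟨b, hb, htb, hbmin⟩ | hR
      · left
        have hs : ∀ z ∈ zset G v, z ∉ Set.Ioo a b := by
          rintro z hz ⟨h1, h2⟩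
          rcases lt_trichotomy z t with h | h | h
          · exact absurd (hamax z hz h) (not_le.2 h1)
          · exact htZ (h ▸ hz)
          · exact absurd (hbmin z hz h) (not_le.2 h2)
        refine (hasRoot_iff _ _ _ _).2 ⟨a, ha, (hasRoot_iff _ _ _ _).2 ⟨b, hb, ?_⟩⟩
        refine trans _ Set.ordConnected_Ioo hs ⟨hat, htb⟩ _ ?_
        show (a + b) * ((1 / 2 : ℚ) : ℝ) ∈ Set.Ioo a b
        push_cast
        constructor <;> linarith
      · right; left
        have hs : ∀ z ∈ zset G v, z ∉ Set.Ioi a := by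
          intro z hz h1
          have h1' : a < z := h1
          rcases lt_trichotomy z t with h | h | h
          · exact absurd (hamax z hz h) (not_le.2 h1')
          · exact htZ (h ▸ hz)
          · exact hR z hz h
        refine (hasRoot_iff _ _ _ _).2 ⟨a, ha, trans _ Set.ordConnected_Ioi hs hat _ ?_⟩
        show a < a + 1
        linarith
      · right; right; left
        have hs : ∀ z ∈ zset G v, z ∉ Set.Iio b := by
          intro z hz h1
          have h1' : z < b := h1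
          rcases lt_trichotomy z t with h | h | h
          · exact hL z hz h
          · exact htZ (h ▸ hz)
          · exact absurd (hbmin z hz h) (not_le.2 h1')
        refine (hasRoot_iff _ _ _ _).2 ⟨b, hb, trans _ Set.ordConnected_Iio hs htb _ ?_⟩
        show b - 1 < b
        linarith
      · right; right; right
        have hs : ∀ z ∈ zset G v, z ∉ Set.univ := by
          intro z hz _
          rcases lt_trichotomy z t with h | h | h
          · exact hL z hz h
          · exact htZ (h ▸ hz)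
          · exact hR z hz h
        exact trans _ Set.ordConnected_univ hs (Set.mem_univ _) _ (Set.mem_univ _)
  · rintro (hE | hE | hE | hE | hE)
    · obtain ⟨z, _, hz⟩ := (hasRoot_iff _ _ _ _).1 hE
      exact ⟨z, hz⟩
    · obtain ⟨a, _, hE'⟩ := (hasRoot_iff _ _ _ _).1 hE
      obtain ⟨b, _, hz⟩ := (hasRoot_iff _ _ _ _).1 hE'
      exact ⟨_, hz⟩
    · obtain ⟨z, _, hz⟩ := (hasRoot_iff _ _ _ _).1 hE
      exact ⟨_, hz⟩
    · obtain ⟨z, _, hz⟩ := (hasRoot_iff _ _ _ _).1 hE
      exact ⟨_, hz⟩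
    · exact ⟨0, hE⟩

end Pool.Agent.H581R2
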