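import Pool.Agent.H581R2.Basic
import Pool.Agent.H581R2.QE

/-!
# The sets decided by programs in bounded time are semialgebraic
-/

namespace Pool.Agent.H581R2

open Classical

/-- elimination of a block of quantifiers -/
theorem SAP.exists_block (n : ℕ) : ∀ {α : Type} {p : (α ⊕ Fin n → ℝ) → Prop}, SAP p →
    SAP (fun v : α → ℝ => ∃ x : Fin n → ℝ, p (Sum.elim v x)) := by
  induction n with
  | zero =>
    intro α p hp
    refine SAP.congr (hp.preimage (φ := fun v : α → ℝ => Sum.elim v (fun i : Fin 0 => i.elim0))
      (fun k => ?_)) (fun v => ?_)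
    · cases k with
      | inl a => exact PF.coord a
      | inr i => exact i.elim0
    · constructor
      · rintro ⟨x, hx⟩
        have : x = fun i : Fin 0 => i.elim0 := funext fun i => i.elim0
        rw [this] at hx
        exact hx
      · intro h
        exact ⟨_, h⟩
  | succ n ih =>
    intro α p hp
    let φ : (Option α ⊕ Fin n → ℝ) → (α ⊕ Fin (n + 1) → ℝ) := fun u =>
      Sum.elim (fun a => u (Sum.inl (some a)))
        (Fin.cons (u (Sum.inl none)) (fun i => u (Sum.inr i)) : Fin (n + 1) → ℝ)
    have hφ : ∀ k, PF (fun u => φ u k) := by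
      intro k
      cases k with
      | inl a => exact PF.coord _
      | inr i =>
        refine Fin.cases ?_ (fun i => ?_) i
        · exact PF.coord (Sum.inl none)
        · exact PF.coord (Sum.inr i)
    have h1 := ih (hp.preimage hφ)
    refine SAP.congr (SAP.exists_real h1) fun v => ?_
    constructor
    · rintro ⟨x, hx⟩
      refine ⟨x 0, fun i => x i.succ, ?_⟩
      have : φ (Sum.elim (ext (x 0) v) fun i => x i.succ) = Sum.elim v x := by
        funext k
        cases k with
        | inl a => rfl
        | inr i =>
          refine Fin.cases ?_ (fun i => ?_) i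
          · rfl
          · rfl
      rw [this]
      exact hx
    · rintro ⟨t, x, hx⟩
      refine ⟨Fin.cons t x, ?_⟩
      have : φ (Sum.elim (ext t v) x) = Sum.elim v (Fin.cons t x : Fin (n + 1) → ℝ) := by
        funext k
        cases k with
        | inl a => rfl
        | inr i =>
          refine Fin.cases ?_ (fun i => ?_) i
          · rfl
          · rfl
      rw [← this]
      exact hx

theorem SAP.forall_block (n : ℕ) {α : Type} {p : (α ⊕ Fin n → ℝ) → Prop} (hp : SAP p) :
    SAP (fun v : α → ℝ => ∀ x : Fin n → ℝ, p (Sum.elim v x)) := by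
  refine SAP.congr (SAP.exists_block n hp.not).not fun v => ?_
  push Not
  rfl

/-- real variables of a configuration: constants, registers, array -/
abbrev VV (s : ℕ) : Type := Fin s ⊕ ℕ ⊕ ℕ

/-- the list of constants -/
noncomputable def cL {s : ℕ} (w : VV s → ℝ) : List ℝ := List.ofFn fun i => w (Sum.inl i)

/-- the contents with given real part and index part -/
def stOf {s : ℕ} (w : VV s → ℝ) (idx : ℕ → ℕ) : St :=
  ⟨fun r => w (Sum.inr (Sum.inl r)), idx, fun a => w (Sum.inr (Sum.inr a))⟩

/-- change of a register -/
noncomputable def setR {s : ℕ} (w : VV s → ℝ) (r : ℕ) (t : ℝ) : VV s → ℝ :=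
  Function.update w (Sum.inr (Sum.inl r)) t

/-- change of an array entry -/
noncomputable def setM {s : ℕ} (w : VV s → ℝ) (r : ℕ) (t : ℝ) : VV s → ℝ :=
  Function.update w (Sum.inr (Sum.inr r)) t

lemma cL_setR {s : ℕ} (w : VV s → ℝ) (r : ℕ) (t : ℝ) : cL (setR w r t) = cL w := by
  unfold cL setR
  congr 1

lemma cL_setM {s : ℕ} (w : VV s → ℝ) (r : ℕ) (t : ℝ) : cL (setM w r t) = cL w := by
  unfold cL setM
  congr 1

lemma stOf_setR {s : ℕ} (w : VV s → ℝ) (r : ℕ) (t : ℝ) (idx : ℕ → ℕ) :
    stOf (setR w r t) idx = ⟨Function.update (stOf w idx).reg r t, idx, (stOf w idx).mem⟩ := by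
  unfold stOf setR
  congr 1
  funext i
  by_cases h : i = r
  · subst h; simp
  · rw [Function.update_of_ne h, Function.update_of_ne (by simpa using h)]

lemma stOf_setM {s : ℕ} (w : VV s → ℝ) (r : ℕ) (t : ℝ) (idx : ℕ → ℕ) :
    stOf (setM w r t) idx = ⟨(stOf w idx).reg, idx, Function.update (stOf w idx).mem r t⟩ := by
  unfold stOf setM
  congr 1
  funext i
  by_cases h : i = r
  · subst h; simp
  · rw [Function.update_of_ne h, Function.update_of_ne (by simpa using h)]

lemma PF.update {ι : Type} [DecidableEq ι] {f : (ι → ℝ) → ℝ} (hf : PF f) (k : ι) :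
    ∀ i, PF (fun w : ι → ℝ => Function.update w k (f w) i) := by
  intro i
  by_cases h : i = k
  · subst h
    simpa using hf
  · simp only [Function.update_of_ne h]
    exact PF.coord i

lemma SAP.update_div {ι : Type} [DecidableEq ι] {p : (ι → ℝ) → Prop} (hp : SAP p) (k i j : ι) :
    SAP (fun w : ι → ℝ => p (Function.update w k (w i / w j))) := by
  let q : (Option ι → ℝ) → Prop := fun u =>
    ((¬ u (some j) = 0 ∧ u none * u (some j) = u (some i)) ∨ (u (some j) = 0 ∧ u none = 0)) ∧
      p (Function.update (fun l => u (some l)) k (u none))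
  have hq : SAP q := by
    refine (((SAP.eq_zero (PF.coord _)).not.and (SAP.eq ((PF.coord _).mul (PF.coord _))
      (PF.coord _))).or ((SAP.eq_zero (PF.coord _)).and (SAP.eq_zero (PF.coord _)))).and
      (hp.preimage ?_)
    intro l
    by_cases h : l = k
    · subst h
      simpa using PF.coord none
    · simp only [Function.update_of_ne h]
      exact PF.coord (some l)
  refine SAP.congr (SAP.exists_real hq) fun w => ?_
  constructor
  · intro h
    refine ⟨w i / w j, ?_, h⟩
    by_cases hj : w j = 0
    · right
      exact ⟨hj, by simp [hj]⟩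
    · left
      exact ⟨hj, by simp only [ext_none, ext_some]; field_simp⟩
  · rintro ⟨t, h1, h2⟩
    have : t = w i / w j := by
      rcases h1 with ⟨h3, h4⟩ | ⟨h3, h4⟩
      · simp only [ext_none, ext_some] at h3 h4
        rw [eq_div_iff h3]
        exact h4
      · simp only [ext_none, ext_some] at h3 h4
        rw [h3, h4, div_zero]
    rw [← this]
    exact h2

lemma getD_cL {s : ℕ} (i : ℕ) : PF (fun w : VV s → ℝ => (cL w).getD i 0) := by
  by_cases h : i < s
  · have : (fun w : VV s → ℝ => (cL w).getD i 0) = fun w => w (Sum.inl ⟨i, h⟩) := by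
      funext w
      simp [cL, List.getD, h]
    rw [this]
    exact PF.coord _
  · have : (fun w : VV s → ℝ => (cL w).getD i 0) = fun _ => 0 := by
      funext w
      simp [cL, List.getD, h]
    rw [this]
    exact PF.zero

/-- acceptance (rejection) in bounded time is semialgebraic -/
theorem SAP_run {s : ℕ} {Λ : Type} (nd : Λ → Node Λ) (b : Bool) (t : ℕ) :
    ∀ (l : Λ) (idx : ℕ → ℕ),
      SAP (fun w : VV s → ℝ => ∃ S', run (cL w) nd t l (stOf w idx) = some (b, S')) := by
  induction t with
  | zero =>
    intro l idx
    exact SAP.congr (SAP.const False) fun w => by simp [run]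
  | succ t ih =>
    intro l idx
    cases hl : nd l with
    | halt a =>
      refine SAP.congr (SAP.const (a = b)) fun w => ?_
      rw [run, hl]
      simp
    | branch r y n =>
      refine SAP.congr (((SAP.le PF.zero (PF.coord (Sum.inr (Sum.inl r)))).and (ih y idx)).or
        ((SAP.le PF.zero (PF.coord (Sum.inr (Sum.inl r)))).not.and (ih n idx))) fun w => ?_
      rw [run, hl]
      have e : (stOf w idx).reg r = w (Sum.inr (Sum.inl r)) := rfl
      simp only [e]
      by_cases h : 0 ≤ w (Sum.inr (Sum.inl r)) <;> simp [h]
    | act a l' =>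
      have base : ∀ w : VV s → ℝ, (∃ S', run (cL w) nd (t + 1) l (stOf w idx) = some (b, S')) ↔
          ∃ S', run (cL w) nd t l' (a.run (cL w) (stOf w idx)) = some (b, S') := by
        intro w
        rw [run, hl]
      have keyR : ∀ (r : ℕ) (f : (VV s → ℝ) → ℝ), PF f →
          (∀ w, a.run (cL w) (stOf w idx) = stOf (setR w r (f w)) idx) →
          SAP (fun w : VV s → ℝ => ∃ S', run (cL w) nd (t + 1) l (stOf w idx) = some (b, S')) := by
        intro r f hf h
        refine SAP.congr ((ih l' idx).preimage (φ := fun w => setR w r (f w))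
          (PF.update hf _)) fun w => ?_
        rw [base w, h w, cL_setR]
      cases a with
      | const r i =>
        exact keyR r (fun w => (cL w).getD i 0) (getD_cL i) fun w => by
          rw [stOf_setR]; rfl
      | add r x y =>
        exact keyR r (fun w => w (Sum.inr (Sum.inl x)) + w (Sum.inr (Sum.inl y)))
          ((PF.coord _).add (PF.coord _)) fun w => by rw [stOf_setR]; rfl
      | sub r x y =>
        exact keyR r (fun w => w (Sum.inr (Sum.inl x)) - w (Sum.inr (Sum.inl y)))
          ((PF.coord _).sub (PF.coord _)) fun w => by rw [stOf_setR]; rfl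
      | mul r x y =>
        exact keyR r (fun w => w (Sum.inr (Sum.inl x)) * w (Sum.inr (Sum.inl y)))
          ((PF.coord _).mul (PF.coord _)) fun w => by rw [stOf_setR]; rfl
      | div r x y =>
        refine SAP.congr ((ih l' idx).update_div (Sum.inr (Sum.inl r)) (Sum.inr (Sum.inl x))
          (Sum.inr (Sum.inl y))) fun w => ?_
        rw [base w]
        have h1 : Act.run (cL w) (.div r x y) (stOf w idx) =
            stOf (setR w r (w (Sum.inr (Sum.inl x)) / w (Sum.inr (Sum.inl y)))) idx := by
          rw [stOf_setR]; rfl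
        rw [h1, ← cL_setR w r (w (Sum.inr (Sum.inl x)) / w (Sum.inr (Sum.inl y)))]
        rfl
      | load r i =>
        exact keyR r (fun w => w (Sum.inr (Sum.inr (idx i)))) (PF.coord _) fun w => by
          rw [stOf_setR]; rfl
      | store i r =>
        refine SAP.congr ((ih l' idx).preimage
          (φ := fun w => setM w (idx i) (w (Sum.inr (Sum.inl r))))
          (PF.update (PF.coord _) _)) fun w => ?_
        rw [base w]
        have h1 : Act.run (cL w) (.store i r) (stOf w idx) =
            stOf (setM w (idx i) (w (Sum.inr (Sum.inl r)))) idx := by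
          rw [stOf_setM]; rfl
        rw [h1, cL_setM]
      | zero i =>
        exact SAP.congr (ih l' (Function.update idx i 0)) fun w => by rw [base w]; rfl
      | inc i =>
        exact SAP.congr (ih l' (Function.update idx i (idx i + 1))) fun w => by rw [base w]; rfl

end Pool.Agent.H581R2
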