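import Pool.Agent.H581R2.SARun
import Pool.Agent.H581R2.Family

/-!
# The sets of good parameters are countable unions of compact sets
-/

namespace Pool.Agent.H581R2

open Classical Set

section Fs

variable {X : Type*} [TopologicalSpace X]

/-- countable unions of closed sets -/
def Fs (A : Set X) : Prop := ∃ F : ℕ → Set X, (∀ n, IsClosed (F n)) ∧ A = ⋃ n, F n

lemma Fs.of_closed {A : Set X} (h : IsClosed A) : Fs A :=
  ⟨fun _ => A, fun _ => h, (iUnion_const A).symm⟩

lemma Fs.iUnion {ι : Type*} [Countable ι] {A : ι → Set X} (h : ∀ i, Fs (A i)) :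
    Fs (⋃ i, A i) := by
  choose F hF hA using h
  cases isEmpty_or_nonempty ι with
  | inl hι => exact ⟨fun _ => ∅, fun _ => isClosed_empty, by simp⟩
  | inr hι =>
    obtain ⟨e, he⟩ := exists_surjective_nat (ι × ℕ)
    refine ⟨fun n => F (e n).1 (e n).2, fun n => hF _ _, ?_⟩
    ext x
    simp only [mem_iUnion]
    constructor
    · rintro ⟨i, hi⟩
      rw [hA i, mem_iUnion] at hi
      obtain ⟨k, hk⟩ := hi
      obtain ⟨n, hn⟩ := he (i, k)
      exact ⟨n, by rw [hn]; exact hk⟩
    · rintro ⟨n, hn⟩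
      refine ⟨(e n).1, ?_⟩
      rw [hA, mem_iUnion]
      exact ⟨_, hn⟩

lemma Fs.inter {A B : Set X} (hA : Fs A) (hB : Fs B) : Fs (A ∩ B) := by
  obtain ⟨F, hF, rfl⟩ := hA
  obtain ⟨G, hG, rfl⟩ := hB
  have : (⋃ n, F n) ∩ (⋃ n, G n) = ⋃ p : ℕ × ℕ, F p.1 ∩ G p.2 := by
    ext x
    simp only [mem_inter_iff, mem_iUnion, Prod.exists]
    constructor
    · rintro ⟨⟨i, hi⟩, ⟨j, hj⟩⟩
      exact ⟨i, j, hi, hj⟩
    · rintro ⟨i, j, hi, hj⟩
      exact ⟨⟨i, hi⟩, ⟨j, hj⟩⟩
  rw [this]
  exact Fs.iUnion fun p => Fs.of_closed ((hF _).inter (hG _))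

lemma Fs.biInter_finset {ι : Type*} (s : Finset ι) {A : ι → Set X} (h : ∀ i ∈ s, Fs (A i)) :
    Fs (⋂ i ∈ s, A i) := by
  induction s using Finset.induction_on with
  | empty => simpa using Fs.of_closed isClosed_univ
  | insert a s ha ih =>
    rw [Finset.set_biInter_insert]
    exact (h a (by simp)).inter (ih fun i hi => h i (by simp [hi]))

lemma Fs.sign {f : X → ℝ} (hf : Continuous f) (s : SignType) :
    Fs {x | SignType.sign (f x) = s} := by
  have hpos : ∀ g : X → ℝ, Continuous g → Fs {x | 0 < g x} := by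
    intro g hg
    refine ⟨fun n => {x | 1 / ((n : ℝ) + 1) ≤ g x}, fun n => isClosed_le continuous_const hg, ?_⟩
    ext x
    simp only [mem_ofPred_eq, mem_iUnion]
    constructor
    · intro h
      obtain ⟨n, hn⟩ := exists_nat_one_div_lt h
      exact ⟨n, hn.le⟩
    · rintro ⟨n, hn⟩
      exact lt_of_lt_of_le (by positivity) hn
  cases s with
  | zero =>
    have : {x | SignType.sign (f x) = SignType.zero} = {x | f x = 0} := by
      ext x
      exact sign_eq_zero_iff
    rw [this]
    exact Fs.of_closed (isClosed_eq hf continuous_const)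
  | neg =>
    have : {x | SignType.sign (f x) = SignType.neg} = {x | 0 < - f x} := by
      ext x
      simp only [mem_ofPred_eq, neg_pos]
      exact sign_eq_neg_one_iff
    rw [this]
    exact hpos _ hf.neg
  | pos =>
    have : {x | SignType.sign (f x) = SignType.pos} = {x | 0 < f x} := by
      ext x
      exact sign_eq_one_iff
    rw [this]
    exact hpos _ hf

lemma continuous_aeval {ι : Type} {ψ : X → ι → ℝ} (hψ : ∀ i, Continuous fun x => ψ x i)
    (q : MvPolynomial ι ℚ) : Continuous fun x => MvPolynomial.aeval (ψ x) q := by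
  induction q using MvPolynomial.induction_on with
  | C a => simpa using continuous_const
  | add p q hp hq =>
    simp only [map_add]
    exact hp.add hq
  | mul_X p i hp =>
    simp only [map_mul, MvPolynomial.aeval_X]
    exact hp.mul (hψ i)

/-- pull backs of semialgebraic sets under continuous maps -/
lemma Fs.of_SAP {ι : Type} {p : (ι → ℝ) → Prop} (hp : SAP p) {ψ : X → ι → ℝ}
    (hψ : ∀ i, Continuous fun x => ψ x i) : Fs {x | p (ψ x)} := by
  obtain ⟨Q, hQ⟩ := SA.iff hp
  let Good : ({q // q ∈ Q} → SignType) → Prop := fun σ =>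
    ∃ v, p v ∧ ∀ q : {q // q ∈ Q}, SignType.sign (MvPolynomial.aeval v q.1) = σ q
  have : {x | p (ψ x)} = ⋃ σ : {σ // Good σ}, ⋂ q ∈ (Finset.univ : Finset {q // q ∈ Q}),
      {x | SignType.sign (MvPolynomial.aeval (ψ x) q.1) = σ.1 q} := by
    ext x
    simp only [mem_ofPred_eq, mem_iUnion, mem_iInter]
    constructor
    · intro h
      exact ⟨⟨fun q => SignType.sign (MvPolynomial.aeval (ψ x) q.1), ψ x, h, fun q => rfl⟩,
        fun q _ => rfl⟩
    · rintro ⟨⟨σ, v, hv, hσ⟩, h⟩
      refine (hQ v (ψ x) fun q hq => ?_).1 hv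
      exact (hσ ⟨q, hq⟩).trans (h ⟨q, hq⟩ (Finset.mem_univ _)).symm
  rw [this]
  exact Fs.iUnion fun σ => Fs.biInter_finset _ fun q _ => Fs.sign (continuous_aeval hψ q.1) _

lemma Fs.compacts [SigmaCompactSpace X] {A : Set X} (h : Fs A) :
    ∃ K : ℕ → Set X, (∀ k, IsCompact (K k)) ∧ ∀ x, x ∈ A ↔ ∃ k, x ∈ K k := by
  obtain ⟨F, hF, rfl⟩ := h
  refine ⟨fun k => F (Nat.unpair k).1 ∩ compactCovering X (Nat.unpair k).2, fun k => ?_, ?_⟩
  · exact (isCompact_compactCovering X _).inter_left (hF _)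
  · intro x
    simp only [mem_iUnion]
    constructor
    · rintro ⟨i, hi⟩
      obtain ⟨m, hm⟩ := exists_mem_compactCovering x
      exact ⟨Nat.pair i m, by simpa using ⟨hi, hm⟩⟩
    · rintro ⟨k, hk⟩
      exact ⟨_, hk.1⟩

end Fs

instance : Countable Act := by
  let f : Act → ℕ × ℕ × ℕ × ℕ := fun
    | .const r i => (0, r, i, 0)
    | .add r a b => (1, r, a, b)
    | .sub r a b => (2, r, a, b)
    | .mul r a b => (3, r, a, b)
    | .div r a b => (4, r, a, b)
    | .load r i => (5, r, i, 0)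
    | .store i r => (6, i, r, 0)
    | .zero i => (7, i, 0, 0)
    | .inc i => (8, i, 0, 0)
  refine Function.Injective.countable (f := f) ?_
  intro x y h
  cases x <;> cases y <;> simp [f] at h <;> simp [h]

instance {Λ : Type} [Countable Λ] : Countable (Node Λ) := by
  let f : Node Λ → (Act × Λ) ⊕ (ℕ × Λ × Λ) ⊕ Bool := fun
    | .act a l => Sum.inl (a, l)
    | .branch r y n => Sum.inr (Sum.inl (r, y, n))
    | .halt b => Sum.inr (Sum.inr b)
  refine Function.Injective.countable (f := f) ?_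
  intro x y h
  cases x <;> cases y <;> simp [f] at h <;> simp [h]

end Pool.Agent.H581R2
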