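import Pool.Agent.H581R2.SA
import Pool.Agent.H581R2.RealPoly

/-!
# Univariate polynomials with polynomial coefficients, and their specialisations
-/

namespace Pool.Agent.H581R2

open Polynomial

variable {ι κ : Type}

/-- polynomials in one variable whose coefficients are polynomials in the parameters -/
abbrev UP (ι : Type) : Type := Polynomial (MvPolynomial ι ℚ)

/-- specialisation of the parameters -/
noncomputable def spec (v : ι → ℝ) (F : UP ι) : ℝ[X] :=
  F.map ((MvPolynomial.aeval v : MvPolynomial ι ℚ →ₐ[ℚ] ℝ) : MvPolynomial ι ℚ →+* ℝ)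

@[simp] lemma spec_coeff (v : ι → ℝ) (F : UP ι) (i : ℕ) :
    (spec v F).coeff i = MvPolynomial.aeval v (F.coeff i) := by
  simp [spec, Polynomial.coeff_map]

lemma spec_derivative (v : ι → ℝ) (F : UP ι) :
    spec v (derivative F) = derivative (spec v F) := by
  simp [spec, Polynomial.derivative_map]

lemma spec_eval (v : ι → ℝ) (F : UP ι) (t : ℝ) :
    (spec v F).eval t =
      ∑ i ∈ Finset.range (F.natDegree + 1), MvPolynomial.aeval v (F.coeff i) * t ^ i := by
  rw [spec, Polynomial.eval_map, Polynomial.eval₂_eq_sum_range]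
  rfl

lemma spec_eq_zero_iff (v : ι → ℝ) (F : UP ι) :
    spec v F = 0 ↔ ∀ i ∈ Finset.range (F.natDegree + 1), MvPolynomial.aeval v (F.coeff i) = 0 := by
  constructor
  · intro h i _
    have := congrArg (fun p => p.coeff i) h
    simpa using this
  · intro h
    ext i
    by_cases hi : i < F.natDegree + 1
    · simpa using h i (Finset.mem_range.2 hi)
    · simp [Polynomial.coeff_eq_zero_of_natDegree_lt (show F.natDegree < i by omega)]

/-- the value of a specialised polynomial is a polynomial function -/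
lemma PF.spec_eval {φ : (κ → ℝ) → ι → ℝ} (hφ : ∀ i, PF (fun w => φ w i)) (F : UP ι)
    {f : (κ → ℝ) → ℝ} (hf : PF f) : PF (fun w => (spec (φ w) F).eval (f w)) := by
  have : (fun w => (spec (φ w) F).eval (f w)) = fun w =>
      ∑ i ∈ Finset.range (F.natDegree + 1), MvPolynomial.aeval (φ w) (F.coeff i) * (f w) ^ i := by
    funext w
    rw [Pool.Agent.H581R2.spec_eval]
  rw [this]
  exact PF.sum _ fun i _ => ((PF.aeval (F.coeff i)).comp hφ).mul (hf.pow i)

lemma PF.spec_coeff {φ : (κ → ℝ) → ι → ℝ} (hφ : ∀ i, PF (fun w => φ w i)) (F : UP ι) (i : ℕ) :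
    PF (fun w => (spec (φ w) F).coeff i) := by
  have : (fun w => (spec (φ w) F).coeff i) = fun w => MvPolynomial.aeval (φ w) (F.coeff i) := by
    funext w
    simp
  rw [this]
  exact (PF.aeval (F.coeff i)).comp hφ

lemma SAP.spec_ne_zero {φ : (κ → ℝ) → ι → ℝ} (hφ : ∀ i, PF (fun w => φ w i)) (F : UP ι) :
    SAP (fun w => spec (φ w) F ≠ 0) := by
  refine SAP.not ?_
  refine SAP.congr (SAP.forall_mem (Finset.range (F.natDegree + 1))
    (p := fun i w => MvPolynomial.aeval (φ w) (F.coeff i) = 0) fun i _ => ?_)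
    (fun w => spec_eq_zero_iff (φ w) F)
  exact SAP.eq_zero ((PF.aeval (F.coeff i)).comp hφ)

/-- pull back of the parameters along a polynomial map -/
lemma exists_pull {φ : (κ → ℝ) → ι → ℝ} (hφ : ∀ i, PF (fun w => φ w i)) (F : UP ι) :
    ∃ G : UP κ, G.degree ≤ F.degree ∧ ∀ w, spec w G = spec (φ w) F := by
  choose r hr using hφ
  refine ⟨F.map ((MvPolynomial.bind₁ r : MvPolynomial ι ℚ →ₐ[ℚ] MvPolynomial κ ℚ) :
    MvPolynomial ι ℚ →+* MvPolynomial κ ℚ), Polynomial.degree_map_le, fun w => ?_⟩
  ext i
  simp only [spec_coeff, Polynomial.coeff_map, RingHom.coe_coe]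
  rw [MvPolynomial.aeval_bind₁]
  congr 2
  funext k
  exact (hr k w).symm

/-- a polynomial in the variables `Option ι` as a univariate polynomial -/
lemma exists_univ (q : MvPolynomial (Option ι) ℚ) :
    ∃ F : UP ι, ∀ (v : ι → ℝ) (t : ℝ), MvPolynomial.aeval (ext t v) q = (spec v F).eval t := by
  refine ⟨MvPolynomial.optionEquivLeft ℚ ι q, fun v t => ?_⟩
  induction q using MvPolynomial.induction_on with
  | C a => simp [spec, MvPolynomial.optionEquivLeft_C]
  | add p q hp hq =>
    simp only [map_add, hp, hq, spec, Polynomial.map_add, Polynomial.eval_add]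
  | mul_X p i hp =>
    rw [map_mul, hp, map_mul]
    simp only [spec, Polynomial.map_mul, Polynomial.eval_mul]
    congr 1
    cases i with
    | none => simp [MvPolynomial.optionEquivLeft_X_none]
    | some i => simp [MvPolynomial.optionEquivLeft_X_some]

/-- the finite set of all zeros of the nonzero specialisations of a finite family -/
noncomputable def zset (G : Finset (UP ι)) (v : ι → ℝ) : Finset ℝ := by
  classical exact G.biUnion fun g => (spec v g).roots.toFinset

lemma mem_zset (G : Finset (UP ι)) (v : ι → ℝ) (z : ℝ) :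
    z ∈ zset G v ↔ ∃ g ∈ G, spec v g ≠ 0 ∧ (spec v g).eval z = 0 := by
  classical
  simp [zset, Polynomial.IsRoot.def]

end Pool.Agent.H581R2
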