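import Pool.Agent.H581R2.SplayPot

set_option autoImplicit false

/-! The amortised cost of one splay operation. -/

namespace Pool.Agent.H581R2.Splay

open Tr

theorem climb_pot {M : ℕ} {f : ℕ → ℕ} (x : ℕ) : ∀ (fs : List Fr) (l r : Tr),
    (keys (plug fs (node x l r))).Pairwise (· < ·) →
    Good f (keys (plug fs (node x l r))) →
    (∀ k ∈ keys (plug fs (node x l r)), f k ≤ M) →
    keys (climb x fs l r) = keys (plug fs (node x l r)) ∧
    (fs.length : ℤ) + 2 * Phi M f (climb x fs l r) ≤
      2 * Phi M f (plug fs (node x l r)) +
        6 * ((mn M f (node x l r) : ℤ) - mn M f (plug fs (node x l r))) + 1 := by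
  intro fs
  -- induction on the length, two frames at a time
  induction hn : fs.length using Nat.strong_induction_on generalizing fs with
  | _ n ih =>
    intro l r hs hg hM
    match fs, hn with
    | [], hn =>
      subst hn
      simp only [climb, plug, List.length_nil]
      refine ⟨trivial, ?_⟩
      push_cast
      omega
    | [Fr.inL y c], hn =>
      subst hn
      refine ⟨by simp [climb, plug, plug1, keys], ?_⟩
      simp only [climb, plug, plug1, List.length_singleton]
      have e1 : mn M f (node x l (node y r c)) = mn M f (node y (node x l r) c) := by
        simp only [mn, min_assoc, min_left_comm]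
      have a1 := mn_node_le_l (M := M) (f := f) y (node x l r) c
      have a3 := mn_node_le_r (M := M) (f := f) x l (node y r c)
      rw [e1] at a3
      simp only [Phi]
      rw [e1]
      generalize mn M f (node y (node x l r) c) = m2 at *
      generalize mn M f (node x l r) = m3 at *
      generalize mn M f (node y r c) = m4 at *
      push_cast
      omega
    | [Fr.inR y c], hn =>
      subst hn
      refine ⟨by simp [climb, plug, plug1, keys], ?_⟩
      simp only [climb, plug, plug1, List.length_singleton]
      have e1 : mn M f (node x (node y c l) r) = mn M f (node y c (node x l r)) := by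
        simp only [mn, min_assoc, min_left_comm]
      have a1 := mn_node_le_r (M := M) (f := f) y c (node x l r)
      have a3 := mn_node_le_l (M := M) (f := f) x (node y c l) r
      rw [e1] at a3
      simp only [Phi]
      rw [e1]
      generalize mn M f (node y c (node x l r)) = m2 at *
      generalize mn M f (node x l r) = m3 at *
      generalize mn M f (node y c l) = m4 at *
      push_cast
      omega
    | Fr.inL y c :: Fr.inL z d :: fs, hn =>
      simp only [List.length_cons] at hn
      have hk : keys (node x l (node y r (node z c d))) =
          keys (node z (node y (node x l r) c) d) := by simp [keys]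
      have hp : plug (Fr.inL y c :: Fr.inL z d :: fs) (node x l r) =
          plug fs (node z (node y (node x l r) c) d) := rfl
      rw [hp] at hs hg hM ⊢
      have hk2 : keys (plug fs (node x l (node y r (node z c d)))) =
          keys (plug fs (node z (node y (node x l r) c) d)) := by
        rw [keys_plug, keys_plug, hk]
      have hm : mn M f (node x l (node y r (node z c d))) =
          mn M f (node z (node y (node x l r) c) d) := by
        simp only [mn, min_assoc, min_comm, min_left_comm]
      obtain ⟨i1, i2⟩ := ih fs.length (by omega) fs rfl l (node y r (node z c d))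
        (by rw [hk2]; exact hs) (by rw [hk2]; exact hg) (by rw [hk2]; exact hM)
      have hs' := hs
      have hg' := hg
      rw [keys_plug] at hs' hg'
      have hs2 : (keys (node z (node y (node x l r) c) d)).Pairwise (· < ·) :=
        (List.pairwise_append.1 (List.pairwise_append.1 hs').1).2.1
      have st := zigzigL (M := M) (f := f) x y z l r c d hs2 (good_infix hs' hg')
        (fun k hk => hM k (by rw [keys_plug]; simp [hk]))
      have pc := phi_plug_congr (M := M) (f := f) fs _ _ hm
      have mc := mn_plug_congr (M := M) (f := f) fs _ _ hm
      refine ⟨by simp only [climb]; rw [i1, hk2], ?_⟩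
      simp only [climb]
      rw [mc] at i2
      rw [hm] at i2
      rw [← hn]
      push_cast
      linarith
    | Fr.inR y c :: Fr.inR z d :: fs, hn =>
      simp only [List.length_cons] at hn
      have hk : keys (node x (node y (node z d c) l) r) =
          keys (node z d (node y c (node x l r))) := by simp [keys]
      have hp : plug (Fr.inR y c :: Fr.inR z d :: fs) (node x l r) =
          plug fs (node z d (node y c (node x l r))) := rfl
      rw [hp] at hs hg hM ⊢
      have hk2 : keys (plug fs (node x (node y (node z d c) l) r)) =
          keys (plug fs (node z d (node y c (node x l r)))) := by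
        rw [keys_plug, keys_plug, hk]
      have hm : mn M f (node x (node y (node z d c) l) r) =
          mn M f (node z d (node y c (node x l r))) := by
        simp only [mn, min_assoc, min_comm, min_left_comm]
      obtain ⟨i1, i2⟩ := ih fs.length (by omega) fs rfl (node y (node z d c) l) r
        (by rw [hk2]; exact hs) (by rw [hk2]; exact hg) (by rw [hk2]; exact hM)
      have hs' := hs
      have hg' := hg
      rw [keys_plug] at hs' hg'
      have hs2 : (keys (node z d (node y c (node x l r)))).Pairwise (· < ·) :=
        (List.pairwise_append.1 (List.pairwise_append.1 hs').1).2.1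
      have st := zigzigR (M := M) (f := f) x y z l r c d hs2 (good_infix hs' hg')
        (fun k hk => hM k (by rw [keys_plug]; simp [hk]))
      have pc := phi_plug_congr (M := M) (f := f) fs _ _ hm
      have mc := mn_plug_congr (M := M) (f := f) fs _ _ hm
      refine ⟨by simp only [climb]; rw [i1, hk2], ?_⟩
      simp only [climb]
      rw [mc] at i2
      rw [hm] at i2
      rw [← hn]
      push_cast
      linarith
    | Fr.inL y c :: Fr.inR z d :: fs, hn =>
      simp only [List.length_cons] at hn
      have hk : keys (node x (node z d l) (node y r c)) =
          keys (node z d (node y (node x l r) c)) := by simp [keys]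
      have hp : plug (Fr.inL y c :: Fr.inR z d :: fs) (node x l r) =
          plug fs (node z d (node y (node x l r) c)) := rfl
      rw [hp] at hs hg hM ⊢
      have hk2 : keys (plug fs (node x (node z d l) (node y r c))) =
          keys (plug fs (node z d (node y (node x l r) c))) := by
        rw [keys_plug, keys_plug, hk]
      have hm : mn M f (node x (node z d l) (node y r c)) =
          mn M f (node z d (node y (node x l r) c)) := by
        simp only [mn, min_assoc, min_comm, min_left_comm]
      obtain ⟨i1, i2⟩ := ih fs.length (by omega) fs rfl (node z d l) (node y r c)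
        (by rw [hk2]; exact hs) (by rw [hk2]; exact hg) (by rw [hk2]; exact hM)
      have hs' := hs
      have hg' := hg
      rw [keys_plug] at hs' hg'
      have hs2 : (keys (node z d (node y (node x l r) c))).Pairwise (· < ·) :=
        (List.pairwise_append.1 (List.pairwise_append.1 hs').1).2.1
      have st := zigzagL (M := M) (f := f) x y z l r c d hs2 (good_infix hs' hg')
        (fun k hk => hM k (by rw [keys_plug]; simp [hk]))
      have pc := phi_plug_congr (M := M) (f := f) fs _ _ hm
      have mc := mn_plug_congr (M := M) (f := f) fs _ _ hm
      refine ⟨by simp only [climb]; rw [i1, hk2], ?_⟩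
      simp only [climb]
      rw [mc] at i2
      rw [hm] at i2
      rw [← hn]
      push_cast
      linarith
    | Fr.inR y c :: Fr.inL z d :: fs, hn =>
      simp only [List.length_cons] at hn
      have hk : keys (node x (node y c l) (node z r d)) =
          keys (node z (node y c (node x l r)) d) := by simp [keys]
      have hp : plug (Fr.inR y c :: Fr.inL z d :: fs) (node x l r) =
          plug fs (node z (node y c (node x l r)) d) := rfl
      rw [hp] at hs hg hM ⊢
      have hk2 : keys (plug fs (node x (node y c l) (node z r d))) =
          keys (plug fs (node z (node y c (node x l r)) d)) := by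
        rw [keys_plug, keys_plug, hk]
      have hm : mn M f (node x (node y c l) (node z r d)) =
          mn M f (node z (node y c (node x l r)) d) := by
        simp only [mn, min_assoc, min_comm, min_left_comm]
      obtain ⟨i1, i2⟩ := ih fs.length (by omega) fs rfl (node y c l) (node z r d)
        (by rw [hk2]; exact hs) (by rw [hk2]; exact hg) (by rw [hk2]; exact hM)
      have hs' := hs
      have hg' := hg
      rw [keys_plug] at hs' hg'
      have hs2 : (keys (node z (node y c (node x l r)) d)).Pairwise (· < ·) :=
        (List.pairwise_append.1 (List.pairwise_append.1 hs').1).2.1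
      have st := zigzagR (M := M) (f := f) x y z l r c d hs2 (good_infix hs' hg')
        (fun k hk => hM k (by rw [keys_plug]; simp [hk]))
      have pc := phi_plug_congr (M := M) (f := f) fs _ _ hm
      have mc := mn_plug_congr (M := M) (f := f) fs _ _ hm
      refine ⟨by simp only [climb]; rw [i1, hk2], ?_⟩
      simp only [climb]
      rw [mc] at i2
      rw [hm] at i2
      rw [← hn]
      push_cast
      linarith

theorem locate_spec (x : ℕ) : ∀ (t : Tr) (fs : List Fr), IsBST t → x ∈ keys t →
    plug (locate x t fs).1 (node x (locate x t fs).2.1 (locate x t fs).2.2) = plug fs t ∧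
      (locate x t fs).1.length = fs.length + dep x t := by
  intro t
  induction t with
  | nil => intro fs _ h; simp [keys] at h
  | node a l r ihl ihr =>
    intro fs hb hx
    simp only [IsBST, keys] at hb
    rw [List.pairwise_append, List.pairwise_cons] at hb
    obtain ⟨hl, ⟨har, hr⟩, hlr⟩ := hb
    simp only [keys, List.mem_append, List.mem_cons] at hx
    simp only [locate, dep]
    by_cases h1 : x = a
    · subst h1; simp
    · rw [if_neg h1, if_neg h1]
      by_cases h2 : x < a
      · rw [if_pos h2, if_pos h2]
        have hxl : x ∈ keys l := by
          rcases hx with h | h | h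
          · exact h
          · exact absurd h h1
          · have := har x h; omega
        obtain ⟨i1, i2⟩ := ihl (Fr.inL a r :: fs) hl hxl
        refine ⟨i1, ?_⟩
        rw [i2]; simp only [List.length_cons]; omega
      · rw [if_neg h2, if_neg h2]
        have hxr : x ∈ keys r := by
          rcases hx with h | h | h
          · have := hlr x h a (by simp); omega
          · exact absurd h h1
          · exact h
        obtain ⟨i1, i2⟩ := ihr (Fr.inR a l :: fs) hr hxr
        refine ⟨i1, ?_⟩
        rw [i2]; simp only [List.length_cons]; omega

/-- after all steps the splayed key is the root -/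
theorem climb_root (x : ℕ) : ∀ (fs : List Fr) (l r : Tr), ∃ l' r', climb x fs l r = node x l' r' := by
  intro fs
  induction hn : fs.length using Nat.strong_induction_on generalizing fs with
  | _ n ih =>
    intro l r
    match fs, hn with
    | [], hn => exact ⟨_, _, rfl⟩
    | [Fr.inL y c], hn => exact ⟨_, _, rfl⟩
    | [Fr.inR y c], hn => exact ⟨_, _, rfl⟩
    | Fr.inL y c :: Fr.inL z d :: fs, hn =>
      simp only [List.length_cons] at hn
      simp only [climb]
      exact ih fs.length (by omega) fs rfl _ _
    | Fr.inR y c :: Fr.inR z d :: fs, hn =>
      simp only [List.length_cons] at hn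
      simp only [climb]
      exact ih fs.length (by omega) fs rfl _ _
    | Fr.inL y c :: Fr.inR z d :: fs, hn =>
      simp only [List.length_cons] at hn
      simp only [climb]
      exact ih fs.length (by omega) fs rfl _ _
    | Fr.inR y c :: Fr.inL z d :: fs, hn =>
      simp only [List.length_cons] at hn
      simp only [climb]
      exact ih fs.length (by omega) fs rfl _ _

theorem splay_root (x : ℕ) (t : Tr) : ∃ l r, splay x t = node x l r := climb_root x _ _ _

/-- The access lemma. -/
theorem access {M : ℕ} {f : ℕ → ℕ} {x : ℕ} {t : Tr} (hb : IsBST t) (hx : x ∈ keys t)
    (hg : Good f (keys t)) (hM : ∀ k ∈ keys t, f k ≤ M) :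
    keys (splay x t) = keys t ∧
    (dep x t : ℤ) + 2 * Phi M f (splay x t) ≤
      2 * Phi M f t + 6 * ((f x : ℤ) - mn M f t) + 1 := by
  obtain ⟨h1, h2⟩ := locate_spec x t [] hb hx
  have h1' : plug (locate x t []).1 (node x (locate x t []).2.1 (locate x t []).2.2) = t := h1
  have h2' : (locate x t []).1.length = dep x t := by simpa using h2
  have hc := climb_pot (M := M) (f := f) x (locate x t []).1 (locate x t []).2.1
    (locate x t []).2.2 (by rw [h1']; exact hb) (by rw [h1']; exact hg) (by rw [h1']; exact hM)
  rw [h1', h2'] at hc
  obtain ⟨c1, c2⟩ := hc
  refine ⟨c1, ?_⟩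
  have hm : mn M f (node x (locate x t []).2.1 (locate x t []).2.2) ≤ f x := by
    simp only [mn]; omega
  have : (mn M f (node x (locate x t []).2.1 (locate x t []).2.2) : ℤ) ≤ f x := by
    exact_mod_cast hm
  unfold splay
  linarith

end Pool.Agent.H581R2.Splay
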