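import Mathlib

set_option autoImplicit false

/-! Binary search trees, splaying, and rotation-based executions (definitions). -/

namespace Pool.Agent.H581R2.Splay

/-- Binary trees with a natural-number key at every node. -/
inductive Tr : Type
  | nil : Tr
  | node (a : ℕ) (l r : Tr) : Tr

open Tr

/-- The keys of a tree in symmetric order. -/
def keys : Tr → List ℕ
  | nil => []
  | node a l r => keys l ++ a :: keys r

/-- A binary search tree: the symmetric order lists the keys strictly increasingly. -/
def IsBST (t : Tr) : Prop := (keys t).Pairwise (· < ·)

/-- Number of nodes. -/
def size : Tr → ℕ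
  | nil => 0
  | node _ l r => size l + size r + 1

/-- The depth of the key `x`: the number of edges on the search path from the root to `x`. -/
def dep (x : ℕ) : Tr → ℕ
  | nil => 0
  | node a l r => if x = a then 0 else if x < a then dep x l + 1 else dep x r + 1

/-- One frame of a path to the root: `inL a r` says that the current node is the left child of a
node with key `a` whose right subtree is `r`; `inR a l` says that it is the right child of a node
with key `a` whose left subtree is `l`. -/
inductive Fr : Type
  | inL (a : ℕ) (r : Tr) : Fr
  | inR (a : ℕ) (l : Tr) : Fr

/-- Put a subtree back under one frame. -/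
def plug1 : Fr → Tr → Tr
  | Fr.inL a r, t => node a t r
  | Fr.inR a l, t => node a l t

/-- Put a subtree back under a path of frames (the nearest frame first). -/
def plug : List Fr → Tr → Tr
  | [], t => t
  | f :: fs, t => plug fs (plug1 f t)

/-- Search for `x`: the frames above the node found (nearest first), and its two subtrees. -/
def locate (x : ℕ) : Tr → List Fr → List Fr × Tr × Tr
  | nil, fs => (fs, nil, nil)
  | node a l r, fs =>
      if x = a then (fs, l, r)
      else if x < a then locate x l (Fr.inL a r :: fs)
      else locate x r (Fr.inR a l :: fs)

/-- The splaying steps, performed until `x` (with current subtrees `l`, `r`) is the root: zig if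
the parent is the root, zig-zig if `x` and its parent are children on the same side, zig-zag
otherwise. -/
def climb (x : ℕ) : List Fr → Tr → Tr → Tr
  | [], l, r => node x l r
  | [Fr.inL y c], l, r => node x l (node y r c)
  | [Fr.inR y c], l, r => node x (node y c l) r
  | Fr.inL y c :: Fr.inL z d :: fs, l, r => climb x fs l (node y r (node z c d))
  | Fr.inR y c :: Fr.inR z d :: fs, l, r => climb x fs (node y (node z d c) l) r
  | Fr.inL y c :: Fr.inR z d :: fs, l, r => climb x fs (node z d l) (node y r c)
  | Fr.inR y c :: Fr.inL z d :: fs, l, r => climb x fs (node y c l) (node z r d)

/-- Splaying `x` in `t`. -/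
def splay (x : ℕ) (t : Tr) : Tr :=
  climb x (locate x t []).1 (locate x t []).2.1 (locate x t []).2.2

/-- `costSplay T X`: the cost of splaying the request sequence `X` starting from `T`; each request
costs one plus the depth of the key. -/
def costSplay : Tr → List ℕ → ℕ
  | _, [] => 0
  | T, x :: X => 1 + dep x T + costSplay (splay x T) X

/-- Rotation at the root's left child. -/
def rotR : Tr → Tr
  | node a (node b A B) C => node b A (node a B C)
  | t => t

/-- Rotation at the root's right child. -/
def rotL : Tr → Tr
  | node a A (node b B C) => node b (node a A B) C
  | t => t

/-- Move the key `x` to the root by rotations at `x` (the move-to-root rule). -/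
def toRoot (x : ℕ) : Tr → Tr
  | nil => nil
  | node a l r =>
      if x = a then node a l r
      else if x < a then rotR (node a (toRoot x l) r)
      else rotL (node a l (toRoot x r))

/-- `Rot t t' s`: `t'` arises from `t` by one rotation, performed inside a subtree with `s` nodes
(the subtree below and including the parent of the rotated node). -/
inductive Rot : Tr → Tr → ℕ → Prop
  | right (a b : ℕ) (A B C : Tr) :
      Rot (node a (node b A B) C) (node b A (node a B C)) (size (node a (node b A B) C))
  | left (a b : ℕ) (A B C : Tr) :
      Rot (node b A (node a B C)) (node a (node b A B) C) (size (node b A (node a B C)))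
  | inl (a : ℕ) (L L' R : Tr) (s : ℕ) : Rot L L' s → Rot (node a L R) (node a L' R) s
  | inr (a : ℕ) (L R R' : Tr) (s : ℕ) : Rot R R' s → Rot (node a L R) (node a L R') s

/-- `Rots t t' w`: `t'` arises from `t` by finitely many rotations; `w` is the sum of the sizes of
the subtrees in which they are performed. -/
inductive Rots : Tr → Tr → ℕ → Prop
  | refl (t : Tr) : Rots t t 0
  | step (t t' t'' : Tr) (s w : ℕ) : Rot t t' s → Rots t' t'' w → Rots t t'' (s + w)

/-- `Run T X c`: there is an execution for `(X, T)` in which at each step the requested key `x` is
searched (cost one plus its depth); then the tree is left alone or `x` is moved to the root by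
rotations at `x` (not charged); then any further rotations are performed, each charged the number
of nodes of the subtree in which it takes place; `c` is the sum of the charges. -/
inductive Run : Tr → List ℕ → ℕ → Prop
  | nil (T : Tr) : Run T [] 0
  | cons (T T' T'' : Tr) (x : ℕ) (X : List ℕ) (w c : ℕ) :
      (T' = T ∨ T' = toRoot x T) → Rots T' T'' w → Run T'' X c →
      Run T (x :: X) (1 + dep x T + w + c)

end Pool.Agent.H581R2.Splay
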