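import Pool.Agent.H581R2.SplayRun

set_option autoImplicit false

/-! Itineraries of a pointer that moves along the edges of a search tree and may rotate the edges
it traverses; move-to-root serves them at constant amortised cost. -/

namespace Pool.Agent.H581R2.Splay

open Tr

/-- `Itin fs l u r X`: the pointer is at the node with key `u`, whose subtrees are `l`, `r` and
above which the frames `fs` lie; `X` is the sequence of the keys visited when the pointer, at each
unit step, stays, or moves to a child or to the parent, the edge traversed being left alone or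
rotated. -/
inductive Itin : List Fr → Tr → ℕ → Tr → List ℕ → Prop
  | nil (fs : List Fr) (l : Tr) (u : ℕ) (r : Tr) : Itin fs l u r []
  | stay (fs : List Fr) (l : Tr) (u : ℕ) (r : Tr) (X : List ℕ) :
      Itin fs l u r X → Itin fs l u r (u :: X)
  | downL (fs : List Fr) (l1 r1 r : Tr) (c u : ℕ) (X : List ℕ) :
      Itin (Fr.inL u r :: fs) l1 c r1 X → Itin fs (node c l1 r1) u r (c :: X)
  | downR (fs : List Fr) (l l1 r1 : Tr) (c u : ℕ) (X : List ℕ) :
      Itin (Fr.inR u l :: fs) l1 c r1 X → Itin fs l u (node c l1 r1) (c :: X)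
  | upL (fs : List Fr) (l r r' : Tr) (a u : ℕ) (X : List ℕ) :
      Itin fs (node u l r) a r' X → Itin (Fr.inL a r' :: fs) l u r (a :: X)
  | upR (fs : List Fr) (l' l r : Tr) (a u : ℕ) (X : List ℕ) :
      Itin fs l' a (node u l r) X → Itin (Fr.inR a l' :: fs) l u r (a :: X)
  | downLRot (fs : List Fr) (l1 r1 r : Tr) (c u : ℕ) (X : List ℕ) :
      Itin fs l1 c (node u r1 r) X → Itin fs (node c l1 r1) u r (c :: X)
  | downRRot (fs : List Fr) (l l1 r1 : Tr) (c u : ℕ) (X : List ℕ) :
      Itin fs (node u l l1) c r1 X → Itin fs l u (node c l1 r1) (c :: X)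
  | upLRot (fs : List Fr) (l r r' : Tr) (a u : ℕ) (X : List ℕ) :
      Itin (Fr.inR u l :: fs) r a r' X → Itin (Fr.inL a r' :: fs) l u r (a :: X)
  | upRRot (fs : List Fr) (l' l r : Tr) (a u : ℕ) (X : List ℕ) :
      Itin (Fr.inL u r :: fs) l' a l X → Itin (Fr.inR a l' :: fs) l u r (a :: X)

/-- insert the key `a` (with left subtree `M`) at position `n` of the left spine -/
def insL : ℕ → Tr → ℕ → Tr → Tr
  | 0, t, a, M => node a M t
  | _ + 1, nil, a, M => node a M nil
  | n + 1, node k l r, a, M => node k (insL n l a M) r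

def insR : ℕ → Tr → ℕ → Tr → Tr
  | 0, t, b, M => node b t M
  | _ + 1, nil, b, M => node b nil M
  | n + 1, node k l r, b, M => node k l (insR n r b M)

def OL : Tr → List (ℕ × Tr × ℕ) → Tr
  | t, [] => t
  | t, (n, A, a) :: c => insL n t a (OL A c)

def OR : Tr → List (ℕ × Tr × ℕ) → Tr
  | t, [] => t
  | t, (n, B, b) :: c => insR n t b (OR B c)

def prd : List (ℕ × Tr × ℕ) → List (ℕ × Tr × ℕ)
  | [] => []
  | (n, A, a) :: c => (n - 1, A, a) :: c

def bump : List (ℕ × Tr × ℕ) → List (ℕ × Tr × ℕ)
  | [] => []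
  | (n, A, a) :: c => (n + 1, A, a) :: c

def tot : List (ℕ × Tr × ℕ) → ℕ
  | [] => 0
  | (n, _, _) :: c => n + tot c

inductive Ctx : List Fr → List (ℕ × Tr × ℕ) → List (ℕ × Tr × ℕ) → Prop
  | nil : Ctx [] [] []
  | inR (fs : List Fr) (cL cR : List (ℕ × Tr × ℕ)) (n a : ℕ) (A : Tr) : Ctx fs cL cR →
      Ctx (Fr.inR a A :: fs) ((n, A, a) :: cL) cR
  | inL (fs : List Fr) (cL cR : List (ℕ × Tr × ℕ)) (n a : ℕ) (A : Tr) : Ctx fs cL cR →
      Ctx (Fr.inL a A :: fs) cL ((n, A, a) :: cR)

theorem ctx_mem {fs : List Fr} {cL cR : List (ℕ × Tr × ℕ)} (h : Ctx fs cL cR) :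
    (∀ e ∈ cL, e.2.2 ∈ pre fs) ∧ (∀ e ∈ cR, e.2.2 ∈ post fs) := by
  induction h with
  | nil => simp
  | inR fs cL cR n a A _ ih =>
    refine ⟨?_, ?_⟩
    · intro e he
      simp only [List.mem_cons] at he
      rcases he with he | he
      · subst he; simp [pre]
      · have := ih.1 e he; simp [pre, this]
    · intro e he; have := ih.2 e he; simpa [post] using this
  | inL fs cL cR n a A _ ih =>
    refine ⟨?_, ?_⟩
    · intro e he; have := ih.1 e he; simpa [pre] using this
    · intro e he
      simp only [List.mem_cons] at he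
      rcases he with he | he
      · subst he; simp [post]
      · have := ih.2 e he; simp [post, this]

theorem ctx_lt {fs : List Fr} {cL cR : List (ℕ × Tr × ℕ)} (h : Ctx fs cL cR) {t : Tr}
    (hb : IsBST (plug fs t)) :
    (∀ e ∈ cL, ∀ k ∈ keys t, e.2.2 < k) ∧ (∀ e ∈ cR, ∀ k ∈ keys t, k < e.2.2) := by
  obtain ⟨h1, h2⟩ := ctx_mem h
  unfold IsBST at hb
  rw [keys_plug, List.pairwise_append, List.pairwise_append] at hb
  obtain ⟨⟨_, _, hA⟩, _, hC⟩ := hb
  refine ⟨fun e he k hk => hA _ (h1 e he) k hk, fun e he k hk => ?_⟩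
  exact hC k (by simp [hk]) _ (h2 e he)

theorem insL_root (a : ℕ) (M : Tr) : ∀ (n : ℕ) (t : Tr), (∀ k ∈ keys t, a < k) →
    toRoot a (insL n t a M) = node a M t ∧ dep a (insL n t a M) ≤ n := by
  intro n
  induction n with
  | zero => intro t _; simp [insL, toRoot, dep]
  | succ n ih =>
    intro t ht
    cases t with
    | nil => simp [insL, toRoot, dep]
    | node k l r =>
      have hk : a < k := ht k (by simp [keys])
      obtain ⟨i1, i2⟩ := ih l (fun j hj => ht j (by simp [keys, hj]))
      refine ⟨?_, ?_⟩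
      · simp only [insL, toRoot]
        rw [if_neg (by omega), if_pos hk, i1]
        rfl
      · simp only [insL]
        rw [dep_l hk]; omega

theorem insR_root (a : ℕ) (M : Tr) : ∀ (n : ℕ) (t : Tr), (∀ k ∈ keys t, k < a) →
    toRoot a (insR n t a M) = node a t M ∧ dep a (insR n t a M) ≤ n := by
  intro n
  induction n with
  | zero => intro t _; simp [insR, toRoot, dep]
  | succ n ih =>
    intro t ht
    cases t with
    | nil => simp [insR, toRoot, dep]
    | node k l r =>
      have hk : k < a := ht k (by simp [keys])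
      obtain ⟨i1, i2⟩ := ih r (fun j hj => ht j (by simp [keys, hj]))
      refine ⟨?_, ?_⟩
      · simp only [insR, toRoot]
        rw [if_neg (by omega), if_neg (by omega), i1]
        rfl
      · simp only [insR]
        rw [dep_r hk]; omega

theorem OL_down (c : ℕ) (l1 r1 : Tr) : ∀ cL : List (ℕ × Tr × ℕ), (∀ e ∈ cL, e.2.2 < c) →
    toRoot c (OL (node c l1 r1) cL) = node c (OL l1 (prd cL)) r1 ∧
      dep c (OL (node c l1 r1) cL) + tot (prd cL) ≤ tot cL + 1 := by
  intro cL h
  cases cL with
  | nil => simp [OL, prd, tot, toRoot, dep]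
  | cons e cL =>
    obtain ⟨n, A, a⟩ := e
    have ha : a < c := h (n, A, a) (by simp)
    cases n with
    | zero =>
      refine ⟨?_, ?_⟩
      · simp only [OL, prd, insL, toRoot]
        rw [if_neg (by omega), if_neg (by omega)]
        simp [rotL, insL]
      · simp only [OL, insL, prd, tot]
        rw [dep_r ha, dep_a]; omega
    | succ n =>
      refine ⟨?_, ?_⟩
      · simp [OL, prd, insL, toRoot]
      · simp only [OL, insL, prd, tot]
        rw [dep_a]; omega

theorem OR_down (c : ℕ) (l1 r1 : Tr) : ∀ cR : List (ℕ × Tr × ℕ), (∀ e ∈ cR, c < e.2.2) →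
    toRoot c (OR (node c l1 r1) cR) = node c l1 (OR r1 (prd cR)) ∧
      dep c (OR (node c l1 r1) cR) + tot (prd cR) ≤ tot cR + 1 := by
  intro cR h
  cases cR with
  | nil => simp [OR, prd, tot, toRoot, dep]
  | cons e cR =>
    obtain ⟨n, A, a⟩ := e
    have ha : c < a := h (n, A, a) (by simp)
    cases n with
    | zero =>
      refine ⟨?_, ?_⟩
      · simp only [OR, prd, insR, toRoot]
        rw [if_neg (by omega), if_pos ha]
        simp [rotR, insR]
      · simp only [OR, insR, prd, tot]
        rw [dep_l ha, dep_a]; omega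
    | succ n =>
      refine ⟨?_, ?_⟩
      · simp [OR, prd, insR, toRoot]
      · simp only [OR, insR, prd, tot]
        rw [dep_a]; omega

theorem OR_bump (u : ℕ) (l r : Tr) (cR : List (ℕ × Tr × ℕ)) :
    OR (node u l r) (bump cR) = node u l (OR r cR) := by
  cases cR with
  | nil => rfl
  | cons e cR => rfl

theorem OL_bump (u : ℕ) (l r : Tr) (cL : List (ℕ × Tr × ℕ)) :
    OL (node u l r) (bump cL) = node u (OL l cL) r := by
  cases cL with
  | nil => rfl
  | cons e cL => rfl

theorem tot_bump (c : List (ℕ × Tr × ℕ)) : tot (bump c) ≤ tot c + 1 := by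
  cases c with
  | nil => simp [bump, tot]
  | cons e c => obtain ⟨n, A, a⟩ := e; simp only [bump, tot]; omega

theorem ctx_bump {fs : List Fr} {cL cR : List (ℕ × Tr × ℕ)} (h : Ctx fs cL cR) :
    Ctx fs (bump cL) cR ∧ Ctx fs cL (bump cR) ∧ Ctx fs (prd cL) cR ∧ Ctx fs cL (prd cR) := by
  induction h with
  | nil => exact ⟨Ctx.nil, Ctx.nil, Ctx.nil, Ctx.nil⟩
  | inR fs cL cR n a A h ih =>
    exact ⟨Ctx.inR _ _ _ _ _ _ h, Ctx.inR _ _ _ _ _ _ ih.2.1, Ctx.inR _ _ _ _ _ _ h,
      Ctx.inR _ _ _ _ _ _ ih.2.2.2⟩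
  | inL fs cL cR n a A h ih =>
    exact ⟨Ctx.inL _ _ _ _ _ _ ih.1, Ctx.inL _ _ _ _ _ _ h, Ctx.inL _ _ _ _ _ _ ih.2.2.1,
      Ctx.inL _ _ _ _ _ _ h⟩

theorem ctx_both {fs : List Fr} {cL cR : List (ℕ × Tr × ℕ)} (h : Ctx fs cL cR) :
    Ctx fs (prd cL) (bump cR) ∧ Ctx fs (bump cL) (prd cR) :=
  ⟨(ctx_bump (ctx_bump h).2.1).2.2.1, (ctx_bump (ctx_bump h).1).2.2.2⟩

/-- one request of the run -/
theorem run_step {O O' : Tr} {y d : ℕ} {X : List ℕ} {c : ℕ} (h1 : toRoot y O = O')
    (h2 : dep y O = d) (h : Run O' X c) : Run O (y :: X) (1 + d + c) := by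
  have := Run.cons O O' O' y X 0 c (Or.inr h1.symm) (Rots.refl _) h
  rw [h2] at this
  simpa using this

theorem itin_run {fs : List Fr} {l : Tr} {u : ℕ} {r : Tr} {X : List ℕ} (h : Itin fs l u r X) :
    ∀ (cL cR : List (ℕ × Tr × ℕ)), Ctx fs cL cR → IsBST (plug fs (node u l r)) →
      ∃ c, Run (node u (OL l cL) (OR r cR)) X c ∧ c ≤ 4 * X.length + tot cL + tot cR := by
  induction h with
  | nil fs l u r =>
    intro cL cR _ _
    exact ⟨0, Run.nil _, by omega⟩
  | stay fs l u r X _ ih =>
    intro cL cR hc hb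
    obtain ⟨c, h1, h2⟩ := ih cL cR hc hb
    refine ⟨1 + 0 + c, run_step (by simp [toRoot]) dep_a h1, ?_⟩
    simp only [List.length_cons]; omega
  | downL fs l1 r1 r c u X _ ih =>
    intro cL cR hc hb
    obtain ⟨g1, g2⟩ := ctx_lt hc hb
    have hcu : c < u := by
      have hb2 : IsBST (node u (node c l1 r1) r) := by
        unfold IsBST at hb ⊢
        rw [keys_plug] at hb
        exact (List.pairwise_append.1 (List.pairwise_append.1 hb).1).2.1
      exact (bst_node hb2).2.2.1 c (by simp [keys])
    obtain ⟨e1, e2⟩ := OL_down c l1 r1 cL (fun e he => g1 e he c (by simp [keys]))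
    obtain ⟨c', h1, h2⟩ := ih (prd cL) ((0, r, u) :: cR) (Ctx.inL _ _ _ _ _ _ (ctx_bump hc).2.2.1)
      hb
    refine ⟨1 + (dep c (OL (node c l1 r1) cL) + 1) + c', run_step ?_ (dep_l hcu) h1, ?_⟩
    · simp only [toRoot]
      rw [if_neg (by omega), if_pos hcu, e1]
      rfl
    · simp only [List.length_cons, tot] at h2 ⊢; omega
  | downR fs l l1 r1 c u X _ ih =>
    intro cL cR hc hb
    obtain ⟨g1, g2⟩ := ctx_lt hc hb
    have hcu : u < c := by
      have hb2 : IsBST (node u l (node c l1 r1)) := by
        unfold IsBST at hb ⊢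
        rw [keys_plug] at hb
        exact (List.pairwise_append.1 (List.pairwise_append.1 hb).1).2.1
      exact (bst_node hb2).2.2.2 c (by simp [keys])
    obtain ⟨e1, e2⟩ := OR_down c l1 r1 cR (fun e he => g2 e he c (by simp [keys]))
    obtain ⟨c', h1, h2⟩ := ih ((0, l, u) :: cL) (prd cR) (Ctx.inR _ _ _ _ _ _ (ctx_bump hc).2.2.2)
      hb
    refine ⟨1 + (dep c (OR (node c l1 r1) cR) + 1) + c', run_step ?_ (dep_r hcu) h1, ?_⟩
    · simp only [toRoot]
      rw [if_neg (by omega), if_neg (by omega), e1]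
      rfl
    · simp only [List.length_cons, tot] at h2 ⊢; omega
  | upL fs l r r' a u X _ ih =>
    intro cL cR hc hb
    obtain ⟨g1, g2⟩ := ctx_lt hc hb
    cases hc with
    | inL fs cL cR n a A hc =>
      have ha : ∀ k ∈ keys (node u l r), k < a := fun k hk => g2 (n, r', a) (by simp) k hk
      have hau : u < a := ha u (by simp [keys])
      obtain ⟨e1, e2⟩ := insR_root a (OR r' cR) n r (fun k hk => ha k (by simp [keys, hk]))
      obtain ⟨c', h1, h2⟩ := ih (bump cL) cR (ctx_bump hc).1 hb
      rw [OL_bump] at h1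
      refine ⟨1 + (dep a (insR n r a (OR r' cR)) + 1) + c',
        run_step ?_ (by simp only [OR]; exact dep_r hau) h1, ?_⟩
      · simp only [OR, toRoot]
        rw [if_neg (by omega), if_neg (by omega), e1]
        rfl
      · have := tot_bump cL
        simp only [List.length_cons, tot] at h2 ⊢; omega
  | upR fs l' l r a u X _ ih =>
    intro cL cR hc hb
    obtain ⟨g1, g2⟩ := ctx_lt hc hb
    cases hc with
    | inR fs cL cR n a A hc =>
      have ha : ∀ k ∈ keys (node u l r), a < k := fun k hk => g1 (n, l', a) (by simp) k hk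
      have hau : a < u := ha u (by simp [keys])
      obtain ⟨e1, e2⟩ := insL_root a (OL l' cL) n l (fun k hk => ha k (by simp [keys, hk]))
      obtain ⟨c', h1, h2⟩ := ih cL (bump cR) (ctx_bump hc).2.1 hb
      rw [OR_bump] at h1
      refine ⟨1 + (dep a (insL n l a (OL l' cL)) + 1) + c',
        run_step ?_ (by simp only [OL]; exact dep_l hau) h1, ?_⟩
      · simp only [OL, toRoot]
        rw [if_neg (by omega), if_pos hau, e1]
        rfl
      · have := tot_bump cR
        simp only [List.length_cons, tot] at h2 ⊢; omega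
  | downLRot fs l1 r1 r c u X _ ih =>
    intro cL cR hc hb
    obtain ⟨g1, g2⟩ := ctx_lt hc hb
    have hcu : c < u := by
      have hb2 : IsBST (node u (node c l1 r1) r) := by
        unfold IsBST at hb ⊢
        rw [keys_plug] at hb
        exact (List.pairwise_append.1 (List.pairwise_append.1 hb).1).2.1
      exact (bst_node hb2).2.2.1 c (by simp [keys])
    obtain ⟨e1, e2⟩ := OL_down c l1 r1 cL (fun e he => g1 e he c (by simp [keys]))
    obtain ⟨c', h1, h2⟩ := ih (prd cL) (bump cR) (ctx_both hc).1 (by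
      unfold IsBST at hb ⊢
      rw [keys_plug] at hb ⊢
      simpa [keys] using hb)
    rw [OR_bump] at h1
    refine ⟨1 + (dep c (OL (node c l1 r1) cL) + 1) + c', run_step ?_ (dep_l hcu) h1, ?_⟩
    · simp only [toRoot]
      rw [if_neg (by omega), if_pos hcu, e1]
      rfl
    · have := tot_bump cR
      simp only [List.length_cons] at h2 ⊢; omega
  | downRRot fs l l1 r1 c u X _ ih =>
    intro cL cR hc hb
    obtain ⟨g1, g2⟩ := ctx_lt hc hb
    have hcu : u < c := by
      have hb2 : IsBST (node u l (node c l1 r1)) := by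
        unfold IsBST at hb ⊢
        rw [keys_plug] at hb
        exact (List.pairwise_append.1 (List.pairwise_append.1 hb).1).2.1
      exact (bst_node hb2).2.2.2 c (by simp [keys])
    obtain ⟨e1, e2⟩ := OR_down c l1 r1 cR (fun e he => g2 e he c (by simp [keys]))
    obtain ⟨c', h1, h2⟩ := ih (bump cL) (prd cR) (ctx_both hc).2 (by
      unfold IsBST at hb ⊢
      rw [keys_plug] at hb ⊢
      simpa [keys] using hb)
    rw [OL_bump] at h1
    refine ⟨1 + (dep c (OR (node c l1 r1) cR) + 1) + c', run_step ?_ (dep_r hcu) h1, ?_⟩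
    · simp only [toRoot]
      rw [if_neg (by omega), if_neg (by omega), e1]
      rfl
    · have := tot_bump cL
      simp only [List.length_cons] at h2 ⊢; omega
  | upLRot fs l r r' a u X _ ih =>
    intro cL cR hc hb
    obtain ⟨g1, g2⟩ := ctx_lt hc hb
    cases hc with
    | inL fs cL cR n a A hc =>
      have ha : ∀ k ∈ keys (node u l r), k < a := fun k hk => g2 (n, r', a) (by simp) k hk
      have hau : u < a := ha u (by simp [keys])
      obtain ⟨e1, e2⟩ := insR_root a (OR r' cR) n r (fun k hk => ha k (by simp [keys, hk]))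
      obtain ⟨c', h1, h2⟩ := ih ((0, l, u) :: cL) cR (Ctx.inR _ _ _ _ _ _ hc) (by
        unfold IsBST at hb ⊢
        rw [keys_plug] at hb ⊢
        simpa [keys, pre, post] using hb)
      refine ⟨1 + (dep a (insR n r a (OR r' cR)) + 1) + c',
        run_step ?_ (by simp only [OR]; exact dep_r hau) h1, ?_⟩
      · simp only [OR, toRoot]
        rw [if_neg (by omega), if_neg (by omega), e1]
        rfl
      · simp only [List.length_cons, tot] at h2 ⊢; omega
  | upRRot fs l' l r a u X _ ih =>
    intro cL cR hc hb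
    obtain ⟨g1, g2⟩ := ctx_lt hc hb
    cases hc with
    | inR fs cL cR n a A hc =>
      have ha : ∀ k ∈ keys (node u l r), a < k := fun k hk => g1 (n, l', a) (by simp) k hk
      have hau : a < u := ha u (by simp [keys])
      obtain ⟨e1, e2⟩ := insL_root a (OL l' cL) n l (fun k hk => ha k (by simp [keys, hk]))
      obtain ⟨c', h1, h2⟩ := ih cL ((0, r, u) :: cR) (Ctx.inL _ _ _ _ _ _ hc) (by
        unfold IsBST at hb ⊢
        rw [keys_plug] at hb ⊢
        simpa [keys, pre, post] using hb)
      refine ⟨1 + (dep a (insL n l a (OL l' cL)) + 1) + c',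
        run_step ?_ (by simp only [OL]; exact dep_l hau) h1, ?_⟩
      · simp only [OL, toRoot]
        rw [if_neg (by omega), if_pos hau, e1]
        rfl
      · simp only [List.length_cons, tot] at h2 ⊢; omega

/-- the keys of an itinerary are keys of the tree -/
theorem itin_keys {fs : List Fr} {l : Tr} {u : ℕ} {r : Tr} {X : List ℕ} (h : Itin fs l u r X) :
    ∀ x ∈ X, x ∈ keys (plug fs (node u l r)) := by
  induction h with
  | nil fs l u r => simp
  | stay fs l u r X _ ih =>
    intro x hx
    simp only [List.mem_cons] at hx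
    rcases hx with hx | hx
    · subst hx; rw [keys_plug]; simp [keys]
    · exact ih x hx
  | downL fs l1 r1 r c u X _ ih =>
    intro x hx
    simp only [List.mem_cons] at hx
    rcases hx with hx | hx
    · subst hx; rw [keys_plug]; simp [keys]
    · exact ih x hx
  | downR fs l l1 r1 c u X _ ih =>
    intro x hx
    simp only [List.mem_cons] at hx
    rcases hx with hx | hx
    · subst hx; rw [keys_plug]; simp [keys]
    · exact ih x hx
  | upL fs l r r' a u X _ ih =>
    intro x hx
    simp only [List.mem_cons] at hx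
    rcases hx with hx | hx
    · subst hx; rw [keys_plug]; simp [post]
    · exact ih x hx
  | upR fs l' l r a u X _ ih =>
    intro x hx
    simp only [List.mem_cons] at hx
    rcases hx with hx | hx
    · subst hx; rw [keys_plug]; simp [pre]
    · exact ih x hx
  | downLRot fs l1 r1 r c u X _ ih =>
    intro x hx
    simp only [List.mem_cons] at hx
    rcases hx with hx | hx
    · subst hx; rw [keys_plug]; simp [keys]
    · have := ih x hx; rw [keys_plug] at this ⊢; simp [keys] at this ⊢; tauto
  | downRRot fs l l1 r1 c u X _ ih =>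
    intro x hx
    simp only [List.mem_cons] at hx
    rcases hx with hx | hx
    · subst hx; rw [keys_plug]; simp [keys]
    · have := ih x hx; rw [keys_plug] at this ⊢; simp [keys] at this ⊢; tauto
  | upLRot fs l r r' a u X _ ih =>
    intro x hx
    simp only [List.mem_cons] at hx
    rcases hx with hx | hx
    · subst hx; rw [keys_plug]; simp [post]
    · have := ih x hx; rw [keys_plug] at this ⊢; simp [keys, pre, post] at this ⊢; tauto
  | upRRot fs l' l r a u X _ ih =>
    intro x hx
    simp only [List.mem_cons] at hx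
    rcases hx with hx | hx
    · subst hx; rw [keys_plug]; simp [pre]
    · have := ih x hx; rw [keys_plug] at this ⊢; simp [keys, pre, post] at this ⊢; tauto

/-- Splaying serves every itinerary from the root at constant amortised cost. -/
theorem splay_itin {u : ℕ} {l r : Tr} {X : List ℕ} (hb : IsBST (node u l r))
    (h : Itin [] l u r X) : costSplay (node u l r) X ≤ 24 * X.length := by
  obtain ⟨c, h1, h2⟩ := itin_run h [] [] Ctx.nil hb
  simp only [tot, OL, OR] at h1 h2
  have := splay_le_run hb (itin_keys h) h1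
  omega

end Pool.Agent.H581R2.Splay
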