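import Pool.Agent.H581R2.SplayAccess

set_option autoImplicit false

/-! Depth functions of binary search trees as level functions; move-to-root; rotations. -/

namespace Pool.Agent.H581R2.Splay

open Tr

theorem bst_node {a : ℕ} {l r : Tr} (h : IsBST (node a l r)) :
    IsBST l ∧ IsBST r ∧ (∀ k ∈ keys l, k < a) ∧ (∀ k ∈ keys r, a < k) := by
  simp only [IsBST, keys] at h
  rw [List.pairwise_append, List.pairwise_cons] at h
  obtain ⟨hl, ⟨har, hr⟩, hlr⟩ := h
  exact ⟨hl, hr, fun k hk => hlr k hk a (by simp), har⟩

theorem bst_mk {a : ℕ} {l r : Tr} (hl : IsBST l) (hr : IsBST r) (h1 : ∀ k ∈ keys l, k < a)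
    (h2 : ∀ k ∈ keys r, a < k) : IsBST (node a l r) := by
  simp only [IsBST, keys]
  rw [List.pairwise_append, List.pairwise_cons]
  refine ⟨hl, ⟨h2, hr⟩, ?_⟩
  intro k hk k' hk'
  simp only [List.mem_cons] at hk'
  rcases hk' with h | h
  · subst h; exact h1 k hk
  · have := h1 k hk; have := h2 k' h; omega

theorem dep_l {a k : ℕ} {l r : Tr} (h : k < a) : dep k (node a l r) = dep k l + 1 := by
  simp only [dep]; rw [if_neg (by omega), if_pos h]

theorem dep_r {a k : ℕ} {l r : Tr} (h : a < k) : dep k (node a l r) = dep k r + 1 := by
  simp only [dep]; rw [if_neg (by omega), if_neg (by omega)]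

theorem dep_a {a : ℕ} {l r : Tr} : dep a (node a l r) = 0 := by
  simp [dep]

/-- the depth function of a binary search tree has no ties -/
theorem good_dep : ∀ (t : Tr), IsBST t → Good (fun k => dep k t) (keys t) := by
  intro t
  induction t with
  | nil => intro _ k hk; simp [keys] at hk
  | node a l r ihl ihr =>
    intro hb k hk k' hk' hlt he
    obtain ⟨hl, hr, h1, h2⟩ := bst_node hb
    simp only [keys, List.mem_append, List.mem_cons] at hk hk'
    simp only at he
    rcases hk with hk | hk | hk <;> rcases hk' with hk' | hk' | hk'
    · rw [dep_l (h1 k hk), dep_l (h1 k' hk')] at he
      obtain ⟨j, hj, j1, j2, j3⟩ := ihl hl k hk k' hk' hlt (by simp only; omega)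
      refine ⟨j, by simp [keys, hj], j1, j2, ?_⟩
      simp only at j3 ⊢
      rw [dep_l (h1 k hk), dep_l (h1 j hj)]; omega
    · subst hk'; rw [dep_l (h1 k hk), dep_a] at he; omega
    · refine ⟨a, by simp [keys], h1 k hk, h2 k' hk', ?_⟩
      simp only
      rw [dep_l (h1 k hk), dep_a]; omega
    · subst hk; have := h1 k' hk'; omega
    · subst hk; subst hk'; omega
    · subst hk; rw [dep_r (h2 k' hk'), dep_a] at he; omega
    · have := h1 k' hk'; have := h2 k hk; omega
    · subst hk'; have := h2 k hk; omega
    · rw [dep_r (h2 k hk), dep_r (h2 k' hk')] at he
      obtain ⟨j, hj, j1, j2, j3⟩ := ihr hr k hk k' hk' hlt (by simp only; omega)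
      refine ⟨j, by simp [keys, hj], j1, j2, ?_⟩
      simp only at j3 ⊢
      rw [dep_r (h2 k hk), dep_r (h2 j hj)]; omega

/-- move-to-root brings the key to the root and preserves the symmetric order -/
theorem toRoot_spec (x : ℕ) : ∀ (t : Tr), IsBST t → x ∈ keys t →
    (∃ l r, toRoot x t = node x l r) ∧ keys (toRoot x t) = keys t := by
  intro t
  induction t with
  | nil => intro _ h; simp [keys] at h
  | node a l r ihl ihr =>
    intro hb hx
    obtain ⟨hl, hr, h1, h2⟩ := bst_node hb
    simp only [keys, List.mem_append, List.mem_cons] at hx
    simp only [toRoot]
    by_cases e : x = a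
    · rw [if_pos e]; subst e; exact ⟨⟨l, r, rfl⟩, rfl⟩
    · rw [if_neg e]
      by_cases e2 : x < a
      · rw [if_pos e2]
        have hxl : x ∈ keys l := by
          rcases hx with h | h | h
          · exact h
          · exact absurd h e
          · have := h2 x h; omega
        obtain ⟨⟨l', r', hh⟩, hk⟩ := ihl hl hxl
        rw [hh] at hk ⊢
        refine ⟨⟨l', node a r' r, rfl⟩, ?_⟩
        simp only [rotR, keys] at hk ⊢
        rw [← hk]; simp
      · rw [if_neg e2]
        have hxr : x ∈ keys r := by
          rcases hx with h | h | h
          · have := h1 x h; omega
          · exact absurd h e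
          · exact h
        obtain ⟨⟨l', r', hh⟩, hk⟩ := ihr hr hxr
        rw [hh] at hk ⊢
        refine ⟨⟨node a l l', r', rfl⟩, ?_⟩
        simp only [rotL, keys] at hk ⊢
        rw [← hk]; simp

theorem toRoot_bst {x : ℕ} {t : Tr} (hb : IsBST t) (hx : x ∈ keys t) : IsBST (toRoot x t) := by
  unfold IsBST; rw [(toRoot_spec x t hb hx).2]; exact hb

/-- the comparison of the depths before and after moving `x` to the root -/
theorem toRoot_cmp (x : ℕ) : ∀ (t : Tr), IsBST t → x ∈ keys t →
    (∀ k ∈ keys t, dep k (toRoot x t) ≤ dep k t + 1) ∧
    (∀ u ∈ keys t, ∀ z ∈ keys t, ((u < x ∧ z < x) ∨ (x < u ∧ x < z)) →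
      (∀ k ∈ keys t, ((u ≤ k ∧ k ≤ z) ∨ (z ≤ k ∧ k ≤ u)) → dep u t ≤ dep k t) →
      dep u (toRoot x t) ≤ dep z (toRoot x t) ∧
      dep z (toRoot x t) + dep u t ≤ dep z t + dep u (toRoot x t)) := by
  intro t
  induction t with
  | nil => intro _ h; simp [keys] at h
  | node a l r ihl ihr =>
    intro hb hx
    obtain ⟨hl, hr, h1, h2⟩ := bst_node hb
    have hx' := hx
    simp only [keys, List.mem_append, List.mem_cons] at hx
    by_cases e : x = a
    · have ht : toRoot x (node a l r) = node a l r := by simp only [toRoot]; rw [if_pos e]
      rw [ht]
      refine ⟨fun k _ => by omega, ?_⟩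
      intro u hu z hz hside hdom
      have := hdom z hz (by omega)
      omega
    · by_cases e2 : x < a
      · have hxl : x ∈ keys l := by
          rcases hx with h | h | h
          · exact h
          · exact absurd h e
          · have := h2 x h; omega
        obtain ⟨⟨L1, R1, hh⟩, hk⟩ := toRoot_spec x l hl hxl
        obtain ⟨i1, i2⟩ := ihl hl hxl
        have ht : toRoot x (node a l r) = node x L1 (node a R1 r) := by
          simp only [toRoot]; rw [if_neg e, if_pos e2, hh]; rfl
        rw [ht]
        rw [hh] at i1 i2 hk
        -- the four kinds of keys
        have d1 : ∀ k ∈ keys l, k < x → dep k (node a l r) = dep k l + 1 ∧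
            dep k (node x L1 (node a R1 r)) = dep k (node x L1 R1) := by
          intro k hk1 hk2
          exact ⟨dep_l (h1 k hk1), by rw [dep_l hk2, dep_l hk2]⟩
        have d2 : ∀ k ∈ keys l, x < k → dep k (node a l r) = dep k l + 1 ∧
            dep k (node x L1 (node a R1 r)) = dep k (node x L1 R1) + 1 := by
          intro k hk1 hk2
          refine ⟨dep_l (h1 k hk1), by rw [dep_r hk2, dep_r hk2, dep_l (h1 k hk1)]⟩
        have d3 : dep a (node a l r) = 0 ∧ dep a (node x L1 (node a R1 r)) = 1 := by
          refine ⟨dep_a, by rw [dep_r e2, dep_a]⟩
        have d4 : ∀ k ∈ keys r, dep k (node a l r) = dep k r + 1 ∧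
            dep k (node x L1 (node a R1 r)) = dep k r + 2 := by
          intro k hk1
          have := h2 k hk1
          refine ⟨dep_r this, by rw [dep_r (by omega), dep_r this]⟩
        have d5 : dep x (node x L1 (node a R1 r)) = 0 := dep_a
        refine ⟨?_, ?_⟩
        · intro k hkk
          simp only [keys, List.mem_append, List.mem_cons] at hkk
          rcases hkk with hkk | hkk | hkk
          · rcases lt_trichotomy k x with h | h | h
            · have := d1 k hkk h; have := i1 k hkk; omega
            · subst h; omega
            · have := d2 k hkk h; have := i1 k hkk; omega
          · subst hkk; omega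
          · have := d4 k hkk; omega
        · intro u hu z hz hside hdom
          rcases hside with ⟨s1, s2⟩ | ⟨s1, s2⟩
          · -- both to the left of x: both in l
            have hul : u ∈ keys l := by
              simp only [keys, List.mem_append, List.mem_cons] at hu
              rcases hu with h | h | h
              · exact h
              · omega
              · have := h2 u h; omega
            have hzl : z ∈ keys l := by
              simp only [keys, List.mem_append, List.mem_cons] at hz
              rcases hz with h | h | h
              · exact h
              · omega
              · have := h2 z h; omega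
            have q := i2 u hul z hzl (Or.inl ⟨s1, s2⟩) (by
              intro k hk1 hk2
              have := hdom k (by simp [keys, hk1]) hk2
              rw [dep_l (h1 u hul), dep_l (h1 k hk1)] at this
              omega)
            have := d1 u hul s1; have := d1 z hzl s2
            omega
          · simp only [keys, List.mem_append, List.mem_cons] at hu hz
            rcases hu with hu | hu | hu
            · rcases hz with hz | hz | hz
              · have q := i2 u hu z hz (Or.inr ⟨s1, s2⟩) (by
                  intro k hk1 hk2
                  have := hdom k (by simp [keys, hk1]) hk2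
                  rw [dep_l (h1 u hu), dep_l (h1 k hk1)] at this
                  omega)
                have := d2 u hu s1; have := d2 z hz s2
                omega
              · subst hz
                have := hdom z (by simp [keys]) (Or.inl ⟨le_of_lt (h1 u hu), le_refl _⟩)
                have := d2 u hu s1
                omega
              · have := hdom a (by simp [keys])
                  (Or.inl ⟨le_of_lt (h1 u hu), le_of_lt (h2 z hz)⟩)
                have := d2 u hu s1
                omega
            · subst hu
              rcases hz with hz | hz | hz
              · have := d2 z hz s2; have := i1 z hz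
                omega
              · subst hz; omega
              · have := d4 z hz; omega
            · rcases hz with hz | hz | hz
              · have := hdom a (by simp [keys])
                  (Or.inr ⟨le_of_lt (h1 z hz), le_of_lt (h2 u hu)⟩)
                have := d4 u hu
                omega
              · subst hz
                have := hdom z (by simp [keys]) (Or.inr ⟨le_refl _, le_of_lt (h2 u hu)⟩)
                have := d4 u hu
                omega
              · have := d4 u hu; have := d4 z hz
                have := hdom z (by simp [keys, hz]) (by omega)
                omega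
      · have e3 : a < x := by omega
        have hxr : x ∈ keys r := by
          rcases hx with h | h | h
          · have := h1 x h; omega
          · exact absurd h e
          · exact h
        obtain ⟨⟨L1, R1, hh⟩, hk⟩ := toRoot_spec x r hr hxr
        obtain ⟨i1, i2⟩ := ihr hr hxr
        have ht : toRoot x (node a l r) = node x (node a l L1) R1 := by
          simp only [toRoot]; rw [if_neg e, if_neg e2, hh]; rfl
        rw [ht]
        rw [hh] at i1 i2 hk
        have d1 : ∀ k ∈ keys r, x < k → dep k (node a l r) = dep k r + 1 ∧
            dep k (node x (node a l L1) R1) = dep k (node x L1 R1) := by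
          intro k hk1 hk2
          exact ⟨dep_r (h2 k hk1), by rw [dep_r hk2, dep_r hk2]⟩
        have d2 : ∀ k ∈ keys r, k < x → dep k (node a l r) = dep k r + 1 ∧
            dep k (node x (node a l L1) R1) = dep k (node x L1 R1) + 1 := by
          intro k hk1 hk2
          refine ⟨dep_r (h2 k hk1), by rw [dep_l hk2, dep_l hk2, dep_r (h2 k hk1)]⟩
        have d3 : dep a (node a l r) = 0 ∧ dep a (node x (node a l L1) R1) = 1 := by
          refine ⟨dep_a, by rw [dep_l e3, dep_a]⟩
        have d4 : ∀ k ∈ keys l, dep k (node a l r) = dep k l + 1 ∧
            dep k (node x (node a l L1) R1) = dep k l + 2 := by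
          intro k hk1
          have := h1 k hk1
          refine ⟨dep_l this, by rw [dep_l (by omega), dep_l this]⟩
        have d5 : dep x (node x (node a l L1) R1) = 0 := dep_a
        refine ⟨?_, ?_⟩
        · intro k hkk
          simp only [keys, List.mem_append, List.mem_cons] at hkk
          rcases hkk with hkk | hkk | hkk
          · have := d4 k hkk; omega
          · subst hkk; omega
          · rcases lt_trichotomy k x with h | h | h
            · have := d2 k hkk h; have := i1 k hkk; omega
            · subst h; omega
            · have := d1 k hkk h; have := i1 k hkk; omega
        · intro u hu z hz hside hdom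
          rcases hside with ⟨s1, s2⟩ | ⟨s1, s2⟩
          · simp only [keys, List.mem_append, List.mem_cons] at hu hz
            rcases hu with hu | hu | hu
            · rcases hz with hz | hz | hz
              · have := d4 u hu; have := d4 z hz
                have := hdom z (by simp [keys, hz]) (by omega)
                omega
              · subst hz
                have := hdom z (by simp [keys]) (Or.inl ⟨le_of_lt (h1 u hu), le_refl _⟩)
                have := d4 u hu
                omega
              · have := hdom a (by simp [keys])
                  (Or.inl ⟨le_of_lt (h1 u hu), le_of_lt (h2 z hz)⟩)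
                have := d4 u hu
                omega
            · subst hu
              rcases hz with hz | hz | hz
              · have := d4 z hz; omega
              · subst hz; omega
              · have := d2 z hz s2; have := i1 z hz
                omega
            · rcases hz with hz | hz | hz
              · have := hdom a (by simp [keys])
                  (Or.inr ⟨le_of_lt (h1 z hz), le_of_lt (h2 u hu)⟩)
                have := d2 u hu s1
                omega
              · subst hz
                have := hdom z (by simp [keys]) (Or.inr ⟨le_refl _, le_of_lt (h2 u hu)⟩)
                have := d2 u hu s1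
                omega
              · have q := i2 u hu z hz (Or.inl ⟨s1, s2⟩) (by
                  intro k hk1 hk2
                  have := hdom k (by simp [keys, hk1]) hk2
                  rw [dep_r (h2 u hu), dep_r (h2 k hk1)] at this
                  omega)
                have := d2 u hu s1; have := d2 z hz s2
                omega
          · have hul : u ∈ keys r := by
              simp only [keys, List.mem_append, List.mem_cons] at hu
              rcases hu with h | h | h
              · have := h1 u h; omega
              · omega
              · exact h
            have hzl : z ∈ keys r := by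
              simp only [keys, List.mem_append, List.mem_cons] at hz
              rcases hz with h | h | h
              · have := h1 z h; omega
              · omega
              · exact h
            have q := i2 u hul z hzl (Or.inr ⟨s1, s2⟩) (by
              intro k hk1 hk2
              have := hdom k (by simp [keys, hk1]) hk2
              rw [dep_r (h2 u hul), dep_r (h2 k hk1)] at this
              omega)
            have := d1 u hul s1; have := d1 z hzl s2
            omega

end Pool.Agent.H581R2.Splay
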