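import Pool.Agent.H581R2.SplayDef

set_option autoImplicit false

/-! A combinatorial access lemma for splaying: the level of a subtree is the least value of a
level function on its keys. -/

namespace Pool.Agent.H581R2.Splay

open Tr

/-- least level in a tree, capped by `M` -/
def mn (M : ℕ) (f : ℕ → ℕ) : Tr → ℕ
  | nil => M
  | node a l r => min (f a) (min (mn M f l) (mn M f r))

/-- the potential -/
def Phi (M : ℕ) (f : ℕ → ℕ) : Tr → ℤ
  | nil => 0
  | node a l r => ((f a : ℤ) - (mn M f (node a l r) : ℤ)) + Phi M f l + Phi M f r

/-- level functions without ties -/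
def Good (f : ℕ → ℕ) (K : List ℕ) : Prop :=
  ∀ k ∈ K, ∀ k' ∈ K, k < k' → f k = f k' → ∃ j ∈ K, k < j ∧ j < k' ∧ f j < f k

theorem mn_le_key {M : ℕ} {f : ℕ → ℕ} {t : Tr} {k : ℕ} (h : k ∈ keys t) : mn M f t ≤ f k := by
  induction t with
  | nil => simp [keys] at h
  | node a l r ihl ihr =>
    simp only [keys, List.mem_append, List.mem_cons] at h
    simp only [mn]
    rcases h with h | h | h
    · have := ihl h; omega
    · subst h; omega
    · have := ihr h; omega

theorem mn_le_M {M : ℕ} {f : ℕ → ℕ} (t : Tr) : mn M f t ≤ M := by
  induction t with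
  | nil => simp [mn]
  | node a l r ihl ihr => simp only [mn]; omega

theorem mn_att {M : ℕ} {f : ℕ → ℕ} {t : Tr} (hM : ∀ k ∈ keys t, f k ≤ M) (hne : t ≠ nil) :
    ∃ k ∈ keys t, f k = mn M f t := by
  induction t with
  | nil => exact absurd rfl hne
  | node a l r ihl ihr =>
    have ha : f a ≤ M := hM a (by simp [keys])
    have hl : mn M f l = M ∨ ∃ k ∈ keys l, f k = mn M f l := by
      by_cases h : l = nil
      · left; subst h; rfl
      · right; exact ihl (fun k hk => hM k (by simp [keys, hk])) h
    have hr : mn M f r = M ∨ ∃ k ∈ keys r, f k = mn M f r := by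
      by_cases h : r = nil
      · left; subst h; rfl
      · right; exact ihr (fun k hk => hM k (by simp [keys, hk])) h
    by_cases h1 : f a ≤ mn M f l ∧ f a ≤ mn M f r
    · exact ⟨a, by simp [keys], by simp only [mn]; omega⟩
    · by_cases h2 : mn M f l ≤ mn M f r
      · have h3 : mn M f l < f a := by omega
        rcases hl with hl | ⟨k, hk, hk2⟩
        · omega
        · exact ⟨k, by simp [keys, hk], by simp only [mn]; omega⟩
      · have h3 : mn M f r < f a := by omega
        rcases hr with hr | ⟨k, hk, hk2⟩
        · omega
        · exact ⟨k, by simp [keys, hk], by simp only [mn]; omega⟩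

theorem mn_node_le_l {M : ℕ} {f : ℕ → ℕ} (a : ℕ) (l r : Tr) : mn M f (node a l r) ≤ mn M f l := by
  simp only [mn]; omega

theorem mn_node_le_r {M : ℕ} {f : ℕ → ℕ} (a : ℕ) (l r : Tr) : mn M f (node a l r) ≤ mn M f r := by
  simp only [mn]; omega

theorem good_infix {f : ℕ → ℕ} {A B C : List ℕ} (hs : (A ++ B ++ C).Pairwise (· < ·))
    (hg : Good f (A ++ B ++ C)) : Good f B := by
  intro k hk k' hk' hlt he
  obtain ⟨j, hj, h1, h2, h3⟩ := hg k (by simp [hk]) k' (by simp [hk']) hlt he
  refine ⟨j, ?_, h1, h2, h3⟩
  rw [List.pairwise_append, List.pairwise_append] at hs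
  obtain ⟨⟨_, _, hAB⟩, _, hC⟩ := hs
  simp only [List.mem_append] at hj
  rcases hj with (hj | hj) | hj
  · have := hAB j hj k hk; omega
  · exact hj
  · have := hC k' (by simp [hk']) j hj; omega

/-- two different keys cannot both attain the least level -/
theorem good_uniq {M : ℕ} {f : ℕ → ℕ} {t : Tr} (hg : Good f (keys t)) {k k' : ℕ}
    (hk : k ∈ keys t) (hk' : k' ∈ keys t) (h1 : f k = mn M f t) (h2 : f k' = mn M f t)
    (hlt : k < k') : False := by
  obtain ⟨j, hj, _, _, h3⟩ := hg k hk k' hk' hlt (h1.trans h2.symm)
  have := mn_le_key (M := M) (f := f) hj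
  omega

/-- the keys to the left, and to the right, of a path of frames -/
def pre : List Fr → List ℕ
  | [] => []
  | Fr.inL _ _ :: fs => pre fs
  | Fr.inR a l :: fs => pre fs ++ (keys l ++ [a])

def post : List Fr → List ℕ
  | [] => []
  | Fr.inL a r :: fs => (a :: keys r) ++ post fs
  | Fr.inR _ _ :: fs => post fs

theorem keys_plug (fs : List Fr) (t : Tr) : keys (plug fs t) = pre fs ++ keys t ++ post fs := by
  induction fs generalizing t with
  | nil => simp [plug, pre, post]
  | cons f fs ih =>
    cases f with
    | inL a r => simp [plug, pre, post, plug1, ih, keys]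
    | inR a l => simp [plug, pre, post, plug1, ih, keys]

theorem mn_plug_congr {M : ℕ} {f : ℕ → ℕ} (fs : List Fr) (t t' : Tr)
    (h : mn M f t = mn M f t') : mn M f (plug fs t) = mn M f (plug fs t') := by
  induction fs generalizing t t' with
  | nil => exact h
  | cons g fs ih =>
    cases g with
    | inL a r => exact ih _ _ (by simp only [plug1, mn, h])
    | inR a l => exact ih _ _ (by simp only [plug1, mn, h])

theorem mn_plug_le {M : ℕ} {f : ℕ → ℕ} (fs : List Fr) (t : Tr) :
    mn M f (plug fs t) ≤ mn M f t := by
  induction fs generalizing t with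
  | nil => exact le_refl _
  | cons g fs ih =>
    cases g with
    | inL a r => exact le_trans (ih _) (by simp only [plug1, mn]; omega)
    | inR a l => exact le_trans (ih _) (by simp only [plug1, mn]; omega)

theorem phi_plug_congr {M : ℕ} {f : ℕ → ℕ} (fs : List Fr) (t t' : Tr)
    (h : mn M f t = mn M f t') :
    Phi M f (plug fs t) - Phi M f t = Phi M f (plug fs t') - Phi M f t' := by
  induction fs generalizing t t' with
  | nil => simp [plug]
  | cons g fs ih =>
    cases g with
    | inL a r =>
      have := ih (plug1 (Fr.inL a r) t) (plug1 (Fr.inL a r) t') (by simp only [plug1, mn, h])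
      simp only [plug]
      simp only [plug1, Phi, mn, h] at this ⊢
      linarith
    | inR a l =>
      have := ih (plug1 (Fr.inR a l) t) (plug1 (Fr.inR a l) t') (by simp only [plug1, mn, h])
      simp only [plug]
      simp only [plug1, Phi, mn, h] at this ⊢
      linarith

/-- one zig-zig step (mirror images included through the shape of the hypotheses) -/
theorem step_aux {M : ℕ} {f : ℕ → ℕ} {t2 : Tr} (hg : Good f (keys t2)) {k1 k2 : ℕ}
    (h1 : k1 ∈ keys t2) (h2 : k2 ∈ keys t2) (hne : k1 ≠ k2) (e1 : f k1 = mn M f t2) :
    mn M f t2 + 1 ≤ f k2 := by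
  have := mn_le_key (M := M) (f := f) h2
  by_contra hcon
  have e2 : f k2 = mn M f t2 := by omega
  rcases lt_or_gt_of_ne hne with h | h
  · exact good_uniq hg h1 h2 e1 e2 h
  · exact good_uniq hg h2 h1 e2 e1 h

/-- if two disjoint subtrees lie in a tree without ties, not both attain its least level -/
theorem disj_aux {M : ℕ} {f : ℕ → ℕ} {t2 u v : Tr} (hg : Good f (keys t2))
    (hM : ∀ k ∈ keys t2, f k ≤ M)
    (hu : ∀ k ∈ keys u, k ∈ keys t2) (hv : ∀ k ∈ keys v, k ∈ keys t2) (hun : u ≠ nil)
    (hvn : v ≠ nil)
    (hd : ∀ k ∈ keys u, ∀ k' ∈ keys v, k ≠ k') : 2 * mn M f t2 + 1 ≤ mn M f u + mn M f v := by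
  obtain ⟨k1, hk1, e1⟩ := mn_att (M := M) (f := f) (fun k hk => hM k (hu k hk)) hun
  obtain ⟨k2, hk2, e2⟩ := mn_att (M := M) (f := f) (fun k hk => hM k (hv k hk)) hvn
  have a1 := mn_le_key (M := M) (f := f) (hu k1 hk1)
  have a2 := mn_le_key (M := M) (f := f) (hv k2 hk2)
  by_cases h : f k1 = mn M f t2
  · have := step_aux hg (hu k1 hk1) (hv k2 hk2) (hd k1 hk1 k2 hk2) h
    omega
  · omega

theorem zigzigL {M : ℕ} {f : ℕ → ℕ} (x y z : ℕ) (l r c d : Tr)
    (hs : (keys (node z (node y (node x l r) c) d)).Pairwise (· < ·))
    (hg : Good f (keys (node z (node y (node x l r) c) d)))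
    (hM : ∀ k ∈ keys (node z (node y (node x l r) c) d), f k ≤ M) :
    2 + 2 * Phi M f (node x l (node y r (node z c d))) ≤
      2 * Phi M f (node z (node y (node x l r) c) d) +
        6 * ((mn M f (node x l r) : ℤ) - mn M f (node z (node y (node x l r) c) d)) := by
  have key := disj_aux (M := M) (u := node x l r) (v := node z c d) hg hM
    (by intro k hk; simp only [keys, List.mem_append, List.mem_cons] at hk ⊢; tauto)
    (by intro k hk; simp only [keys, List.mem_append, List.mem_cons] at hk ⊢; tauto)
    (by simp) (by simp)
    (by
      intro k hk k' hk'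
      have : k < k' := by
        have e : keys (node z (node y (node x l r) c) d) =
            keys (node x l r) ++ (y :: keys (node z c d)) := by simp [keys]
        rw [e, List.pairwise_append] at hs
        exact hs.2.2 k hk k' (by simp [hk'])
      omega)
  have e1 : mn M f (node x l (node y r (node z c d))) = mn M f (node z (node y (node x l r) c) d) := by
    simp only [mn, min_assoc, min_comm, min_left_comm]
  have a1 : mn M f (node z (node y (node x l r) c) d) ≤ mn M f (node y (node x l r) c) := by
    first | exact mn_node_le_l _ _ _ | exact mn_node_le_r _ _ _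
  have a2 : mn M f (node y (node x l r) c) ≤ mn M f (node x l r) := by
    first | exact mn_node_le_l _ _ _ | exact mn_node_le_r _ _ _
  have a3 : mn M f (node z (node y (node x l r) c) d) ≤ mn M f (node y r (node z c d)) := by
    rw [← e1]
    first | exact mn_node_le_l _ _ _ | exact mn_node_le_r _ _ _
  have a4 : mn M f (node z (node y (node x l r) c) d) ≤ mn M f (node z c d) := by
    first
      | (rw [← e1]; exact mn_node_le_l _ _ _)
      | (rw [← e1]; exact mn_node_le_r _ _ _)
      | (refine le_trans a3 ?_; exact mn_node_le_l _ _ _)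
      | (refine le_trans a3 ?_; exact mn_node_le_r _ _ _)
  simp only [Phi]
  rw [e1]
  generalize mn M f (node z (node y (node x l r) c) d) = m2 at *
  generalize mn M f (node y (node x l r) c) = m3 at *
  generalize mn M f (node x l r) = m4 at *
  generalize mn M f (node y r (node z c d)) = m5 at *
  generalize mn M f (node z c d) = m6 at *
  omega

theorem zigzigR {M : ℕ} {f : ℕ → ℕ} (x y z : ℕ) (l r c d : Tr)
    (hs : (keys (node z d (node y c (node x l r)))).Pairwise (· < ·))
    (hg : Good f (keys (node z d (node y c (node x l r)))))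
    (hM : ∀ k ∈ keys (node z d (node y c (node x l r))), f k ≤ M) :
    2 + 2 * Phi M f (node x (node y (node z d c) l) r) ≤
      2 * Phi M f (node z d (node y c (node x l r))) +
        6 * ((mn M f (node x l r) : ℤ) - mn M f (node z d (node y c (node x l r)))) := by
  have key := disj_aux (M := M) (u := node x l r) (v := node z d c) hg hM
    (by intro k hk; simp only [keys, List.mem_append, List.mem_cons] at hk ⊢; tauto)
    (by intro k hk; simp only [keys, List.mem_append, List.mem_cons] at hk ⊢; tauto)
    (by simp) (by simp)
    (by
      intro k hk k' hk'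
      have : k' < k := by
        have e : keys (node z d (node y c (node x l r))) =
            keys (node z d c) ++ (y :: keys (node x l r)) := by simp [keys]
        rw [e, List.pairwise_append] at hs
        exact hs.2.2 k' hk' k (by simp [hk])
      omega)
  have e1 : mn M f (node x (node y (node z d c) l) r) = mn M f (node z d (node y c (node x l r))) := by
    simp only [mn, min_assoc, min_comm, min_left_comm]
  have a1 : mn M f (node z d (node y c (node x l r))) ≤ mn M f (node y c (node x l r)) := by
    first | exact mn_node_le_l _ _ _ | exact mn_node_le_r _ _ _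
  have a2 : mn M f (node y c (node x l r)) ≤ mn M f (node x l r) := by
    first | exact mn_node_le_l _ _ _ | exact mn_node_le_r _ _ _
  have a3 : mn M f (node z d (node y c (node x l r))) ≤ mn M f (node y (node z d c) l) := by
    rw [← e1]
    first | exact mn_node_le_l _ _ _ | exact mn_node_le_r _ _ _
  have a4 : mn M f (node z d (node y c (node x l r))) ≤ mn M f (node z d c) := by
    first
      | (rw [← e1]; exact mn_node_le_l _ _ _)
      | (rw [← e1]; exact mn_node_le_r _ _ _)
      | (refine le_trans a3 ?_; exact mn_node_le_l _ _ _)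
      | (refine le_trans a3 ?_; exact mn_node_le_r _ _ _)
  simp only [Phi]
  rw [e1]
  generalize mn M f (node z d (node y c (node x l r))) = m2 at *
  generalize mn M f (node y c (node x l r)) = m3 at *
  generalize mn M f (node x l r) = m4 at *
  generalize mn M f (node y (node z d c) l) = m5 at *
  generalize mn M f (node z d c) = m6 at *
  omega

theorem zigzagL {M : ℕ} {f : ℕ → ℕ} (x y z : ℕ) (l r c d : Tr)
    (hs : (keys (node z d (node y (node x l r) c))).Pairwise (· < ·))
    (hg : Good f (keys (node z d (node y (node x l r) c))))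
    (hM : ∀ k ∈ keys (node z d (node y (node x l r) c)), f k ≤ M) :
    2 + 2 * Phi M f (node x (node z d l) (node y r c)) ≤
      2 * Phi M f (node z d (node y (node x l r) c)) +
        6 * ((mn M f (node x l r) : ℤ) - mn M f (node z d (node y (node x l r) c))) := by
  have key := disj_aux (M := M) (u := node z d l) (v := node y r c) hg hM
    (by intro k hk; simp only [keys, List.mem_append, List.mem_cons] at hk ⊢; tauto)
    (by intro k hk; simp only [keys, List.mem_append, List.mem_cons] at hk ⊢; tauto)
    (by simp) (by simp)
    (by
      intro k hk k' hk'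
      have : k < k' := by
        have e : keys (node z d (node y (node x l r) c)) =
            keys (node z d l) ++ (x :: keys (node y r c)) := by simp [keys]
        rw [e, List.pairwise_append] at hs
        exact hs.2.2 k hk k' (by simp [hk'])
      omega)
  have e1 : mn M f (node x (node z d l) (node y r c)) = mn M f (node z d (node y (node x l r) c)) := by
    simp only [mn, min_assoc, min_comm, min_left_comm]
  have a1 : mn M f (node z d (node y (node x l r) c)) ≤ mn M f (node y (node x l r) c) := by
    first | exact mn_node_le_l _ _ _ | exact mn_node_le_r _ _ _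
  have a2 : mn M f (node y (node x l r) c) ≤ mn M f (node x l r) := by
    first | exact mn_node_le_l _ _ _ | exact mn_node_le_r _ _ _
  have a3 : mn M f (node z d (node y (node x l r) c)) ≤ mn M f (node y r c) := by
    rw [← e1]
    first | exact mn_node_le_l _ _ _ | exact mn_node_le_r _ _ _
  have a4 : mn M f (node z d (node y (node x l r) c)) ≤ mn M f (node z d l) := by
    first
      | (rw [← e1]; exact mn_node_le_l _ _ _)
      | (rw [← e1]; exact mn_node_le_r _ _ _)
      | (refine le_trans a3 ?_; exact mn_node_le_l _ _ _)
      | (refine le_trans a3 ?_; exact mn_node_le_r _ _ _)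
  simp only [Phi]
  rw [e1]
  generalize mn M f (node z d (node y (node x l r) c)) = m2 at *
  generalize mn M f (node y (node x l r) c) = m3 at *
  generalize mn M f (node x l r) = m4 at *
  generalize mn M f (node y r c) = m5 at *
  generalize mn M f (node z d l) = m6 at *
  omega

theorem zigzagR {M : ℕ} {f : ℕ → ℕ} (x y z : ℕ) (l r c d : Tr)
    (hs : (keys (node z (node y c (node x l r)) d)).Pairwise (· < ·))
    (hg : Good f (keys (node z (node y c (node x l r)) d)))
    (hM : ∀ k ∈ keys (node z (node y c (node x l r)) d), f k ≤ M) :
    2 + 2 * Phi M f (node x (node y c l) (node z r d)) ≤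
      2 * Phi M f (node z (node y c (node x l r)) d) +
        6 * ((mn M f (node x l r) : ℤ) - mn M f (node z (node y c (node x l r)) d)) := by
  have key := disj_aux (M := M) (u := node y c l) (v := node z r d) hg hM
    (by intro k hk; simp only [keys, List.mem_append, List.mem_cons] at hk ⊢; tauto)
    (by intro k hk; simp only [keys, List.mem_append, List.mem_cons] at hk ⊢; tauto)
    (by simp) (by simp)
    (by
      intro k hk k' hk'
      have : k < k' := by
        have e : keys (node z (node y c (node x l r)) d) =
            keys (node y c l) ++ (x :: keys (node z r d)) := by simp [keys]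
        rw [e, List.pairwise_append] at hs
        exact hs.2.2 k hk k' (by simp [hk'])
      omega)
  have e1 : mn M f (node x (node y c l) (node z r d)) = mn M f (node z (node y c (node x l r)) d) := by
    simp only [mn, min_assoc, min_comm, min_left_comm]
  have a1 : mn M f (node z (node y c (node x l r)) d) ≤ mn M f (node y c (node x l r)) := by
    first | exact mn_node_le_l _ _ _ | exact mn_node_le_r _ _ _
  have a2 : mn M f (node y c (node x l r)) ≤ mn M f (node x l r) := by
    first | exact mn_node_le_l _ _ _ | exact mn_node_le_r _ _ _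
  have a3 : mn M f (node z (node y c (node x l r)) d) ≤ mn M f (node y c l) := by
    rw [← e1]
    first | exact mn_node_le_l _ _ _ | exact mn_node_le_r _ _ _
  have a4 : mn M f (node z (node y c (node x l r)) d) ≤ mn M f (node z r d) := by
    first
      | (rw [← e1]; exact mn_node_le_l _ _ _)
      | (rw [← e1]; exact mn_node_le_r _ _ _)
      | (refine le_trans a3 ?_; exact mn_node_le_l _ _ _)
      | (refine le_trans a3 ?_; exact mn_node_le_r _ _ _)
  simp only [Phi]
  rw [e1]
  generalize mn M f (node z (node y c (node x l r)) d) = m2 at *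
  generalize mn M f (node y c (node x l r)) = m3 at *
  generalize mn M f (node x l r) = m4 at *
  generalize mn M f (node y c l) = m5 at *
  generalize mn M f (node z r d) = m6 at *
  omega

end Pool.Agent.H581R2.Splay
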