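import Pool.Agent.H581R2.SplayMTR

set_option autoImplicit false

/-! The potential under changes of the level function, and the comparison theorem. -/

namespace Pool.Agent.H581R2.Splay

open Tr

theorem mn_ge {M : ℕ} {f : ℕ → ℕ} {c : ℕ} : ∀ (t : Tr), (∀ k ∈ keys t, c ≤ f k) → c ≤ M →
    c ≤ mn M f t := by
  intro t
  induction t with
  | nil => intro _ h; simpa [mn] using h
  | node a l r ihl ihr =>
    intro h hM
    simp only [mn]
    have h1 := ihl (fun k hk => h k (by simp [keys, hk])) hM
    have h2 := ihr (fun k hk => h k (by simp [keys, hk])) hM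
    have h3 := h a (by simp [keys])
    omega

/-- the potential of a tree on one side of `x` does not increase when the level function changes
as under a move of `x` to the root -/
theorem phi_mono {M : ℕ} {f g : ℕ → ℕ} {K : List ℕ} (x : ℕ)
    (hcmp : ∀ u ∈ K, ∀ z ∈ K, ((u < x ∧ z < x) ∨ (x < u ∧ x < z)) →
      (∀ k ∈ K, ((u ≤ k ∧ k ≤ z) ∨ (z ≤ k ∧ k ≤ u)) → f u ≤ f k) →
      g u ≤ g z ∧ g z + f u ≤ f z + g u) (hfM : ∀ k ∈ K, f k ≤ M) (hgM : ∀ k ∈ K, g k ≤ M) :
    ∀ (t : Tr) (A C : List ℕ), (A ++ keys t ++ C).Pairwise (· < ·) → A ++ keys t ++ C = K →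
      ((∀ k ∈ keys t, k < x) ∨ (∀ k ∈ keys t, x < k)) → Phi M g t ≤ Phi M f t := by
  intro t
  induction t with
  | nil => intro A C _ _ _; simp [Phi]
  | node a l r ihl ihr =>
    intro A C hs hK hside
    have hl := ihl A (a :: keys r ++ C)
      (by simp only [keys] at hs; simpa [List.append_assoc] using hs)
      (by rw [← hK]; simp [keys])
      (by
        rcases hside with h | h
        · left; intro k hk; exact h k (by simp [keys, hk])
        · right; intro k hk; exact h k (by simp [keys, hk]))
    have hr := ihr (A ++ keys l ++ [a]) C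
      (by simp only [keys] at hs; simpa [List.append_assoc] using hs)
      (by rw [← hK]; simp [keys])
      (by
        rcases hside with h | h
        · left; intro k hk; exact h k (by simp [keys, hk])
        · right; intro k hk; exact h k (by simp [keys, hk]))
    have hin : ∀ k ∈ keys (node a l r), k ∈ K := by
      intro k hk; rw [← hK]; simp [hk]
    obtain ⟨u, hu, eu⟩ := mn_att (M := M) (f := f) (t := node a l r)
      (fun k hk => hfM k (hin k hk)) (by simp)
    have hbet : ∀ z ∈ keys (node a l r), g u ≤ g z ∧ g z + f u ≤ f z + g u := by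
      intro z hz
      refine hcmp u (hin u hu) z (hin z hz) ?_ ?_
      · rcases hside with h | h
        · left; exact ⟨h u hu, h z hz⟩
        · right; exact ⟨h u hu, h z hz⟩
      · intro k hk hb
        have hk2 : k ∈ keys (node a l r) := by
          rw [← hK] at hk
          rw [List.pairwise_append, List.pairwise_append] at hs
          obtain ⟨⟨_, _, hAB⟩, _, hC⟩ := hs
          rw [List.mem_append, List.mem_append] at hk
          rcases hk with (hk | hk) | hk
          · have q1 := hAB k hk u hu
            have q2 := hAB k hk z hz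
            omega
          · exact hk
          · have q1 := hC u (List.mem_append.2 (Or.inr hu)) k hk
            have q2 := hC z (List.mem_append.2 (Or.inr hz)) k hk
            omega
        rw [eu]; exact mn_le_key hk2
    have hmg : g u ≤ mn M g (node a l r) :=
      mn_ge _ (fun k hk => (hbet k hk).1) (hgM u (hin u hu))
    have ha := (hbet a (by simp [keys])).2
    simp only [Phi]
    rw [← eu]
    push_cast
    omega

/-- moving the requested key to the root in the reference tree, when it is the root of the other
tree -/
theorem phi_toRoot {M x : ℕ} {O l r : Tr} (hO : IsBST O) (hx : x ∈ keys O)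
    (hk : keys (node x l r) = keys O) (hM : ∀ k ∈ keys O, dep k O ≤ M)
    (hM' : ∀ k ∈ keys O, dep k (toRoot x O) ≤ M) :
    Phi M (fun k => dep k (toRoot x O)) (node x l r) ≤ Phi M (fun k => dep k O) (node x l r) := by
  obtain ⟨_, hcmp⟩ := toRoot_cmp x O hO hx
  have hb : IsBST (node x l r) := by unfold IsBST; rw [hk]; exact hO
  obtain ⟨hl, hr, h1, h2⟩ := bst_node hb
  have e : keys (node x l r) = keys l ++ x :: keys r := rfl
  have pl := phi_mono (M := M) (f := fun k => dep k O) (g := fun k => dep k (toRoot x O))
    (K := keys O) x hcmp hM hM' l [] (x :: keys r)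
    (by rw [List.nil_append, ← e, hk]; exact hO) (by rw [List.nil_append, ← e, hk])
    (Or.inl h1)
  have pr := phi_mono (M := M) (f := fun k => dep k O) (g := fun k => dep k (toRoot x O))
    (K := keys O) x hcmp hM hM' r (keys l ++ [x]) []
    (by
      have : keys l ++ [x] ++ keys r ++ [] = keys O := by rw [← hk, e]; simp
      rw [this]; exact hO)
    (by rw [← hk, e]; simp) (Or.inr h2)
  obtain ⟨⟨l', r', hh⟩, _⟩ := toRoot_spec x O hO hx
  have z1 : dep x (toRoot x O) = 0 := by rw [hh]; exact dep_a
  have z2 : mn M (fun k => dep k (toRoot x O)) (node x l r) = 0 := by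
    have : mn M (fun k => dep k (toRoot x O)) (node x l r) ≤ dep x (toRoot x O) :=
      mn_le_key (f := fun k => dep k (toRoot x O)) (by simp [keys])
    omega
  have z3 : mn M (fun k => dep k O) (node x l r) ≤ dep x O :=
    mn_le_key (f := fun k => dep k O) (by simp [keys])
  simp only [Phi]
  rw [z2, z1]
  push_cast
  omega

/-- the depths under one rotation: `J` lists the keys of the subtree where it takes place -/
theorem rot_spec {O O' : Tr} {s : ℕ} (h : Rot O O' s) : IsBST O →
    keys O' = keys O ∧ ∃ J : List ℕ, J.length = s ∧ J.Nodup ∧ (∀ k ∈ J, k ∈ keys O) ∧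
      (∀ k ∈ keys O, k ∉ J → dep k O' = dep k O) ∧
      (∀ k ∈ keys O, dep k O' ≤ dep k O + 1 ∧ dep k O ≤ dep k O' + 1) ∧
      (∀ z ∈ keys O, z ∉ J → ∀ k ∈ J, ∃ b ∈ keys O, ((z ≤ b ∧ b ≤ k) ∨ (k ≤ b ∧ b ≤ z)) ∧
        dep b O < dep k O) := by
  have hsz : ∀ t : Tr, (keys t).length = size t := by
    intro t
    induction t with
    | nil => rfl
    | node a l r ihl ihr => simp only [keys, size, List.length_append, List.length_cons]; omega
  have hnd : ∀ t : Tr, IsBST t → (keys t).Nodup := by
    intro t ht
    exact List.Pairwise.imp (fun {a b} hab => by omega) ht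
  induction h with
  | right a b A B C =>
    intro hb
    refine ⟨by simp [keys], keys (node a (node b A B) C), hsz _, hnd _ hb, fun k hk => hk, ?_, ?_,
      ?_⟩
    · intro k hk hk'; exact absurd hk hk'
    · obtain ⟨g1, g2, g3, g4⟩ := bst_node hb
      obtain ⟨g5, g6, g7, g8⟩ := bst_node g1
      have gb : b < a := g3 b (by simp [keys])
      intro k hk
      simp only [keys, List.mem_append, List.mem_cons] at hk
      rcases hk with (hk | hk | hk) | hk | hk
      · have q := g7 k hk
        rw [dep_l q, dep_l (show k < a by omega), dep_l q]; omega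
      · subst hk; rw [dep_a, dep_l gb, dep_a]; omega
      · have q := g8 k hk
        have q2 := g3 k (by simp [keys, hk])
        rw [dep_r q, dep_l q2, dep_l q2, dep_r q]; omega
      · subst hk; rw [dep_r gb, dep_a, dep_a]; omega
      · have q := g4 k hk
        rw [dep_r (show b < k by omega), dep_r q, dep_r q]; omega
    · intro z hz hz' ; exact absurd hz hz'
  | left a b A B C =>
    intro hb
    refine ⟨by simp [keys], keys (node b A (node a B C)), hsz _, hnd _ hb, fun k hk => hk, ?_, ?_,
      ?_⟩
    · intro k hk hk'; exact absurd hk hk'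
    · obtain ⟨g1, g2, g3, g4⟩ := bst_node hb
      obtain ⟨g5, g6, g7, g8⟩ := bst_node g2
      have gb : b < a := g4 a (by simp [keys])
      intro k hk
      simp only [keys, List.mem_append, List.mem_cons] at hk
      rcases hk with hk | hk | (hk | hk | hk)
      · have q := g3 k hk
        rw [dep_l (show k < a by omega), dep_l q, dep_l q]; omega
      · subst hk; rw [dep_l gb, dep_a, dep_a]; omega
      · have q := g7 k hk
        have q2 := g4 k (by simp [keys, hk])
        rw [dep_l q, dep_r q2, dep_r q2, dep_l q]; omega
      · subst hk; rw [dep_a, dep_r gb, dep_a]; omega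
      · have q := g8 k hk
        rw [dep_r q, dep_r (show b < k by omega), dep_r q]; omega
    · intro z hz hz' ; exact absurd hz hz'
  | inl a L L' R s hr ih =>
    intro hb
    obtain ⟨g1, g2, g3, g4⟩ := bst_node hb
    obtain ⟨e, J, j1, j0, j2, j3, j4, j5⟩ := ih g1
    have g3' : ∀ k ∈ keys L', k < a := by rw [e]; exact g3
    refine ⟨by simp [keys, e], J, j1, j0, fun k hk => by simp [keys, j2 k hk], ?_, ?_, ?_⟩
    · intro k hk hk'
      simp only [keys, List.mem_append, List.mem_cons] at hk
      rcases hk with hk | hk | hk
      · rw [dep_l (g3 k hk), dep_l (g3 k hk), j3 k hk hk']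
      · subst hk; rw [dep_a, dep_a]
      · rw [dep_r (g4 k hk), dep_r (g4 k hk)]
    · intro k hk
      simp only [keys, List.mem_append, List.mem_cons] at hk
      rcases hk with hk | hk | hk
      · rw [dep_l (g3 k hk), dep_l (g3 k hk)]; have := j4 k hk; omega
      · subst hk; rw [dep_a, dep_a]; omega
      · rw [dep_r (g4 k hk), dep_r (g4 k hk)]; omega
    · intro z hz hz' k hk
      simp only [keys, List.mem_append, List.mem_cons] at hz
      have hkL := j2 k hk
      rcases hz with hz | hz | hz
      · obtain ⟨b, hb1, hb2, hb3⟩ := j5 z hz hz' k hk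
        refine ⟨b, by simp [keys, hb1], hb2, ?_⟩
        rw [dep_l (g3 b hb1), dep_l (g3 k hkL)]; omega
      · subst hz
        refine ⟨z, by simp [keys], ?_, ?_⟩
        · have := g3 k hkL; omega
        · rw [dep_a, dep_l (g3 k hkL)]; omega
      · refine ⟨a, by simp [keys], ?_, ?_⟩
        · have := g3 k hkL; have := g4 z hz; omega
        · rw [dep_a, dep_l (g3 k hkL)]; omega
  | inr a L R R' s hr ih =>
    intro hb
    obtain ⟨g1, g2, g3, g4⟩ := bst_node hb
    obtain ⟨e, J, j1, j0, j2, j3, j4, j5⟩ := ih g2
    refine ⟨by simp [keys, e], J, j1, j0, fun k hk => by simp [keys, j2 k hk], ?_, ?_, ?_⟩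
    · intro k hk hk'
      simp only [keys, List.mem_append, List.mem_cons] at hk
      rcases hk with hk | hk | hk
      · rw [dep_l (g3 k hk), dep_l (g3 k hk)]
      · subst hk; rw [dep_a, dep_a]
      · rw [dep_r (g4 k hk), dep_r (g4 k hk), j3 k hk hk']
    · intro k hk
      simp only [keys, List.mem_append, List.mem_cons] at hk
      rcases hk with hk | hk | hk
      · rw [dep_l (g3 k hk), dep_l (g3 k hk)]; omega
      · subst hk; rw [dep_a, dep_a]; omega
      · rw [dep_r (g4 k hk), dep_r (g4 k hk)]; have := j4 k hk; omega
    · intro z hz hz' k hk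
      simp only [keys, List.mem_append, List.mem_cons] at hz
      have hkR := j2 k hk
      rcases hz with hz | hz | hz
      · refine ⟨a, by simp [keys], ?_, ?_⟩
        · have := g3 z hz; have := g4 k hkR; omega
        · rw [dep_a, dep_r (g4 k hkR)]; omega
      · subst hz
        refine ⟨z, by simp [keys], ?_, ?_⟩
        · have := g4 k hkR; omega
        · rw [dep_a, dep_r (g4 k hkR)]; omega
      · obtain ⟨b, hb1, hb2, hb3⟩ := j5 z hz hz' k hk
        refine ⟨b, by simp [keys, hb1], hb2, ?_⟩
        rw [dep_r (g4 b hb1), dep_r (g4 k hkR)]; omega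

/-- the potential increases by at most twice the number of keys whose level changes -/
theorem phi_rot {M : ℕ} {f g : ℕ → ℕ} {K J : List ℕ} (hfM : ∀ k ∈ K, f k ≤ M)
    (hgM : ∀ k ∈ K, g k ≤ M)
    (j3 : ∀ k ∈ K, k ∉ J → g k = f k)
    (j4 : ∀ k ∈ K, g k ≤ f k + 1 ∧ f k ≤ g k + 1)
    (j5 : ∀ z ∈ K, z ∉ J → ∀ k ∈ J, ∃ b ∈ K, ((z ≤ b ∧ b ≤ k) ∨ (k ≤ b ∧ b ≤ z)) ∧ f b < f k) :
    ∀ (t : Tr) (A C : List ℕ), (A ++ keys t ++ C).Pairwise (· < ·) → A ++ keys t ++ C = K →
      Phi M g t ≤ Phi M f t + 2 * ((keys t).countP (· ∈ J) : ℤ) := by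
  intro t
  induction t with
  | nil => intro A C _ _; simp [Phi, keys]
  | node a l r ihl ihr =>
    intro A C hs hK
    have hl := ihl A (a :: keys r ++ C)
      (by simp only [keys] at hs; simpa [List.append_assoc] using hs)
      (by rw [← hK]; simp [keys])
    have hr := ihr (A ++ keys l ++ [a]) C
      (by simp only [keys] at hs; simpa [List.append_assoc] using hs)
      (by rw [← hK]; simp [keys])
    have hin : ∀ k ∈ keys (node a l r), k ∈ K := by
      intro k hk; rw [← hK]; simp [hk]
    have hbetween : ∀ k ∈ K, ∀ u ∈ keys (node a l r), ∀ z ∈ keys (node a l r),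
        ((u ≤ k ∧ k ≤ z) ∨ (z ≤ k ∧ k ≤ u)) → k ∈ keys (node a l r) := by
      intro k hk u hu z hz hb
      rw [← hK] at hk
      rw [List.pairwise_append, List.pairwise_append] at hs
      obtain ⟨⟨_, _, hAB⟩, _, hC⟩ := hs
      rw [List.mem_append, List.mem_append] at hk
      rcases hk with (hk | hk) | hk
      · have q1 := hAB k hk u hu
        have q2 := hAB k hk z hz
        omega
      · exact hk
      · have q1 := hC u (List.mem_append.2 (Or.inr hu)) k hk
        have q2 := hC z (List.mem_append.2 (Or.inr hz)) k hk
        omega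
    have hcnt : ((keys (node a l r)).countP (· ∈ J) : ℤ) =
        (keys l).countP (· ∈ J) + (if a ∈ J then 1 else 0) + (keys r).countP (· ∈ J) := by
      simp only [keys, List.countP_append, List.countP_cons, decide_eq_true_eq]
      push_cast
      split_ifs <;> push_cast <;> ring
    rw [hcnt]
    have ha := j4 a (hin a (by simp [keys]))
    by_cases haJ : a ∈ J
    · rw [if_pos haJ]
      have hm : mn M f (node a l r) ≤ mn M g (node a l r) + 1 := by
        have h0 : mn M f (node a l r) - 1 ≤ mn M g (node a l r) := by
          refine mn_ge _ (fun k hk => ?_) ?_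
          · have := (j4 k (hin k hk)).2
            have := mn_le_key (M := M) (f := f) hk
            omega
          · have := mn_le_M (M := M) (f := f) (node a l r); omega
        omega
      simp only [Phi]
      push_cast
      omega
    · rw [if_neg haJ]
      have e := j3 a (hin a (by simp [keys])) haJ
      have hm : mn M f (node a l r) ≤ mn M g (node a l r) := by
        refine mn_ge _ (fun k hk => ?_) (mn_le_M _)
        by_cases hkJ : k ∈ J
        · obtain ⟨b, hb, hb2, hb3⟩ := j5 a (hin a (by simp [keys])) haJ k hkJ
          have hb4 := hbetween b hb a (by simp [keys]) k hk hb2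
          have := mn_le_key (M := M) (f := f) hb4
          have := (j4 k (hin k hk)).2
          omega
        · rw [j3 k (hin k hk) hkJ]; exact mn_le_key hk
      simp only [Phi]
      push_cast
      omega

theorem countP_le_length {J : List ℕ} {K : List ℕ} (hK : K.Nodup) :
    K.countP (· ∈ J) ≤ J.length := by
  rw [List.countP_eq_length_filter]
  have h1 : (K.filter (· ∈ J)).Nodup := hK.filter _
  have h2 : (K.filter (· ∈ J)) ⊆ J := by
    intro k hk
    simpa using (List.mem_filter.1 hk).2
  exact (h1.subperm h2).length_le

theorem dep_le_size (k : ℕ) : ∀ t : Tr, dep k t ≤ size t := by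
  intro t
  induction t with
  | nil => simp [dep, size]
  | node a l r ihl ihr =>
    simp only [dep, size]
    split_ifs <;> omega

theorem size_eq (t : Tr) : size t = (keys t).length := by
  induction t with
  | nil => rfl
  | node a l r ihl ihr => simp only [keys, size, List.length_append, List.length_cons]; omega

theorem phi_rots {O O' : Tr} {w : ℕ} (h : Rots O O' w) : ∀ (S : Tr), IsBST O →
    keys S = keys O → keys O' = keys O ∧
      Phi (size O) (fun k => dep k O') S ≤ Phi (size O) (fun k => dep k O) S + 2 * (w : ℤ) := by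
  induction h with
  | refl t => intro S _ _; simp
  | step t t' t'' s w hr _ ih =>
    intro S hb hk
    obtain ⟨e, J, j1, j0, j2, j3, j4, j5⟩ := rot_spec hr hb
    have hb' : IsBST t' := by unfold IsBST; rw [e]; exact hb
    have hsz : size t' = size t := by rw [size_eq, size_eq, e]
    obtain ⟨e2, h2⟩ := ih S hb' (by rw [e]; exact hk)
    rw [hsz] at h2
    have h3 := phi_rot (M := size t) (f := fun k => dep k t) (g := fun k => dep k t')
      (K := keys t) (J := J) (fun k _ => dep_le_size k t)
      (fun k _ => by have := dep_le_size k t'; omega) j3 j4 j5 S [] []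
      (by
        have e0 : [] ++ keys S ++ [] = keys t := by simp [hk]
        rw [e0]; exact hb) (by simp [hk])
    have h4 : (keys S).countP (· ∈ J) ≤ J.length := by
      refine countP_le_length ?_
      rw [hk]
      exact List.Pairwise.imp (fun {a b} hab => by omega) hb
    refine ⟨by rw [e2, e], ?_⟩
    rw [j1] at h4
    have h5 : ((keys S).countP (· ∈ J) : ℤ) ≤ (s : ℤ) := by exact_mod_cast h4
    push_cast
    linarith

theorem splay_keys {x : ℕ} {t : Tr} (hb : IsBST t) (hx : x ∈ keys t) :
    keys (splay x t) = keys t :=
  (access (M := size t) (f := fun k => dep k t) hb hx (good_dep t hb)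
    (fun k _ => dep_le_size k t)).1

/-- The comparison, with potentials. -/
theorem run_pot {O : Tr} {X : List ℕ} {c : ℕ} (h : Run O X c) : ∀ (S : Tr), IsBST O →
    keys S = keys O → (∀ x ∈ X, x ∈ keys O) →
    (costSplay S X : ℤ) ≤ 6 * (c : ℤ) + 2 * Phi (size O) (fun k => dep k O) S := by
  induction h with
  | nil T =>
    intro S hb hk _
    have hpos : ∀ (M : ℕ) (f : ℕ → ℕ) (t : Tr), 0 ≤ Phi M f t := by
      intro M f t
      induction t with
      | nil => simp [Phi]
      | node a l r ihl ihr =>
        simp only [Phi, mn]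
        have : min (f a) (min (mn M f l) (mn M f r)) ≤ f a := by omega
        have : ((min (f a) (min (mn M f l) (mn M f r)) : ℕ) : ℤ) ≤ (f a : ℤ) := by
          exact_mod_cast this
        linarith
    have := hpos (size T) (fun k => dep k T) S
    simp only [costSplay]
    push_cast
    linarith
  | cons T T' T'' x X w c hT hR _ ih =>
    intro S hb hk hX
    have hx : x ∈ keys T := hX x (by simp)
    have hbS : IsBST S := by unfold IsBST; rw [hk]; exact hb
    have hxS : x ∈ keys S := by rw [hk]; exact hx
    obtain ⟨a1, a2⟩ := access (M := size T) (f := fun k => dep k T) (x := x) (t := S) hbS hxS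
      (by rw [hk]; exact good_dep T hb) (fun k _ => dep_le_size k T)
    -- the step of the reference tree
    have hk1 : keys (splay x S) = keys T := by rw [a1, hk]
    have hT' : IsBST T' ∧ keys T' = keys T ∧
        Phi (size T) (fun k => dep k T') (splay x S) ≤
          Phi (size T) (fun k => dep k T) (splay x S) := by
      rcases hT with h | h
      · subst h; exact ⟨hb, rfl, le_refl _⟩
      · subst h
        refine ⟨toRoot_bst hb hx, (toRoot_spec x T hb hx).2, ?_⟩
        obtain ⟨l, r, hlr⟩ := splay_root x S
        rw [hlr] at hk1 ⊢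
        refine phi_toRoot hb hx hk1 (fun k _ => dep_le_size k T) (fun k _ => ?_)
        have := dep_le_size k (toRoot x T)
        rw [size_eq, (toRoot_spec x T hb hx).2, ← size_eq] at this
        exact this
    obtain ⟨b1, b2, b3⟩ := hT'
    have hs1 : size T' = size T := by rw [size_eq, size_eq, b2]
    obtain ⟨c1, c2⟩ := phi_rots hR (splay x S) b1 (by rw [b2]; exact hk1)
    rw [hs1] at c2
    have b1'' : IsBST T'' := by unfold IsBST; rw [c1]; exact b1
    have hs2 : size T'' = size T := by rw [size_eq, size_eq, c1, b2]
    have hrec := ih (splay x S) b1'' (by rw [c1, b2]; exact hk1)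
      (fun y hy => by rw [c1, b2]; exact hX y (by simp [hy]))
    rw [hs2] at hrec
    have hm : (0 : ℤ) ≤ (mn (size T) (fun k => dep k T) S : ℤ) := by positivity
    simp only [costSplay]
    push_cast
    linarith

theorem phi_self_zero {M : ℕ} : ∀ (t : Tr), IsBST t → size t ≤ M →
    Phi M (fun k => dep k t) t = 0 := by
  -- each subtree of a search tree has its root as its unique key of least depth
  have key : ∀ (t : Tr) (f : ℕ → ℕ) (c : ℕ), IsBST t → (∀ k ∈ keys t, f k = dep k t + c) →
      size t + c ≤ M → Phi M f t = 0 := by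
    intro t
    induction t with
    | nil => intro f c _ _ _; rfl
    | node a l r ihl ihr =>
      intro f c hb hf hM
      obtain ⟨g1, g2, g3, g4⟩ := bst_node hb
      simp only [size] at hM
      have e1 := ihl f (c + 1) g1 (fun k hk => by
        rw [hf k (by simp [keys, hk]), dep_l (g3 k hk)]; omega) (by omega)
      have e2 := ihr f (c + 1) g2 (fun k hk => by
        rw [hf k (by simp [keys, hk]), dep_r (g4 k hk)]; omega) (by omega)
      have ha : f a = c := by rw [hf a (by simp [keys]), dep_a]; omega
      have hm : mn M f (node a l r) = c := by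
        apply le_antisymm
        · have := mn_le_key (M := M) (f := f) (t := node a l r) (k := a) (by simp [keys])
          omega
        · refine mn_ge _ (fun k hk => ?_) (by omega)
          rw [hf k hk]; omega
      simp only [Phi]
      rw [e1, e2, hm, ha]; ring
  intro t hb hM
  exact key t _ 0 hb (fun k _ => by simp) (by omega)

/-- Splaying is at most six times as expensive as every such execution from the same tree. -/
theorem splay_le_run {T : Tr} {X : List ℕ} {c : ℕ} (hb : IsBST T) (hX : ∀ x ∈ X, x ∈ keys T)
    (h : Run T X c) : costSplay T X ≤ 6 * c := by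
  have h1 := run_pot h T hb rfl hX
  rw [phi_self_zero T hb (le_refl _)] at h1
  have : (costSplay T X : ℤ) ≤ ((6 * c : ℕ) : ℤ) := by push_cast; linarith
  exact_mod_cast this

end Pool.Agent.H581R2.Splay
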