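import Pool.Agent.H581R2.Sigma

/-!
# Problems in `NP` are semialgebraic in each dimension
-/

namespace Pool.Agent.H581R2

open Classical Set

/-- in each dimension `X` is semialgebraic, with parameters `w0` -/
def Tame (X : List ℝ → Prop) (s' : ℕ) (w0 : Fin s' → ℝ) : Prop :=
  ∀ n, 1 ≤ n → ∃ p : (Fin s' ⊕ Fin n → ℝ) → Prop, SAP p ∧
    ∀ x : Fin n → ℝ, X (List.ofFn x) ↔ p (Sum.elim w0 x)

lemma SAP_init {s n : ℕ} {Λ : Type} (nd : Λ → Node Λ) (b : Bool) (t : ℕ) (l : Λ) :
    SAP (fun z : Fin s ⊕ Fin n → ℝ => ∃ S', run (List.ofFn fun i => z (Sum.inl i)) nd t l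
      (initSt (List.ofFn fun i => z (Sum.inr i))) = some (b, S')) := by
  let φ : (Fin s ⊕ Fin n → ℝ) → VV s → ℝ := fun z =>
    Sum.elim (fun i => z (Sum.inl i)) (Sum.elim (fun r => if r = 0 then (n : ℝ) else 0)
      (fun a => if h : a < n then z (Sum.inr ⟨a, h⟩) else 0))
  have hφ : ∀ k, PF (fun z => φ z k) := by
    intro k
    rcases k with i | r | a
    · exact PF.coord _
    · by_cases h : r = 0
      · simp only [φ, Sum.elim_inr, Sum.elim_inl, h, if_true]
        exact PF.constNat n
      · simp only [φ, Sum.elim_inr, Sum.elim_inl, h, if_false]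
        exact PF.zero
    · by_cases h : a < n
      · simp only [φ, Sum.elim_inr, h, dif_pos]
        exact PF.coord _
      · simp only [φ, Sum.elim_inr, h, dif_neg, not_false_eq_true]
        exact PF.zero
  refine SAP.congr ((SAP_run nd b t l (fun _ => 0)).preimage hφ) fun z => ?_
  have h1 : stOf (φ z) (fun _ => 0) = initSt (List.ofFn fun i => z (Sum.inr i)) := by
    unfold stOf initSt
    congr 1
    · funext r
      simp [φ]
    · funext a
      by_cases h : a < n
      · simp [φ, h]
      · simp [φ, h]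
  rw [h1]
  rfl

lemma tame_of_verifier (X : List ℝ → Prop) {Λ : Type} (nd : Λ → Node Λ) (l0 : Λ) (cst : List ℝ)
    (q T : ℕ → ℕ)
    (h : ∀ x : List ℝ, x ≠ [] → (X x ↔ ∃ y : List ℝ, y.length = q x.length ∧
      ∃ st, run cst nd (T (x ++ y).length) l0 (initSt (x ++ y)) = some (true, st))) :
    Tame X cst.length cst.get := by
  intro n hn
  let base : (Fin cst.length ⊕ Fin (n + q n) → ℝ) → Prop := fun z =>
    ∃ S', run (List.ofFn fun i => z (Sum.inl i)) nd (T (n + q n)) l0
      (initSt (List.ofFn fun i => z (Sum.inr i))) = some (true, S')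
  let φ : ((Fin cst.length ⊕ Fin n) ⊕ Fin (q n) → ℝ) → (Fin cst.length ⊕ Fin (n + q n) → ℝ) :=
    fun u => Sum.elim (fun i => u (Sum.inl (Sum.inl i)))
      (Fin.append (fun i => u (Sum.inl (Sum.inr i))) (fun i => u (Sum.inr i)))
  have hφ : ∀ k, PF (fun u => φ u k) := by
    intro k
    rcases k with i | i
    · exact PF.coord _
    · refine Fin.addCases (fun i => ?_) (fun i => ?_) i
      · simp only [φ, Sum.elim_inr, Fin.append_left]
        exact PF.coord _
      · simp only [φ, Sum.elim_inr, Fin.append_right]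
        exact PF.coord _
  refine ⟨_, SAP.exists_block (q n) ((SAP_init nd true (T (n + q n)) l0).preimage hφ), ?_⟩
  intro x
  have hx : List.ofFn x ≠ [] := by
    intro h
    have := congrArg List.length h
    simp at this
    omega
  rw [h _ hx]
  constructor
  · rintro ⟨y, hy, st, hst⟩
    rw [List.length_ofFn] at hy
    refine ⟨fun i => y.get (Fin.cast hy.symm i), st, ?_⟩
    have e1 : (List.ofFn fun i => φ (Sum.elim (Sum.elim cst.get x)
        fun i => y.get (Fin.cast hy.symm i)) (Sum.inl i)) = cst := List.ofFn_get cst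
    have e2 : (List.ofFn fun i => φ (Sum.elim (Sum.elim cst.get x)
        fun i => y.get (Fin.cast hy.symm i)) (Sum.inr i)) = List.ofFn x ++ y := by
      have : (fun i => φ (Sum.elim (Sum.elim cst.get x)
        fun i => y.get (Fin.cast hy.symm i)) (Sum.inr i)) =
        Fin.append x (fun i => y.get (Fin.cast hy.symm i)) := rfl
      rw [this, List.ofFn_fin_append]
      congr 1
      apply List.ext_get
      · simp [hy]
      · intro k h1 h2
        simp
    rw [e1, e2]
    have e3 : (List.ofFn x ++ y).length = n + q n := by simp [hy]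
    rw [e3] at hst
    exact hst
  · rintro ⟨y, st, hst⟩
    refine ⟨List.ofFn y, by simp, st, ?_⟩
    have e1 : (List.ofFn fun i => φ (Sum.elim (Sum.elim cst.get x) y) (Sum.inl i)) = cst :=
      List.ofFn_get cst
    have e2 : (List.ofFn fun i => φ (Sum.elim (Sum.elim cst.get x) y) (Sum.inr i)) =
        List.ofFn x ++ List.ofFn y := by
      have : (fun i => φ (Sum.elim (Sum.elim cst.get x) y) (Sum.inr i)) = Fin.append x y := rfl
      rw [this, List.ofFn_fin_append]
    rw [e1, e2] at hst
    have e3 : (List.ofFn x ++ List.ofFn y).length = n + q n := by simp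
    rw [e3]
    exact hst

/-- the good parameters form a countable union of closed sets -/
lemma fs_sol {X : List ℝ → Prop} {s' : ℕ} {w0 : Fin s' → ℝ} (hX : Tame X s' w0) (s p n : ℕ)
    (hn : 1 ≤ n) : Fs {c : Fin s → ℝ | Sol X s p n (List.ofFn c)} := by
  obtain ⟨pX, hpX, hX'⟩ := hX n hn
  -- for a fixed program
  have key : ∀ (N : ℕ) (nd : Fin (N + 1) → Node (Fin (N + 1))),
      Fs {c : Fin s → ℝ | ∀ x : List ℝ, x.length = n →
        ∃ st, run (List.ofFn c) nd ((n + 2) ^ p) 0 (initSt x) = some (decide (X x), st)} := by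
    intro N nd
    let φ1 : ((Fin s ⊕ Fin s') ⊕ Fin n → ℝ) → (Fin s' ⊕ Fin n → ℝ) := fun u =>
      Sum.elim (fun i => u (Sum.inl (Sum.inr i))) (fun i => u (Sum.inr i))
    let φ2 : ((Fin s ⊕ Fin s') ⊕ Fin n → ℝ) → (Fin s ⊕ Fin n → ℝ) := fun u =>
      Sum.elim (fun i => u (Sum.inl (Sum.inl i))) (fun i => u (Sum.inr i))
    have h1 : ∀ k, PF (fun u => φ1 u k) := by
      rintro (i | i) <;> exact PF.coord _
    have h2 : ∀ k, PF (fun u => φ2 u k) := by
      rintro (i | i) <;> exact PF.coord _
    have hS := SAP.forall_block n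
      (((hpX.preimage h1).and ((SAP_init nd true ((n + 2) ^ p) 0).preimage h2)).or
        ((hpX.preimage h1).not.and ((SAP_init nd false ((n + 2) ^ p) 0).preimage h2)))
    have hF := Fs.of_SAP (X := Fin s → ℝ) hS (ψ := fun c => Sum.elim c w0) (by
      rintro (i | i)
      · exact continuous_apply i
      · exact continuous_const)
    refine cast (congrArg Fs ?_) hF
    ext c
    simp only [mem_ofPred_eq]
    constructor
    · intro h x hx
      subst hx
      have hx' : List.ofFn x.get = x := List.ofFn_get x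
      have := h x.get
      have e2 : (List.ofFn fun i => φ2 (Sum.elim (Sum.elim c w0) x.get) (Sum.inl i)) =
        List.ofFn c := rfl
      have e3 : (List.ofFn fun i => φ2 (Sum.elim (Sum.elim c w0) x.get) (Sum.inr i)) = x := hx'
      have e4 : φ1 (Sum.elim (Sum.elim c w0) x.get) = Sum.elim w0 x.get := by
        funext k; rcases k with i | i <;> rfl
      rw [e2, e3, e4, ← hX', hx'] at this
      rcases this with ⟨h3, st, h4⟩ | ⟨h3, st, h4⟩
      · exact ⟨st, by rw [h4]; simp [h3]⟩
      · exact ⟨st, by rw [h4]; simp [h3]⟩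
    · intro h x
      have e2 : (List.ofFn fun i => φ2 (Sum.elim (Sum.elim c w0) x) (Sum.inl i)) =
        List.ofFn c := rfl
      have e3 : (List.ofFn fun i => φ2 (Sum.elim (Sum.elim c w0) x) (Sum.inr i)) =
        List.ofFn x := rfl
      have e4 : φ1 (Sum.elim (Sum.elim c w0) x) = Sum.elim w0 x := by
        funext k; rcases k with i | i <;> rfl
      rw [e2, e3, e4, ← hX']
      obtain ⟨st, hst⟩ := h (List.ofFn x) (by simp)
      by_cases hXx : X (List.ofFn x)
      · left
        exact ⟨hXx, st, by rw [hst]; simp [hXx]⟩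
      · right
        exact ⟨hXx, st, by rw [hst]; simp [hXx]⟩
  have : {c : Fin s → ℝ | Sol X s p n (List.ofFn c)} =
      ⋃ P : {P : Σ N : ℕ, (Fin (N + 1) → Node (Fin (N + 1))) //
        P.1 + 1 ≤ (n + 2) ^ p ∧ ∀ l, (P.2 l).Bd s},
        {c : Fin s → ℝ | ∀ x : List ℝ, x.length = n →
        ∃ st, run (List.ofFn c) P.1.2 ((n + 2) ^ p) 0 (initSt x) = some (decide (X x), st)} := by
    ext c
    simp only [mem_ofPred_eq, mem_iUnion]
    constructor
    · rintro ⟨N, nd, h1, h2, h3⟩
      exact ⟨⟨⟨N, nd⟩, h1, h2⟩, h3⟩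
    · rintro ⟨⟨⟨N, nd⟩, h1, h2⟩, h3⟩
      exact ⟨N, nd, h1, h2, h3⟩
  rw [this]
  exact Fs.iUnion fun P => key P.1.1 P.1.2

end Pool.Agent.H581R2
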