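import Pool.Agent.H581R2.Basic

/-!
# A machine which interprets an infinite program stored in one real constant
-/

namespace Pool.Agent.H581R2

open Classical

/-- operation codes -/
inductive Op : Type
  | next
  | incT
  | rstT
  | goto
  | jmp (r : ℕ)
  | halt (b : Bool)
  | act (a : Act)

/-- bounded operation codes -/
def Op.Bd (s : ℕ) : Op → Prop
  | .jmp r => r < s
  | .act a => a.Bd s
  | _ => True

/-- the codes after `next` of the segment of a node -/
def body : Node ℕ → List Op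
  | .act a l => Op.act a :: (List.replicate l Op.incT ++ [Op.goto])
  | .branch r y n => List.replicate y Op.incT ++
      (Op.jmp r :: Op.rstT :: (List.replicate n Op.incT ++ [Op.goto]))
  | .halt b => [Op.halt b]

lemma body_ne_next (a : Node ℕ) : ∀ o ∈ body a, o ≠ Op.next := by
  intro o ho h
  subst h
  cases a <;> simp [body] at ho

lemma body_bd {s : ℕ} {a : Node ℕ} (ha : a.Bd s) : ∀ o ∈ body a, o.Bd s := by
  intro o ho
  cases a with
  | act a l =>
    simp only [body, List.mem_cons, List.mem_append, List.mem_replicate, List.not_mem_nil,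
      or_false] at ho
    rcases ho with rfl | ⟨_, rfl⟩ | rfl
    · exact ha
    · trivial
    · trivial
  | branch r y n =>
    simp only [body, List.mem_cons, List.mem_append, List.mem_replicate, List.not_mem_nil,
      or_false] at ho
    rcases ho with ⟨_, rfl⟩ | rfl | rfl | ⟨_, rfl⟩ | rfl
    · trivial
    · exact ha
    · trivial
    · trivial
    · trivial
  | halt b =>
    simp only [body, List.mem_cons, List.not_mem_nil, or_false] at ho
    subst ho
    trivial

/-- labels of the universal machine -/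
inductive UL (D : ℕ) : Type
  | ini (k : Fin 6)
  | main
  | sub (d : Fin D)
  | tst (d : Fin D)
  | dec (d : Fin D)
  | ex (d : Fin D)
  | e1 (d : Fin D)
  | e2 (d : Fin D)
  | e3 (d : Fin D)
  | e4 (d : Fin D)
  | e5 (d : Fin D)

instance (D : ℕ) : Finite (UL D) := by
  let f : UL D → (Fin 11 × (Option (Fin D) × Fin 6)) := fun
    | .ini k => (0, none, k)
    | .main => (1, none, 0)
    | .sub d => (2, some d, 0)
    | .tst d => (3, some d, 0)
    | .dec d => (4, some d, 0)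
    | .ex d => (5, some d, 0)
    | .e1 d => (6, some d, 0)
    | .e2 d => (7, some d, 0)
    | .e3 d => (8, some d, 0)
    | .e4 d => (9, some d, 0)
    | .e5 d => (10, some d, 0)
  refine Finite.of_injective f ?_
  intro x y h
  cases x <;> cases y <;> simp [f] at h <;> simp [h]

/-- the flow chart of the universal machine; `b` bounds the registers and constants of the
interpreted program, the registers `b, …, b + 5` are used for control -/
def unode (b : ℕ) (ops : List Op) : UL ops.length → Node (UL ops.length)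
  | .ini 0 => .act (.const b b) (.ini 1)
  | .ini 1 => .act (.const (b + 1) (b + 1)) (.ini 2)
  | .ini 2 => .act (.const (b + 2) (b + 2)) (.ini 3)
  | .ini 3 => .act (.mul (b + 3) 0 0) (.ini 4)
  | .ini 4 => .act (.add (b + 3) (b + 3) 0) (.ini 5)
  | .ini 5 => .act (.sub (b + 4) (b + 1) (b + 1)) .main
  | .main => if h : 0 < ops.length then .act (.mul b (b + 2) b) (.sub ⟨0, h⟩) else .halt false
  | .sub d => .act (.sub (b + 5) b (b + 1)) (.tst d)
  | .tst d => .branch (b + 5) (.dec d) (.ex d)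
  | .dec d => if h : d.1 + 1 < ops.length then .act (.sub b b (b + 1)) (.sub ⟨d.1 + 1, h⟩)
      else .halt false
  | .ex d =>
    match ops[d] with
    | .next => .act (.sub (b + 3) (b + 3) (b + 1)) .main
    | _ => .branch (b + 3) .main (.e1 d)
  | .e1 d =>
    match ops[d] with
    | .next => .halt false
    | .incT => .act (.add (b + 4) (b + 4) (b + 1)) .main
    | .rstT => .act (.sub (b + 4) (b + 4) (b + 4)) .main
    | .goto => .act (.sub (b + 5) (b + 1) (b + 1)) (.e3 d)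
    | .jmp r => .branch r (.e2 d) .main
    | .halt a => .halt a
    | .act a => .act a .main
  | .e2 d => .act (.sub (b + 5) (b + 1) (b + 1)) (.e3 d)
  | .e3 d => .act (.add (b + 3) (b + 4) (b + 5)) (.e4 d)
  | .e4 d => .act (.sub (b + 4) (b + 4) (b + 4)) (.e5 d)
  | .e5 _ => .act (.const b b) .main

/-- relation between the contents `S` of the interpreted program and `σ` of the interpreter -/
structure RC (b : ℕ) (B : ℝ) (S : St) (u K T : ℝ) (σ : St) : Prop where
  reg : ∀ r < b, σ.reg r = S.reg r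
  idx : σ.idx = S.idx
  mem : σ.mem = S.mem
  hu : σ.reg b = u
  h1 : σ.reg (b + 1) = 1
  hB : σ.reg (b + 2) = B
  hK : σ.reg (b + 3) = K
  hT : σ.reg (b + 4) = T

lemma RC.act {b : ℕ} {B : ℝ} {S σ : St} {u K T : ℝ} (h : RC b B S u K T σ) {a : Act}
    (ha : a.Bd b) {c C : List ℝ} (hc : ∀ i < b, C.getD i 0 = c.getD i 0) :
    RC b B (a.run c S) u K T (a.run C σ) := by
  obtain ⟨h1, h2, h3, h4, h5, h6, h7, h8⟩ := h
  have key : ∀ (r : ℕ) (x y : ℝ), r < b → x = y →
      RC b B ⟨Function.update S.reg r y, S.idx, S.mem⟩ u K T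
        ⟨Function.update σ.reg r x, σ.idx, σ.mem⟩ := by
    intro r x y hr hxy
    subst hxy
    refine ⟨fun i hi => ?_, h2, h3, ?_, ?_, ?_, ?_, ?_⟩
    · by_cases hir : i = r
      · subst hir; simp
      · simp [Function.update_of_ne hir, h1 i hi]
    all_goals
      simp only
      rw [Function.update_of_ne (by omega)]
      assumption
  cases a with
  | const r i => exact key r _ _ ha.1 (hc i ha.2)
  | add r x y => exact key r _ _ ha.1 (by rw [h1 x ha.2.1, h1 y ha.2.2])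
  | sub r x y => exact key r _ _ ha.1 (by rw [h1 x ha.2.1, h1 y ha.2.2])
  | mul r x y => exact key r _ _ ha.1 (by rw [h1 x ha.2.1, h1 y ha.2.2])
  | div r x y => exact key r _ _ ha.1 (by rw [h1 x ha.2.1, h1 y ha.2.2])
  | load r i => exact key r _ _ ha.1 (by rw [h2, h3])
  | store i r =>
    refine ⟨h1, h2, ?_, h4, h5, h6, h7, h8⟩
    simp only [Act.run]
    rw [h3, h2, h1 r ha.2]
  | zero i =>
    refine ⟨h1, ?_, h3, h4, h5, h6, h7, h8⟩
    simp only [Act.run]
    rw [h2]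
  | inc i =>
    refine ⟨h1, ?_, h3, h4, h5, h6, h7, h8⟩
    simp only [Act.run]
    rw [h2]

lemma RC.setU {b : ℕ} {B : ℝ} {S σ : St} {u K T : ℝ} (h : RC b B S u K T σ) {x x' : ℝ}
    (hx : x = x') :
    RC b B S x' K T ⟨Function.update σ.reg b x, σ.idx, σ.mem⟩ := by
  subst hx
  obtain ⟨h1, h2, h3, h4, h5, h6, h7, h8⟩ := h
  refine ⟨fun r hr => ?_, h2, h3, by simp, ?_, ?_, ?_, ?_⟩
  all_goals
    simp only
    rw [Function.update_of_ne (by omega)]
  · exact h1 r hr
  all_goals assumption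

lemma RC.setK {b : ℕ} {B : ℝ} {S σ : St} {u K T : ℝ} (h : RC b B S u K T σ) {x x' : ℝ}
    (hx : x = x') :
    RC b B S u x' T ⟨Function.update σ.reg (b + 3) x, σ.idx, σ.mem⟩ := by
  subst hx
  obtain ⟨h1, h2, h3, h4, h5, h6, h7, h8⟩ := h
  refine ⟨fun r hr => ?_, h2, h3, ?_, ?_, ?_, by simp, ?_⟩
  all_goals
    simp only
    rw [Function.update_of_ne (by omega)]
  · exact h1 r hr
  all_goals assumption

lemma RC.setT {b : ℕ} {B : ℝ} {S σ : St} {u K T : ℝ} (h : RC b B S u K T σ) {x x' : ℝ}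
    (hx : x = x') :
    RC b B S u K x' ⟨Function.update σ.reg (b + 4) x, σ.idx, σ.mem⟩ := by
  subst hx
  obtain ⟨h1, h2, h3, h4, h5, h6, h7, h8⟩ := h
  refine ⟨fun r hr => ?_, h2, h3, ?_, ?_, ?_, ?_, by simp⟩
  all_goals
    simp only
    rw [Function.update_of_ne (by omega)]
  · exact h1 r hr
  all_goals assumption

lemma RC.setTmp {b : ℕ} {B : ℝ} {S σ : St} {u K T : ℝ} (h : RC b B S u K T σ) (x : ℝ) :
    RC b B S u K T ⟨Function.update σ.reg (b + 5) x, σ.idx, σ.mem⟩ := by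
  obtain ⟨h1, h2, h3, h4, h5, h6, h7, h8⟩ := h
  refine ⟨fun r hr => ?_, h2, h3, ?_, ?_, ?_, ?_, ?_⟩
  all_goals
    simp only
    rw [Function.update_of_ne (by omega)]
  · exact h1 r hr
  all_goals assumption

section decode

variable {b : ℕ} {ops : List Op} {B : ℝ} {C : List ℝ}

lemma decode_aux {S : St} {u' K T : ℝ} (h0 : 0 ≤ u') (h1 : u' < 1) (d : Fin ops.length) :
    ∀ (m i : ℕ) (hi : i < ops.length), i + m = d.1 → ∀ σ, RC b B S ((m : ℝ) + u') K T σ →
    ∃ σ', RC b B S u' K T σ' ∧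
      Reach C (unode b ops) (3 * m + 2) (.sub ⟨i, hi⟩) σ (.ex d) σ' := by
  intro m
  induction m with
  | zero =>
    intro i hi him σ hσ
    have hid : (⟨i, hi⟩ : Fin ops.length) = d := Fin.ext (by simpa using him)
    rw [hid]
    have e1 : Reach C (unode b ops) 1 (.sub d) σ (.tst d) _ := Reach.act (by rfl) σ
    have r1 : RC b B S (((0 : ℕ) : ℝ) + u') K T ((Act.sub (b + 5) b (b + 1)).run C σ) :=
      hσ.setTmp _
    have hneg : ((Act.sub (b + 5) b (b + 1)).run C σ).reg (b + 5) < 0 := by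
      simp only [Act.run, Function.update_self]
      rw [hσ.hu, hσ.h1]
      push_cast
      linarith
    have e2 : Reach C (unode b ops) 1 (.tst d) _ (.ex d) _ := Reach.no (by rfl) hneg
    refine ⟨_, ?_, (e1.trans e2).mono (by omega)⟩
    simpa using r1
  | succ m ih =>
    intro i hi him σ hσ
    have hi1 : i + 1 < ops.length := by have := d.2; omega
    have e1 : Reach C (unode b ops) 1 (.sub ⟨i, hi⟩) σ (.tst ⟨i, hi⟩) _ := Reach.act (by rfl) σ
    have r1 : RC b B S (((m + 1 : ℕ) : ℝ) + u') K T ((Act.sub (b + 5) b (b + 1)).run C σ) :=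
      hσ.setTmp _
    have hpos : 0 ≤ ((Act.sub (b + 5) b (b + 1)).run C σ).reg (b + 5) := by
      simp only [Act.run, Function.update_self]
      rw [hσ.hu, hσ.h1]
      push_cast
      have : (0 : ℝ) ≤ m := Nat.cast_nonneg m
      linarith
    have e2 : Reach C (unode b ops) 1 (.tst ⟨i, hi⟩) _ (.dec ⟨i, hi⟩) _ :=
      Reach.yes (by rfl) hpos
    have e3 : Reach C (unode b ops) 1 (.dec ⟨i, hi⟩)
        ((Act.sub (b + 5) b (b + 1)).run C σ) (.sub ⟨i + 1, hi1⟩)
        ((Act.sub b b (b + 1)).run C ((Act.sub (b + 5) b (b + 1)).run C σ)) :=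
      Reach.act (by simp [unode, hi1]) _
    have r3 : RC b B S ((m : ℝ) + u') K T
        ((Act.sub b b (b + 1)).run C ((Act.sub (b + 5) b (b + 1)).run C σ)) :=
      r1.setU (by rw [r1.hu, r1.h1]; push_cast; ring)
    obtain ⟨σ', h1', h2'⟩ := ih (i + 1) hi1 (by omega) _ r3
    exact ⟨σ', h1', (((e1.trans e2).trans e3).trans h2').mono (by omega)⟩

lemma decode (hB : B ≠ 0) {S : St} {u' K T : ℝ} (h0 : 0 ≤ u') (h1 : u' < 1)
    (d : Fin ops.length) {σ : St} (hσ : RC b B S (((d.1 : ℝ) + u') / B) K T σ) :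
    ∃ σ', RC b B S u' K T σ' ∧
      Reach C (unode b ops) (3 * ops.length) .main σ (.ex d) σ' := by
  have hpos : 0 < ops.length := lt_of_le_of_lt (Nat.zero_le _) d.2
  have e1 : Reach C (unode b ops) 1 .main σ (.sub ⟨0, hpos⟩) ((Act.mul b (b + 2) b).run C σ) :=
    Reach.act (by simp [unode, hpos]) _
  have r1 : RC b B S ((d.1 : ℝ) + u') K T ((Act.mul b (b + 2) b).run C σ) :=
    hσ.setU (by rw [hσ.hB, hσ.hu, mul_div_cancel₀ _ hB])
  obtain ⟨σ', h1', h2'⟩ := decode_aux (C := C) h0 h1 d d.1 0 hpos (by omega) _ r1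
  exact ⟨σ', h1', (e1.trans h2').mono (by have := d.2; omega)⟩

end decode

/-- standing assumptions on the parameters of the interpreter -/
structure UH (b : ℕ) (ops : List Op) (B : ℝ) (C c : List ℝ) (cd : Op → ℕ) (u0 : ℝ) : Prop where
  hB : B = 2 * (ops.length : ℝ) + 2
  hc : ∀ i < b, C.getD i 0 = c.getD i 0
  hC0 : C.getD b 0 = u0
  hcd : ∀ op : Op, op.Bd b → ∃ h : cd op < ops.length, ops[cd op] = op

section handlers

variable {b : ℕ} {ops : List Op} {B : ℝ} {C c : List ℝ} {cd : Op → ℕ} {u0 : ℝ}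

lemma UH.B_ne (hU : UH b ops B C c cd u0) : B ≠ 0 := by
  rw [hU.hB]
  positivity

/-- cost of one operation code -/
def CO (ops : List Op) : ℕ := 3 * ops.length + 7

lemma op_start (hU : UH b ops B C c cd u0) {S σ : St} {u' K T : ℝ} (h0 : 0 ≤ u') (h1 : u' < 1)
    {o : Op} (ho : o.Bd b) (hσ : RC b B S (((cd o : ℝ) + u') / B) K T σ) :
    ∃ (d : Fin ops.length) (σ' : St), ops[d] = o ∧ RC b B S u' K T σ' ∧
      Reach C (unode b ops) (3 * ops.length) .main σ (.ex d) σ' := by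
  obtain ⟨hlt, hop⟩ := hU.hcd o ho
  obtain ⟨σ', h2, h3⟩ := decode (C := C) hU.B_ne h0 h1 (⟨cd o, hlt⟩ : Fin ops.length) hσ
  exact ⟨⟨cd o, hlt⟩, σ', hop, h2, h3⟩

lemma op_next (hU : UH b ops B C c cd u0) {S σ : St} {u' K T : ℝ} (h0 : 0 ≤ u') (h1 : u' < 1)
    (hσ : RC b B S (((cd Op.next : ℝ) + u') / B) K T σ) :
    ∃ σ', RC b B S u' (K - 1) T σ' ∧ Reach C (unode b ops) (CO ops) .main σ .main σ' := by
  obtain ⟨d, σ1, hd, h2, h3⟩ := op_start hU h0 h1 (o := Op.next) trivial hσ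
  have e : Reach C (unode b ops) 1 (.ex d) σ1 .main ((Act.sub (b + 3) (b + 3) (b + 1)).run C σ1) :=
    Reach.act (by simp only [unode, hd]) _
  exact ⟨_, h2.setK (by rw [h2.hK, h2.h1]), (h3.trans e).mono (by unfold CO; omega)⟩

lemma op_skip (hU : UH b ops B C c cd u0) {S σ : St} {u' K T : ℝ} (h0 : 0 ≤ u') (h1 : u' < 1)
    {o : Op} (ho : o.Bd b) (hne : o ≠ Op.next) (hK : 0 ≤ K)
    (hσ : RC b B S (((cd o : ℝ) + u') / B) K T σ) :
    ∃ σ', RC b B S u' K T σ' ∧ Reach C (unode b ops) (CO ops) .main σ .main σ' := by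
  obtain ⟨d, σ1, hd, h2, h3⟩ := op_start hU h0 h1 ho hσ
  have hn : unode b ops (.ex d) = .branch (b + 3) .main (.e1 d) := by
    simp only [unode, hd]
  have e : Reach C (unode b ops) 1 (.ex d) σ1 .main σ1 := Reach.yes hn (by rw [h2.hK]; exact hK)
  exact ⟨_, h2, (h3.trans e).mono (by unfold CO; omega)⟩

/-- reaching the second stage of an active operation code -/
lemma op_active (hU : UH b ops B C c cd u0) {S σ : St} {u' K T : ℝ} (h0 : 0 ≤ u') (h1 : u' < 1)
    {o : Op} (ho : o.Bd b) (hne : o ≠ Op.next) (hK : K < 0)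
    (hσ : RC b B S (((cd o : ℝ) + u') / B) K T σ) :
    ∃ (d : Fin ops.length) (σ' : St), ops[d] = o ∧ RC b B S u' K T σ' ∧
      Reach C (unode b ops) (3 * ops.length + 1) .main σ (.e1 d) σ' := by
  obtain ⟨d, σ1, hd, h2, h3⟩ := op_start hU h0 h1 ho hσ
  have hn : unode b ops (.ex d) = .branch (b + 3) .main (.e1 d) := by
    simp only [unode, hd]
  have e : Reach C (unode b ops) 1 (.ex d) σ1 (.e1 d) σ1 := Reach.no hn (by rw [h2.hK]; exact hK)
  exact ⟨d, σ1, hd, h2, h3.trans e⟩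

lemma op_incT (hU : UH b ops B C c cd u0) {S σ : St} {u' K T : ℝ} (h0 : 0 ≤ u') (h1 : u' < 1)
    (hK : K < 0) (hσ : RC b B S (((cd Op.incT : ℝ) + u') / B) K T σ) :
    ∃ σ', RC b B S u' K (T + 1) σ' ∧ Reach C (unode b ops) (CO ops) .main σ .main σ' := by
  obtain ⟨d, σ1, hd, h2, h3⟩ := op_active hU h0 h1 (o := Op.incT) trivial (by simp) hK hσ
  have e : Reach C (unode b ops) 1 (.e1 d) σ1 .main ((Act.add (b + 4) (b + 4) (b + 1)).run C σ1) :=
    Reach.act (by simp only [unode, hd]) _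
  exact ⟨_, h2.setT (by rw [h2.hT, h2.h1]), (h3.trans e).mono (by unfold CO; omega)⟩

lemma op_rstT (hU : UH b ops B C c cd u0) {S σ : St} {u' K T : ℝ} (h0 : 0 ≤ u') (h1 : u' < 1)
    (hK : K < 0) (hσ : RC b B S (((cd Op.rstT : ℝ) + u') / B) K T σ) :
    ∃ σ', RC b B S u' K 0 σ' ∧ Reach C (unode b ops) (CO ops) .main σ .main σ' := by
  obtain ⟨d, σ1, hd, h2, h3⟩ := op_active hU h0 h1 (o := Op.rstT) trivial (by simp) hK hσ
  have e : Reach C (unode b ops) 1 (.e1 d) σ1 .main ((Act.sub (b + 4) (b + 4) (b + 4)).run C σ1) :=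
    Reach.act (by simp only [unode, hd]) _
  exact ⟨_, h2.setT (sub_self _), (h3.trans e).mono (by unfold CO; omega)⟩

/-- the common end of all jumps -/
lemma jump_tail (hU : UH b ops B C c cd u0) {S σ : St} {u' K T : ℝ} (d : Fin ops.length)
    (h2 : RC b B S u' K T σ) {l : UL ops.length}
    (hl : unode b ops l = .act (.sub (b + 5) (b + 1) (b + 1)) (.e3 d)) :
    ∃ σ', RC b B S u0 T 0 σ' ∧ Reach C (unode b ops) 4 l σ .main σ' := by
  have e1 : Reach C (unode b ops) 1 l σ (.e3 d) ((Act.sub (b + 5) (b + 1) (b + 1)).run C σ) :=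
    Reach.act hl _
  have r1 : RC b B S u' K T ((Act.sub (b + 5) (b + 1) (b + 1)).run C σ) := h2.setTmp _
  have htmp : ((Act.sub (b + 5) (b + 1) (b + 1)).run C σ).reg (b + 5) = 0 := by
    simp [Act.run]
  have e2 : Reach C (unode b ops) 1 (.e3 d) ((Act.sub (b + 5) (b + 1) (b + 1)).run C σ) (.e4 d)
      ((Act.add (b + 3) (b + 4) (b + 5)).run C ((Act.sub (b + 5) (b + 1) (b + 1)).run C σ)) :=
    Reach.act (by rfl) _
  have r2 : RC b B S u' T T ((Act.add (b + 3) (b + 4) (b + 5)).run C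
      ((Act.sub (b + 5) (b + 1) (b + 1)).run C σ)) :=
    r1.setK (by rw [r1.hT, htmp, add_zero])
  have e3 := Reach.act (c := C) (nd := unode b ops) (l := .e4 d) (l' := .e5 d) (by rfl)
    ((Act.add (b + 3) (b + 4) (b + 5)).run C ((Act.sub (b + 5) (b + 1) (b + 1)).run C σ))
  have r3 := r2.setT (x' := 0) (sub_self (((Act.add (b + 3) (b + 4) (b + 5)).run C
      ((Act.sub (b + 5) (b + 1) (b + 1)).run C σ)).reg (b + 4)))
  have e4 := Reach.act (c := C) (nd := unode b ops) (l := .e5 d) (l' := .main) (by rfl)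
    ((Act.sub (b + 4) (b + 4) (b + 4)).run C ((Act.add (b + 3) (b + 4) (b + 5)).run C
      ((Act.sub (b + 5) (b + 1) (b + 1)).run C σ)))
  exact ⟨_, r3.setU hU.hC0, ((e1.trans e2).trans e3).trans e4⟩

lemma op_goto (hU : UH b ops B C c cd u0) {S σ : St} {u' K T : ℝ} (h0 : 0 ≤ u') (h1 : u' < 1)
    (hK : K < 0) (hσ : RC b B S (((cd Op.goto : ℝ) + u') / B) K T σ) :
    ∃ σ', RC b B S u0 T 0 σ' ∧ Reach C (unode b ops) (CO ops) .main σ .main σ' := by
  obtain ⟨d, σ1, hd, h2, h3⟩ := op_active hU h0 h1 (o := Op.goto) trivial (by simp) hK hσ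
  obtain ⟨σ', h4, h5⟩ := jump_tail hU d h2 (l := .e1 d) (by simp only [unode, hd])
  exact ⟨σ', h4, (h3.trans h5).mono (by unfold CO; omega)⟩

lemma op_jmp_yes (hU : UH b ops B C c cd u0) {S σ : St} {u' K T : ℝ} (h0 : 0 ≤ u') (h1 : u' < 1)
    (hK : K < 0) {r : ℕ} (hr : r < b) (hS : 0 ≤ S.reg r)
    (hσ : RC b B S (((cd (Op.jmp r) : ℝ) + u') / B) K T σ) :
    ∃ σ', RC b B S u0 T 0 σ' ∧ Reach C (unode b ops) (CO ops) .main σ .main σ' := by
  obtain ⟨d, σ1, hd, h2, h3⟩ := op_active hU h0 h1 (o := Op.jmp r) hr (by simp) hK hσ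
  have e : Reach C (unode b ops) 1 (.e1 d) σ1 (.e2 d) σ1 :=
    Reach.yes (r := r) (n := .main) (by simp only [unode, hd]) (by rw [h2.reg r hr]; exact hS)
  obtain ⟨σ', h4, h5⟩ := jump_tail hU d h2 (l := .e2 d) (by rfl)
  exact ⟨σ', h4, ((h3.trans e).trans h5).mono (by unfold CO; omega)⟩

lemma op_jmp_no (hU : UH b ops B C c cd u0) {S σ : St} {u' K T : ℝ} (h0 : 0 ≤ u') (h1 : u' < 1)
    (hK : K < 0) {r : ℕ} (hr : r < b) (hS : S.reg r < 0)
    (hσ : RC b B S (((cd (Op.jmp r) : ℝ) + u') / B) K T σ) :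
    ∃ σ', RC b B S u' K T σ' ∧ Reach C (unode b ops) (CO ops) .main σ .main σ' := by
  obtain ⟨d, σ1, hd, h2, h3⟩ := op_active hU h0 h1 (o := Op.jmp r) hr (by simp) hK hσ
  have e : Reach C (unode b ops) 1 (.e1 d) σ1 .main σ1 :=
    Reach.no (r := r) (y := .e2 d) (by simp only [unode, hd]) (by rw [h2.reg r hr]; exact hS)
  exact ⟨σ1, h2, (h3.trans e).mono (by unfold CO; omega)⟩

lemma op_act (hU : UH b ops B C c cd u0) {S σ : St} {u' K T : ℝ} (h0 : 0 ≤ u') (h1 : u' < 1)
    (hK : K < 0) {a : Act} (ha : a.Bd b)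
    (hσ : RC b B S (((cd (Op.act a) : ℝ) + u') / B) K T σ) :
    ∃ σ', RC b B (a.run c S) u' K T σ' ∧ Reach C (unode b ops) (CO ops) .main σ .main σ' := by
  obtain ⟨d, σ1, hd, h2, h3⟩ := op_active hU h0 h1 (o := Op.act a) ha (by simp) hK hσ
  have e : Reach C (unode b ops) 1 (.e1 d) σ1 .main (a.run C σ1) :=
    Reach.act (by simp only [unode, hd]) _
  exact ⟨_, h2.act ha hU.hc, (h3.trans e).mono (by unfold CO; omega)⟩

lemma op_halt (hU : UH b ops B C c cd u0) {S σ : St} {u' K T : ℝ} (h0 : 0 ≤ u') (h1 : u' < 1)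
    (hK : K < 0) {a : Bool}
    (hσ : RC b B S (((cd (Op.halt a) : ℝ) + u') / B) K T σ) :
    ∃ σ', run C (unode b ops) (CO ops) .main σ = some (a, σ') := by
  obtain ⟨d, σ1, hd, h2, h3⟩ := op_active hU h0 h1 (o := Op.halt a) trivial (by simp) hK hσ
  have := h3.halts (b := a) (by simp only [unode, hd])
  exact ⟨σ1, run_mono' _ _ this (by unfold CO; omega)⟩

end handlers

/-- the real number with given leading digits -/
noncomputable def valL (cd : Op → ℕ) (B : ℝ) (w : List Op) (t : ℝ) : ℝ :=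
  w.foldr (fun o acc => ((cd o : ℝ) + acc) / B) t

lemma valL_cons (cd : Op → ℕ) (B : ℝ) (o : Op) (w : List Op) (t : ℝ) :
    valL cd B (o :: w) t = ((cd o : ℝ) + valL cd B w t) / B := rfl

lemma valL_append (cd : Op → ℕ) (B : ℝ) (w1 w2 : List Op) (t : ℝ) :
    valL cd B (w1 ++ w2) t = valL cd B w1 (valL cd B w2 t) := by
  simp [valL, List.foldr_append]

lemma valL_nil (cd : Op → ℕ) (B : ℝ) (t : ℝ) : valL cd B [] t = t := rfl

section scan

variable {b : ℕ} {ops : List Op} {B : ℝ} {C c : List ℝ} {cd : Op → ℕ} {u0 : ℝ}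

lemma valL_range (hU : UH b ops B C c cd u0) (w : List Op) (hw : ∀ o ∈ w, o.Bd b) {t : ℝ}
    (h0 : 0 ≤ t) (h1 : t ≤ 1 / 2) : 0 ≤ valL cd B w t ∧ valL cd B w t ≤ 1 / 2 := by
  induction w with
  | nil => exact ⟨h0, h1⟩
  | cons o w ih =>
    obtain ⟨i1, i2⟩ := ih fun o' ho' => hw o' (by simp [ho'])
    obtain ⟨hlt, _⟩ := hU.hcd o (hw o (by simp))
    have hBpos : 0 < B := by rw [hU.hB]; positivity
    have hcd : (cd o : ℝ) + 1 ≤ ops.length := by exact_mod_cast hlt
    have hcd0 : (0 : ℝ) ≤ cd o := Nat.cast_nonneg _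
    rw [valL_cons]
    constructor
    · positivity
    · rw [div_le_iff₀ hBpos]
      have := hU.hB
      linarith

lemma skip_list (hU : UH b ops B C c cd u0) (w : List Op) (hw : ∀ o ∈ w, o.Bd b)
    (hne : ∀ o ∈ w, o ≠ Op.next) {t : ℝ} (h0 : 0 ≤ t) (h1 : t ≤ 1 / 2) {S : St} {K T : ℝ}
    (hK : 0 ≤ K) : ∀ σ, RC b B S (valL cd B w t) K T σ →
      ∃ σ', RC b B S t K T σ' ∧ Reach C (unode b ops) (CO ops * w.length) .main σ .main σ' := by
  induction w with
  | nil => exact fun σ hσ => ⟨σ, hσ, Reach.refl _ _ _ _⟩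
  | cons o w ih =>
    intro σ hσ
    have hr := valL_range hU w (fun o' ho' => hw o' (by simp [ho'])) h0 h1
    obtain ⟨σ1, h2, h3⟩ := op_skip hU hr.1 (by linarith [hr.2]) (hw o (by simp)) (hne o (by simp))
      hK hσ
    obtain ⟨σ2, h4, h5⟩ := ih (fun o' ho' => hw o' (by simp [ho']))
      (fun o' ho' => hne o' (by simp [ho'])) σ1 h2
    refine ⟨σ2, h4, (h3.trans h5).mono ?_⟩
    rw [List.length_cons, Nat.mul_succ, Nat.add_comm]

lemma incT_list (hU : UH b ops B C c cd u0) {t : ℝ} (h0 : 0 ≤ t) (h1 : t ≤ 1 / 2) {S : St}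
    {K : ℝ} (hK : K < 0) (n : ℕ) : ∀ (T : ℝ) σ,
      RC b B S (valL cd B (List.replicate n Op.incT) t) K T σ →
      ∃ σ', RC b B S t K (T + n) σ' ∧ Reach C (unode b ops) (CO ops * n) .main σ .main σ' := by
  induction n with
  | zero => exact fun T σ hσ => ⟨σ, by simpa [valL] using hσ, Reach.refl _ _ _ _⟩
  | succ n ih =>
    intro T σ hσ
    have hr := valL_range hU (List.replicate n Op.incT)
      (fun o ho => by rw [List.eq_of_mem_replicate ho]; trivial) h0 h1
    rw [List.replicate_succ, valL_cons] at hσ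
    obtain ⟨σ1, h2, h3⟩ := op_incT hU hr.1 (by linarith [hr.2]) hK hσ
    obtain ⟨σ2, h4, h5⟩ := ih (T + 1) σ1 h2
    refine ⟨σ2, ?_, (h3.trans h5).mono (by rw [Nat.mul_succ, Nat.add_comm])⟩
    have : T + ((n + 1 : ℕ) : ℝ) = T + 1 + n := by push_cast; ring
    rw [this]
    exact h4

/-- the value of a stream of segments -/
structure Stream (b : ℕ) (cd : Op → ℕ) (B : ℝ) (P : ℕ → Node ℕ) (u : ℕ → ℝ) : Prop where
  eq : ∀ l, u l = valL cd B (Op.next :: body (P l)) (u (l + 1))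
  nonneg : ∀ l, 0 ≤ u l
  le : ∀ l, u l ≤ 1 / 2
  bd : ∀ l, (P l).Bd b

lemma scan (hU : UH b ops B C c cd u0) {P : ℕ → Node ℕ} {u : ℕ → ℝ} (hu : Stream b cd B P u)
    {S : St} {T : ℝ} : ∀ (k m : ℕ) (σ : St), RC b B S (u m) (k : ℝ) T σ →
      ∃ σ', RC b B S (valL cd B (body (P (m + k))) (u (m + k + 1))) (-1) T σ' ∧
        Reach C (unode b ops) (CO ops * ∑ i ∈ Finset.range (k + 1), ((body (P (m + i))).length + 1))
          .main σ .main σ' := by
  intro k
  induction k with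
  | zero =>
    intro m σ hσ
    rw [hu.eq m, valL_cons] at hσ
    have hr := valL_range hU (body (P m)) (body_bd (hu.bd m)) (hu.nonneg (m + 1)) (hu.le (m + 1))
    obtain ⟨σ1, h2, h3⟩ := op_next hU hr.1 (by linarith [hr.2]) hσ
    refine ⟨σ1, by simpa using h2, h3.mono ?_⟩
    rw [Finset.sum_range_one]
    exact Nat.le_mul_of_pos_right _ (by omega)
  | succ k ih =>
    intro m σ hσ
    rw [hu.eq m, valL_cons] at hσ
    have hr := valL_range hU (body (P m)) (body_bd (hu.bd m)) (hu.nonneg (m + 1)) (hu.le (m + 1))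
    obtain ⟨σ1, h2, h3⟩ := op_next hU hr.1 (by linarith [hr.2]) hσ
    have hk : ((k + 1 : ℕ) : ℝ) - 1 = k := by push_cast; ring
    rw [hk] at h2
    obtain ⟨σ2, h4, h5⟩ := skip_list hU (body (P m)) (body_bd (hu.bd m)) (body_ne_next _)
      (hu.nonneg (m + 1)) (hu.le (m + 1)) (Nat.cast_nonneg k) σ1 h2
    obtain ⟨σ3, h6, h7⟩ := ih (m + 1) σ2 h4
    refine ⟨σ3, ?_, ((h3.trans h5).trans h7).mono ?_⟩
    · rw [show m + (k + 1) = m + 1 + k by omega]
      exact h6
    · rw [Finset.sum_range_succ' _ (k + 1)]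
      have : ∑ i ∈ Finset.range (k + 1), ((body (P (m + (i + 1)))).length + 1) =
          ∑ i ∈ Finset.range (k + 1), ((body (P (m + 1 + i))).length + 1) :=
        Finset.sum_congr rfl fun i _ => by rw [show m + (i + 1) = m + 1 + i by omega]
      rw [this, show m + 0 = m from rfl, Nat.mul_add, Nat.mul_add, Nat.mul_one]
      omega

/-- cost of interpreting one node -/
def cost (ops : List Op) (P : ℕ → Node ℕ) (l : ℕ) : ℕ :=
  CO ops * ∑ i ∈ Finset.range (l + 1), ((body (P i)).length + 1) +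
    CO ops * ((body (P l)).length + 1)

lemma sim_act (hU : UH b ops B C c cd u0) {P : ℕ → Node ℕ} {u : ℕ → ℝ}
    (hu : Stream b cd B P u) (hu0 : u 0 = u0) {S σ : St} {l l' : ℕ} {a : Act}
    (hP : P l = .act a l') (hσ : RC b B S (u 0) (l : ℝ) 0 σ) :
    ∃ σ', RC b B (a.run c S) (u 0) (l' : ℝ) 0 σ' ∧
      Reach C (unode b ops) (cost ops P l) .main σ .main σ' := by
  obtain ⟨σ1, h1, h2⟩ := scan hU hu l 0 σ hσ
  simp only [Nat.zero_add] at h1 h2
  have hneg : (-1 : ℝ) < 0 := by norm_num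
  have hbd : (Node.act a l').Bd b := hP ▸ hu.bd l
  have hn := hu.nonneg (l + 1)
  have hle := hu.le (l + 1)
  rw [hP] at h1
  simp only [body] at h1
  rw [valL_cons, valL_append] at h1
  have hg := valL_range hU [Op.goto] (fun o ho => by rw [List.mem_singleton.1 ho]; trivial) hn hle
  have hi := valL_range hU (List.replicate l' Op.incT)
    (fun o ho => by rw [List.eq_of_mem_replicate ho]; trivial) hg.1 hg.2
  obtain ⟨σ2, h3, h4⟩ := op_act hU hi.1 (by linarith [hi.2]) hneg hbd h1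
  obtain ⟨σ3, h5, h6⟩ := incT_list hU hg.1 hg.2 hneg l' 0 σ2 h3
  rw [valL_cons, valL_nil] at h5
  obtain ⟨σ4, h7, h8⟩ := op_goto hU hn (by linarith) hneg h5
  rw [zero_add] at h7
  refine ⟨σ4, by rw [hu0]; exact h7, (((h2.trans h4).trans h6).trans h8).mono ?_⟩
  unfold cost
  rw [hP]
  simp only [body, List.length_cons, List.length_append, List.length_replicate, List.length_nil]
  ring_nf
  omega

lemma sim_branch (hU : UH b ops B C c cd u0) {P : ℕ → Node ℕ} {u : ℕ → ℝ}
    (hu : Stream b cd B P u) (hu0 : u 0 = u0) {S σ : St} {l y n : ℕ} {r : ℕ}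
    (hP : P l = .branch r y n) (hσ : RC b B S (u 0) (l : ℝ) 0 σ) :
    ∃ σ', RC b B S (u 0) ((if 0 ≤ S.reg r then y else n : ℕ) : ℝ) 0 σ' ∧
      Reach C (unode b ops) (cost ops P l) .main σ .main σ' := by
  obtain ⟨σ1, h1, h2⟩ := scan hU hu l 0 σ hσ
  simp only [Nat.zero_add] at h1 h2
  have hneg : (-1 : ℝ) < 0 := by norm_num
  have hbd : (Node.branch r y n).Bd b := hP ▸ hu.bd l
  have hn := hu.nonneg (l + 1)
  have hle := hu.le (l + 1)
  rw [hP] at h1
  simp only [body] at h1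
  rw [valL_append, valL_cons, valL_cons, valL_append] at h1
  have hg := valL_range hU [Op.goto] (fun o ho => by rw [List.mem_singleton.1 ho]; trivial) hn hle
  have hi := valL_range hU (List.replicate n Op.incT)
    (fun o ho => by rw [List.eq_of_mem_replicate ho]; trivial) hg.1 hg.2
  have hr := valL_range hU [Op.rstT] (fun o ho => by rw [List.mem_singleton.1 ho]; trivial)
    hi.1 hi.2
  rw [valL_cons, valL_nil] at hr
  have hj := valL_range hU [Op.jmp r] (fun o ho => by rw [List.mem_singleton.1 ho]; exact hbd)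
    hr.1 hr.2
  rw [valL_cons, valL_nil] at hj
  obtain ⟨σ2, h3, h4⟩ := incT_list hU hj.1 hj.2 hneg y 0 σ1 h1
  rw [zero_add] at h3
  by_cases hS : 0 ≤ S.reg r
  · obtain ⟨σ3, h5, h6⟩ := op_jmp_yes hU hr.1 (by linarith [hr.2]) hneg hbd hS h3
    refine ⟨σ3, by rw [hu0, if_pos hS]; exact h5, ((h2.trans h4).trans h6).mono ?_⟩
    unfold cost
    rw [hP]
    simp only [body, List.length_cons, List.length_append, List.length_replicate, List.length_nil]
    ring_nf
    omega
  · obtain ⟨σ3, h5, h6⟩ := op_jmp_no hU hr.1 (by linarith [hr.2]) hneg hbd (not_le.1 hS) h3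
    obtain ⟨σ4, h7, h8⟩ := op_rstT hU hi.1 (by linarith [hi.2]) hneg h5
    obtain ⟨σ5, h9, h10⟩ := incT_list hU hg.1 hg.2 hneg n 0 σ4 h7
    rw [valL_cons, valL_nil] at h9
    obtain ⟨σ6, h11, h12⟩ := op_goto hU hn (by linarith) hneg h9
    rw [zero_add] at h11
    refine ⟨σ6, by rw [hu0, if_neg hS]; exact h11,
      (((((h2.trans h4).trans h6).trans h8).trans h10).trans h12).mono ?_⟩
    unfold cost
    rw [hP]
    simp only [body, List.length_cons, List.length_append, List.length_replicate, List.length_nil]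
    ring_nf
    omega

lemma sim_halt (hU : UH b ops B C c cd u0) {P : ℕ → Node ℕ} {u : ℕ → ℝ}
    (hu : Stream b cd B P u) {S σ : St} {l : ℕ} {a : Bool}
    (hP : P l = .halt a) (hσ : RC b B S (u 0) (l : ℝ) 0 σ) :
    ∃ σ', run C (unode b ops) (cost ops P l) .main σ = some (a, σ') := by
  obtain ⟨σ1, h1, h2⟩ := scan hU hu l 0 σ hσ
  simp only [Nat.zero_add] at h1 h2
  have hneg : (-1 : ℝ) < 0 := by norm_num
  have hn := hu.nonneg (l + 1)
  have hle := hu.le (l + 1)
  rw [hP] at h1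
  simp only [body] at h1
  rw [valL_cons, valL_nil] at h1
  obtain ⟨σ2, h3⟩ := op_halt hU hn (by linarith) hneg h1
  refine ⟨σ2, run_mono' _ _ (h2.run_some h3) ?_⟩
  unfold cost
  rw [hP]
  simp only [body, List.length_cons, List.length_nil]
  ring_nf
  omega

/-- the interpreter simulates the infinite program -/
lemma sim (hU : UH b ops B C c cd u0) {P : ℕ → Node ℕ} {u : ℕ → ℝ}
    (hu : Stream b cd B P u) (hu0 : u 0 = u0) (G : Set ℕ) (W : ℕ) (hW : ∀ l ∈ G, cost ops P l ≤ W)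
    (hGa : ∀ l ∈ G, ∀ a l', P l = .act a l' → l' ∈ G)
    (hGb : ∀ l ∈ G, ∀ r y n, P l = .branch r y n → y ∈ G ∧ n ∈ G) :
    ∀ (t l : ℕ) (S σ : St) (a : Bool) (S' : St), l ∈ G → RC b B S (u 0) (l : ℝ) 0 σ →
      run c P t l S = some (a, S') → ∃ σ', run C (unode b ops) (t * W) .main σ = some (a, σ') := by
  intro t
  induction t with
  | zero => intro l S σ a S' _ _ h; simp [run] at h
  | succ t ih =>
    intro l S σ a S' hl hσ h
    rw [run] at h
    cases hP : P l with
    | act x l' =>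
      rw [hP] at h
      obtain ⟨σ1, h1, h2⟩ := sim_act hU hu hu0 hP hσ
      obtain ⟨σ2, h3⟩ := ih l' _ σ1 a S' (hGa l hl x l' hP) h1 h
      refine ⟨σ2, run_mono' _ _ (h2.run_some h3) ?_⟩
      have := hW l hl
      rw [Nat.succ_mul]
      omega
    | branch r y n =>
      rw [hP] at h
      obtain ⟨σ1, h1, h2⟩ := sim_branch hU hu hu0 hP hσ
      have hm : (if 0 ≤ S.reg r then y else n) ∈ G := by
        have := hGb l hl r y n hP
        split_ifs
        · exact this.1
        · exact this.2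
      obtain ⟨σ2, h3⟩ := ih _ _ σ1 a S' hm h1 h
      refine ⟨σ2, run_mono' _ _ (h2.run_some h3) ?_⟩
      have := hW l hl
      rw [Nat.succ_mul]
      omega
    | halt x =>
      rw [hP] at h
      simp only [Option.some.injEq, Prod.mk.injEq] at h
      obtain ⟨rfl, rfl⟩ := h
      obtain ⟨σ1, h1⟩ := sim_halt hU hu hP hσ
      refine ⟨σ1, run_mono' _ _ h1 ?_⟩
      have := hW l hl
      rw [Nat.succ_mul]
      omega

end scan

end Pool.Agent.H581R2
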